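import Pool.Agent.Y229.CF.NonG
import Pool.Agent.TH216.ND.Nd4

set_option autoImplicit false

/-! The motivic zeta function at the origin of a polynomial which is nondegenerate for the compact
faces (adapted from `TH216.ND`). -/

namespace Pool.Agent.Y229.CF

open MvPolynomial Pool.Agent.H628R4.TP Pool.Agent.W425.MM
open Pool.Agent.W425.ND (spa Nondeg prodb prodb_eval parts)
open Pool.Agent.W426.SM (gord IsRay face)
open Pool.Agent.W803.SM (gord_le exists_gord)
open Pool.Agent.W425.BF (B1)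
open Pool.Agent.W425.SV (RelV Kil1)
open Pool.Agent.W425.SG (UnitEq)
open Pool.Agent.TH216.HD hiding IsRay
open Pool.Agent.TH216.HDNL
open Pool.Agent.TH216.MF (RelG KilU KRelJ RecJ krelJ_phi SimR)
open Pool.Agent.TH216.MC (pos_of_ray)
open Pool.Agent.TH216.LX (InN aJ_phiN)
open Pool.Agent.TH216.ID (YOK HypSY hypSY_of recJ_genY PWI)
open Pool.Agent.W428.MOT (Pt Constr ratRing sp Lu MK)
open Pool.Agent.W375.MG (zetaG Good)
open Pool.Agent.TH216.ND

variable {r N : ℕ}

lemma dL_ne (L : ℕ) (x : ℂ) (h : ∀ t : ℕ, x ≠ (t : ℂ)) : (dL L).eval x ≠ 0 := by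
  unfold dL
  rw [Polynomial.eval_prod]
  refine Finset.prod_ne_zero_iff.2 fun i _ => ?_
  rw [Polynomial.eval_sub, Polynomial.eval_X, Polynomial.eval_C]
  exact sub_ne_zero.2 (h i)

lemma dL_neg (v : Fin r → Fin N → ℕ) (a : Fin N → ℕ) (L : ℕ) (hg : 0 < gord v a) :
    (dL L).eval (-(((∑ i, a i : ℕ) : ℂ) / gord v a)) ≠ 0 := by
  refine dL_ne L _ fun t ht => ?_
  have hgC : ((gord v a : ℕ) : ℂ) ≠ 0 := by exact_mod_cast hg.ne'
  have h1 : ((∑ i, a i : ℕ) : ℂ) + t * gord v a = 0 := by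
    have h2 : ((∑ i, a i : ℕ) : ℂ) / gord v a = -(t : ℂ) := by rw [← ht, neg_neg]
    rw [div_eq_iff hgC] at h2
    rw [h2]
    ring
  have h2 : (∑ i, a i) + t * gord v a = 0 := by exact_mod_cast h1
  have h3 : ∑ i, a i = 0 := by omega
  have h4 : ∀ i, a i = 0 := fun i => by
    have := Finset.single_le_sum (f := a) (fun _ _ => Nat.zero_le _) (Finset.mem_univ i)
    omega
  have h5 : gord v a = 0 := by
    by_cases hr : 0 < r
    · obtain ⟨j, hj⟩ := exists_gord hr v a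
      rw [← hj]
      exact Finset.sum_eq_zero fun i _ => by rw [h4 i, zero_mul]
    · have hr0 : r = 0 := by omega
      subst hr0
      unfold gord
      simp
  omega

/-- **Nondegenerate polynomials, at the origin.** -/
theorem nd_motX' {k : Type} [Field k] [Algebra k ℂ] (hr : 0 < r)
    (v : Fin r → Fin N → ℕ) (hv : Function.Injective v) (hv0 : ∀ j, v j ≠ 0) (c : Fin r → k)
    (hc : ∀ j, c j ≠ 0)
    (hnd : NondegC v (fun j => algebraMap k ℂ (c j))) (V : Finset (Fin r))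
    (hV : Spans v V) (hL : HypVL v V) :
    ∃ S : Finset (ℤ × ℤ),
      (∀ p ∈ S, p.1 < 0 ∧ 0 < p.2 ∧ ∀ b : Polynomial ℂ, b.eval (-1) = 0 →
        UnitEq True (spa v (fun j => algebraMap k ℂ (c j))) b →
          ∃ i : ℤ, b.eval ((p.1 : ℂ) / p.2 - i) = 0) ∧
      (∀ (K : Type) [Field K] [Algebra k K] (W : Set (Pt K (Fin N)))
        (E : Set (AlgebraicClosure K)), Constr W → Good E → (∀ z ∈ W, ∀ i, z i = 0) →
        zetaG (spa v (fun j => algebraMap k K (c j))) W E ∈ ratRing K S) := by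
  classical
  have hne : NeZero r := ⟨by omega⟩
  have hkc : CharZero k := RingHom.charZero (algebraMap k ℂ)
  set P : ℚ → Prop := PW True (spa v (fun j => algebraMap k ℂ (c j))) with hPdef
  have hP : ∀ α, ¬ P α → ∃ (θ : Fin V.card → ℤ) (p : Polynomial ℂ),
      RelG (vV v V) (Kil1 (vV v V)) (KilU (vV v V) θ) p ∧ p.eval (α : ℂ) ≠ 0 := by
    intro α hα
    rw [hPdef] at hα
    unfold PW at hα
    push Not at hα
    obtain ⟨b, hb1, hb, hroot⟩ := hα
    obtain ⟨K, L, hK⟩ := relV_all v _ hv hv0 hnd b hb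
    obtain ⟨θ, hθ⟩ := rel_vV v V hV True (prodb b K * dL L) hK
    refine ⟨θ, prodb b K * dL L, hθ, ?_⟩
    rw [Polynomial.eval_mul, prodb_eval]
    refine mul_ne_zero (Finset.prod_ne_zero_iff.2 fun i _ => ?_) (dL_ne _ _ fun t ht => ?_)
    · exact_mod_cast hroot (i : ℤ)
    · apply hroot ((t : ℤ) + 1)
      rw [← hb1]
      congr 1
      have h1 : (α : ℂ) = t := ht
      rw [h1]
      push_cast
      ring
  obtain ⟨S, hS, hz1⟩ := Mot.fin_W' v hr (fun σ => LocVY v V ∅ σ ∧ ¬ P (-σ)) Finset.univ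
    (fun J hJ q hq e he T0 hT0 σ hσ hlog => hb_ndX hr v hv ∅ Finset.univ
      ⟨fun i hi => absurd hi (Finset.notMem_empty i),
        fun i hi => absurd hi (Finset.notMem_empty i)⟩ V (spansD_univ hV) P hP J hJ q hq e he T0
      hT0 σ hσ hlog)
  have hspa : ∀ {K : Type} [Field K] (c' : Fin r → K), spa v c' = sp 0 v c' 1 := by
    intro K _ c'
    unfold sp spa
    simp
  refine ⟨insert (-1, 1) S, fun p hp => ?_, fun K _ _ W E hW hE hWD => ?_⟩
  · rcases Finset.mem_insert.1 hp with rfl | hp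
    · refine ⟨by norm_num, by norm_num, fun b hb _ => ⟨0, ?_⟩⟩
      have h1 : (((-1 : ℤ) : ℂ) / ((1 : ℤ) : ℂ) - ((0 : ℤ) : ℂ)) = -1 := by
        push_cast
        ring
      rw [h1, hb]
    obtain ⟨a, ha, hg, hn, rfl⟩ := hS p hp
    refine ⟨pos_of_ray ha, Int.natCast_pos.2 hg, fun b hb hU => ?_⟩
    have hgC : ((gord v a : ℕ) : ℂ) ≠ 0 := by exact_mod_cast hg.ne'
    rcases hL a ha hg with ⟨t, ht⟩ | ⟨a', hg', hN, z, hz⟩ | hloc
    · have ht' : ∑ i, a i = gord v a * t := ht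
      refine ⟨-(t : ℤ) + 1, ?_⟩
      have h1 : ((-((∑ i, a i : ℕ) : ℤ) : ℤ) : ℂ) / ((gord v a : ℤ) : ℂ) -
          ((-(t : ℤ) + 1 : ℤ) : ℂ) = -1 := by
        rw [ht']
        push_cast
        field_simp
        ring
      rw [h1, hb]
    · obtain ⟨K, L, hK⟩ := relV_all v _ hv hv0 hnd b hU
      have h1 := a5 v True (prodb b K * dL L) hK a' hg' hN
      rw [Polynomial.eval_mul, mul_eq_zero] at h1
      have h1 := h1.resolve_right (dL_neg v a' L hg')
      rw [prodb_eval, Finset.prod_eq_zero_iff] at h1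
      obtain ⟨i, -, hi⟩ := h1
      refine ⟨(i : ℤ) - z, ?_⟩
      have h2 : ((∑ i, a i : ℕ) : ℂ) / gord v a = ((∑ i, a' i : ℕ) : ℂ) / gord v a' + z := by
        have := congrArg (fun q : ℚ => (q : ℂ)) hz
        unfold lev at this
        push_cast at this ⊢
        exact this
      have h3 : ((-((∑ i, a i : ℕ) : ℤ) : ℤ) : ℂ) / ((gord v a : ℤ) : ℂ) -
          (((i : ℤ) - z : ℤ) : ℂ) = -(((∑ i, a' i : ℕ) : ℂ) / gord v a') - i := by
        push_cast at h2 ⊢
        rw [neg_div, h2]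
        ring
      rw [h3]
      exact hi
    · have h1 : P (-(((∑ i, a i : ℕ) : ℚ) / gord v a)) := by
        by_contra hcon
        exact hn ⟨fun j1 hj1 => Or.inl (hloc j1 hj1), hcon⟩
      obtain ⟨i, hi⟩ := h1 b hb hU
      refine ⟨i, ?_⟩
      have e : ((-((∑ i, a i : ℕ) : ℤ) : ℤ) : ℂ) / ((gord v a : ℤ) : ℂ) =
          ((-(((∑ i, a i : ℕ) : ℚ) / gord v a) : ℚ) : ℂ) := by
        push_cast
        ring
      rw [e]
      exact hi
  · have hK : CharZero K := charZero_of_injective_algebraMap (algebraMap k K).injective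
    rw [hspa]
    exact Pool.Agent.TH216.LX.mem_insert_ring S _ (hz1 K _ (nonG_of' k K v c hr hnd)
      (fun j => (map_ne_zero _).2 (hc j)) W E hW hE fun z hz i _ => hWD z hz i)


end Pool.Agent.Y229.CF
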