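import Pool.Agent.W425.ND.Stm2
import Pool.Agent.W425.ND.DefStep

set_option autoImplicit false

/-! Polynomials which are nondegenerate for the compact faces of the Newton polyhedron at the origin:
definitions and statements of the parts. (The library `W425.ND` treats polynomials which are
nondegenerate for all the faces of the Newton polytope.) -/

namespace Pool.Agent.Y229.CF

open MvPolynomial Pool.Agent.W425.ND

variable {N r : ℕ} {R : Type} [CommRing R]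

/-- The exponent `c` lies in `m` times the Newton polyhedron `conv (v_j) + ℝ_{≥ 0} ^ N`
(in the positive orthant for `m = 0`). -/
def HulP (v : Fin r → Fin N → ℕ) (m : ℕ) (c : Fin N →₀ ℕ) : Prop :=
  ∃ l : Fin r → ℝ, (∀ j, 0 ≤ l j) ∧ ∑ j, l j = (m : ℝ) ∧ ∀ i, ∑ j, l j * (v j i : ℝ) ≤ (c i : ℝ)

/-- all exponents of `p` lie in `m` times the Newton polyhedron -/
def SupP (v : Fin r → Fin N → ℕ) (m : ℕ) (p : MvPolynomial (Fin N) R) : Prop :=
  ∀ c, coeff c p ≠ 0 → HulP v m c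

/-- From degree `K + 1` on, the monomials are generated by `f`, the `x_i ∂_i f` and the products of
the variables with monomials of the same degree. -/
def GenP (v : Fin r → Fin N → ℕ) (f : MvPolynomial (Fin N) R) (K : ℕ) : Prop :=
  ∀ m, K ≤ m → ∀ c, HulP v (m + 1) c →
    ∃ (p0 : MvPolynomial (Fin N) R) (p q : Fin N → MvPolynomial (Fin N) R),
      SupP v m p0 ∧ (∀ i, SupP v m (p i)) ∧ (∀ i, SupP v (m + 1) (q i)) ∧
      monomial c (1 : R) = p0 * f + ∑ i, p i * (X i * pderiv i f) + ∑ i, X i * q i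

open Classical in
/-- The polynomial `f = ∑_j a_j x ^ (v_j)` is nondegenerate for the compact faces of its Newton
polyhedron: for every `w` with positive coordinates the sum of the terms of `f` on which `w` is
minimal and its derivatives have no common zero in the torus. -/
def NondegC (v : Fin r → Fin N → ℕ) (a : Fin r → ℂ) : Prop :=
  ∀ w : Fin N → ℝ, (∀ i, 0 < w i) → ∀ z : Fin N → ℂ, (∀ i, z i ≠ 0) →
    ¬ ((∑ j, if onFace v w j then a j * ∏ i, z i ^ v j i else 0) = 0 ∧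
      ∀ i, (∑ j, if onFace v w j then a j * (v j i : ℂ) * ∏ i, z i ^ v j i else 0) = 0)

/-- the monomial relations -/
def ToricP (v : Fin r → Fin N → ℕ) (c : Fin r → ℂ) : Prop :=
  ∀ n n' : Fin r → ℕ, ∑ j, n j = ∑ j, n' j → (∀ i, ∑ j, n j * v j i ≤ ∑ j, n' j * v j i) →
    (∃ i, ∑ j, n j * v j i < ∑ j, n' j * v j i) → ∏ j, c j ^ n' j = 0

/-- Part K1P (Carathéodory). -/
def TaskK1P : Prop := ∀ (r N : ℕ) (v : Fin r → Fin N → ℕ) (m : ℕ) (c : Fin N →₀ ℕ),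
  HulP v m c → N + 1 ≤ m → ∃ (j : Fin r) (c' : Fin N →₀ ℕ),
    (∀ i, c i = v j i + c' i) ∧ HulP v (m - 1) c'

/-- Part K2P: compact faces are exposed by vectors with positive coordinates. -/
def TaskK2P : Prop := ∀ (r N : ℕ) (v : Fin r → Fin N → ℕ) (J : Finset (Fin r)), J.Nonempty →
  (∀ n n' : Fin r → ℕ, ∑ j, n j = ∑ j, n' j → (∀ i, ∑ j, n j * v j i ≤ ∑ j, n' j * v j i) →
    (∀ j, n' j ≠ 0 → j ∈ J) →
    (∀ i, ∑ j, n j * v j i = ∑ j, n' j * v j i) ∧ ∀ j, n j ≠ 0 → j ∈ J) →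
  ∃ w : Fin N → ℝ, (∀ i, 0 < w i) ∧ ∀ j, onFace v w j ↔ j ∈ J

/-- Part K4P: Nullstellensatz. -/
def TaskK4P : Prop := ∀ (r N : ℕ) (v : Fin r → Fin N → ℕ) (a : Fin r → ℂ),
  (∀ c : Fin r → ℂ, Toric v c → ToricP v c → ∑ j, a j * c j = 0 →
    (∀ i, ∑ j, a j * (v j i : ℂ) * c j = 0) → c = 0) →
  ∃ n, 1 ≤ n ∧ ∀ α : Fin r → ℕ, ∑ j, α j = n →
    ∃ (p0 : MvPolynomial (Fin N) ℂ) (p q : Fin N → MvPolynomial (Fin N) ℂ),
      SupP v (n - 1) p0 ∧ (∀ i, SupP v (n - 1) (p i)) ∧ (∀ i, SupP v n (q i)) ∧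
      monomial (Finsupp.equivFunOnFinite.symm fun i => ∑ j, α j * v j i) (1 : ℂ) =
        p0 * spa v a + ∑ i, p i * (X i * pderiv i (spa v a)) + ∑ i, X i * q i

/-- Part KOUP: the local theorem of Kouchnirenko, from the parts K1P, K2P, K3, K4P. -/
def TaskKOUP : Prop := TaskK1P → TaskK2P → TaskK3 → TaskK4P → ∀ (r N : ℕ)
  (v : Fin r → Fin N → ℕ) (a : Fin r → ℂ), NondegC v a → ∃ K, GenP v (spa v a) K

/-- Part NAKP: generation over power series. -/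
def TaskNAKP : Prop := ∀ (r N : ℕ) (v : Fin r → Fin N → ℕ) (a : Fin r → ℂ) (K : ℕ),
  GenP v (spa v a) K → ∀ a' : Fin r → PowerSeries ℂ,
  (∀ j, PowerSeries.constantCoeff (a' j) = a j) → GenP v (spa v a') K

/-- Part CNP: the connection lemma, `Z` finitely generated modulo `W`. -/
def TaskCNP : Prop := ∀ (k σ M : Type) [Field k] [CharZero k] [Finite σ] [AddCommGroup M]
  [Module (MvPolynomial σ (PowerSeries k)) M] (nb : M →+ M),
  (∀ (p : MvPolynomial σ (PowerSeries k)) (x : M), nb (p • x) = p • nb x + dC p • x) →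
  ∀ (Z W Z0 F : Submodule (MvPolynomial σ (PowerSeries k)) M), F.FG → W ≤ Z → Z0 ≤ Z →
  Z ≤ F ⊔ W →
  (∀ x ∈ Z, nb x ∈ Z) → (∀ x ∈ W, nb x ∈ W) → (∀ x ∈ Z0, nb x ∈ Z0) →
  ∀ β : MvPolynomial σ k,
  (∀ x ∈ Z0, ∃ w ∈ W, ∃ z ∈ Z, (map PowerSeries.C β : MvPolynomial σ (PowerSeries k)) • x =
    w + (C PowerSeries.X : MvPolynomial σ (PowerSeries k)) • z) →
  ∀ x ∈ Z0, (map PowerSeries.C β : MvPolynomial σ (PowerSeries k)) • x ∈ W

/-- the kinds of terms -/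
def Kind (v : Fin r → Fin N → ℕ) (L k : ℕ) (t : ℕ) (δ : Fin N → ℤ) (c : Fin N →₀ ℕ) (m : ℕ) :
    Prop :=
  (t = 1 ∧ HulP v m c) ∨ (t = 0 ∧ (∀ i, δ i ≤ 0) ∧ δ ≠ 0 ∧ HulP v m c) ∨
  (t = 0 ∧ (∀ i, δ i ≤ 0) ∧ (k : ℤ) ≤ -∑ i, δ i ∧ L ≤ m ∧ HulP v (m - L) c)

/-- The relation obtained by deformation. -/
def RelX [Algebra ℂ R] (T : ℕ → (Fin N → ℤ) → (Fin N →₀ ℕ) → ℕ → Prop)
    (f : MvPolynomial (Fin N) R) (A : R) (B : Polynomial ℂ) : Prop :=
  ∃ (s0 n : ℕ) (t : Fin n → ℕ) (δ : Fin n → Fin N → ℤ) (c : Fin n → Fin N →₀ ℕ) (m : Fin n → ℕ)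
    (P : Fin n → MvPolynomial (Option (Fin N)) R),
    (∀ k, T (t k) (δ k) (c k) (m k)) ∧
    ∀ s, s0 ≤ s → ∀ e, algebraMap ℂ R (B.eval (s : ℂ)) * A * coeff e (f ^ s) =
      ∑ k, low (δ k) (P k • sh (t k) (brk f (monomial (c k) 1) (m k))) s e

/-- `s (s - 1) ⋯ (s - L + 1)` -/
noncomputable def dL (L : ℕ) : Polynomial ℂ :=
  ∏ i ∈ Finset.range L, (Polynomial.X - Polynomial.C (i : ℂ))

/-- Part DEFP: the deformation theorem. -/
def TaskDEFP : Prop := ∀ (r N : ℕ) (v : Fin r → Fin N → ℕ) (a' : Fin r → PowerSeries ℂ),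
  map PowerSeries.constantCoeff (spa v a') ≠ 0 → ∀ K, GenP v (spa v a') K → ∀ B : Polynomial ℂ,
  (∀ m c, m ≤ K → HulP v m c →
    DefThm.SpecAt True (map PowerSeries.constantCoeff (spa v a')) B c m) →
  ∃ L, ∀ k, RelX (Kind v L k) (spa v a') (1 : PowerSeries ℂ) (B * dL L)

/-- Part DESCX: descent from power series to polynomials in the coefficients. -/
def TaskDESCX : Prop := ∀ (r N : ℕ) (T : ℕ → (Fin N → ℤ) → (Fin N →₀ ℕ) → ℕ → Prop)
  (v : Fin r → Fin N → ℕ) (a' : Fin r → PowerSeries ℂ) (B : Polynomial ℂ),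
  AlgebraicIndependent ℂ a' → RelX T (spa v a') 1 B →
  ∃ A : MvPolynomial (Fin r) ℂ, A ≠ 0 ∧ RelX T (spa v (X : Fin r → MvPolynomial (Fin r) ℂ)) A B

/-- Part V2EX: comparison of the coefficients of `x ^ (∑ u_j v_j) y ^ (u + μ)`. -/
def TaskV2EX : Prop := ∀ (r N : ℕ) (v : Fin r → Fin N → ℕ) (L : ℕ), r ≠ 0 → (∀ j, v j ≠ 0) →
  ∃ k : ℕ, ∀ (A : MvPolynomial (Fin r) ℂ) (B : Polynomial ℂ) (θ : Fin r → ℝ),
    LinearIndependent ℚ θ → A ≠ 0 →
    RelX (Kind v L k) (spa v (X : Fin r → MvPolynomial (Fin r) ℂ)) A B →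
    Pool.Agent.W425.SV.RelV v θ True B

end Pool.Agent.Y229.CF
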