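import Pool.Agent.Y229.CF.D4
import Pool.Agent.Y229.CF.K1P
import Pool.Agent.Y239.CF.K2P
import Pool.Agent.Y393.CF.K4P
import Pool.Agent.Y239.CF.KOUP
import Pool.Agent.Y256.CF.Nak
import Pool.Agent.Y239.CF.CNP
import Pool.Agent.Y317.CF.Descx
import Pool.Agent.Y497.CF.V2EX
import Pool.Agent.W425.ND.Fin1

set_option autoImplicit false

/-! Polynomials which are nondegenerate for the compact faces: assembly. -/

namespace Pool.Agent.Y229.CF

open MvPolynomial Pool.Agent.W425.ND Pool.Agent.W425.SG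

variable {r N : ℕ}

lemma exists_ne_zero' [NeZero r] (v : Fin r → Fin N → ℕ) (a : Fin r → ℂ) (h : NondegC v a) :
    ∃ j, a j ≠ 0 := by
  by_contra h0
  push Not at h0
  refine h (fun _ => 1) (fun _ => one_pos) (fun _ => 1) (fun _ => one_ne_zero) ⟨?_, fun i => ?_⟩
  · simp [h0]
  · simp [h0]

lemma spa_ne_zero' [NeZero r] {v : Fin r → Fin N → ℕ} (hv : Function.Injective v)
    (a : Fin r → ℂ) (h : NondegC v a) : spa v a ≠ 0 := by
  classical
  obtain ⟨j, hj⟩ := exists_ne_zero' v a h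
  intro h0
  apply hj
  have h1 := congrArg (coeff (Finsupp.equivFunOnFinite.symm (v j))) h0
  rw [DefThm.spa_coeff, coeff_zero] at h1
  rw [← h1]
  have : ∀ j', (if (Finsupp.equivFunOnFinite.symm (v j) : Fin N →₀ ℕ) =
      Finsupp.equivFunOnFinite.symm (v j') then a j' else 0) = if j = j' then a j' else 0 := by
    intro j'
    by_cases h2 : j = j'
    · rw [if_pos h2, if_pos (by rw [h2])]
    · rw [if_neg h2, if_neg]
      intro h3
      exact h2 (hv (Finsupp.equivFunOnFinite.symm.injective h3))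
  simp only [this]
  simp

/-- the local theorem of Kouchnirenko -/
theorem kou_all (v : Fin r → Fin N → ℕ) (a : Fin r → ℂ) (h : NondegC v a) :
    ∃ K, GenP v (spa v a) K :=
  Pool.Agent.Y239.CF.koup k1p Pool.Agent.Y239.CF.k2p Pool.Agent.W839.ND.k3
    Pool.Agent.Y393.CF.k4p r N v a h

/-- The relation for the polynomials which are nondegenerate for the compact faces. -/
theorem relV_all [NeZero r] (v : Fin r → Fin N → ℕ) (a : Fin r → ℂ)
    (hv : Function.Injective v) (hv0 : ∀ j, v j ≠ 0) (hnd : NondegC v a)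
    (b : Polynomial ℂ) (hb : UnitEq True (spa v a) b) :
    ∃ K L : ℕ, ∀ θ : Fin r → ℝ, LinearIndependent ℚ θ →
      Pool.Agent.W425.SV.RelV v θ True (prodb b K * dL L) := by
  obtain ⟨K, hK⟩ := kou_all v a hnd
  obtain ⟨a', ha', hind⟩ := Pool.Agent.W240.ND.taskEXP r a
  have hgen := Pool.Agent.Y256.CF.nakp r N v a K hK a' ha'
  have hm := spa_map v a' a ha'
  obtain ⟨L, hL⟩ := defp Pool.Agent.Y239.CF.cnp Pool.Agent.W933.ND.alg Pool.Agent.W864.ND.taskBRK
    Pool.Agent.W340.ND.rep1 Pool.Agent.W398.ND.rep2 r N v a'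
    (by rw [hm]; exact spa_ne_zero' hv a hnd) K hgen (prodb b K) (by
      intro m c hm' _
      rw [hm]
      exact Pool.Agent.W402.ND.taskSPEC N True (spa v a) b hb K m hm' (monomial c 1))
  obtain ⟨k, hk⟩ := Pool.Agent.Y497.CF.v2ex r N v L (NeZero.ne r) hv0
  obtain ⟨A, hA, hrel⟩ := Pool.Agent.Y317.CF.descx r N (Kind v L k) v a' (prodb b K * dL L) hind
    (hL k)
  exact ⟨K, L, fun θ hθ => hk A _ θ hθ hA hrel⟩

end Pool.Agent.Y229.CF
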