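import Pool.Agent.Y229.CF.MotF
import Pool.Agent.Y229.CF.Asm

set_option autoImplicit false

/-! Change of the field, for polynomials which are nondegenerate for the compact faces (adapted from
`W67.MM.B1` and `W425.MM.Fin0`). -/

namespace Pool.Agent.Y229.CF

open MvPolynomial Pool.Agent.H628R4.TZ Pool.Agent.H628R4.TP Pool.Agent.W425.SM
  Pool.Agent.W425.SG Pool.Agent.W422.GC Pool.Agent.W425.ND
open Pool.Agent.W428.MOT (K0 MK Pt Constr cls Lu ratRing sp amin gbar dgbar cb)
open Pool.Agent.W375.MG (zetaG zetaW zetaOrd Good JetG)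
open Pool.Agent.W426.SM (gord ford IsRay face)
open Pool.Agent.W67.MM (special face_iff)

variable {r N : ℕ}

/-- the compact faces have no singular points in the torus, over a field `F` -/
def NonDP {F : Type} [Field F] (v : Fin r → Fin N → ℕ) (c : Fin r → F) : Prop :=
  ∀ (u : Fin N → ℕ), (∀ i, 0 < u i) → ∀ (z : Fin N → F), (∀ i, z i ≠ 0) →
    (∑ j, if face v u j then c j * ∏ i, z i ^ v j i else 0) = 0 →
    ∃ i, (∑ j, if face v u j then c j * ((v j i : F) * ∏ i, z i ^ v j i)
      else 0) ≠ 0

theorem taskB1' (k : Type) [Field k] [Algebra k ℂ] (K : Type) [Field K] [Algebra k K]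
    (v : Fin r → Fin N → ℕ) (c : Fin r → k) (hr : 0 < r)
    (hnd : NondegC v (fun j => algebraMap k ℂ (c j))) :
    NonDP v (fun j => algebraMap k K (c j)) := by
  intro u hu z hz h0
  by_contra hcon
  push Not at hcon
  obtain ⟨w, hw0, hw⟩ := special k K z hz
  apply hnd (fun i => (u i : ℝ)) (fun i => Nat.cast_pos.2 (hu i)) w hw0
  classical
  constructor
  · have h1 := hw r (fun j => Pool.Agent.W426.SM.face v u j) v c h0
    refine Eq.trans (Finset.sum_congr rfl fun j _ => ?_) h1
    by_cases hj : Pool.Agent.W426.SM.face v u j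
    · rw [if_pos hj, if_pos ((face_iff hr v u j).2 hj)]
    · rw [if_neg hj, if_neg (fun h => hj ((face_iff hr v u j).1 h))]
  · intro i
    have h1 := hw r (fun j => Pool.Agent.W426.SM.face v u j) v (fun j => c j * (v j i : k)) (by
      refine Eq.trans (Finset.sum_congr rfl fun j _ => ?_) (hcon i)
      split_ifs
      · rw [map_mul, map_natCast, mul_assoc]
      · rfl)
    refine Eq.trans (Finset.sum_congr rfl fun j _ => ?_) h1
    by_cases hj : Pool.Agent.W426.SM.face v u j
    · rw [if_pos hj, if_pos ((face_iff hr v u j).2 hj), map_mul, map_natCast]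
    · rw [if_neg hj, if_neg (fun h => hj ((face_iff hr v u j).1 h))]

/-- nondegeneracy over the algebraic closure of `K` -/
theorem nonG_of' (k K : Type) [Field k] [Algebra k ℂ] [Field K] [Algebra k K]
    (v : Fin r → Fin N → ℕ) (c : Fin r → k) (hr : 0 < r)
    (hnd : NondegC v (fun j => algebraMap k ℂ (c j))) :
    Mot.NonGJ Finset.univ v (fun j => algebraMap k K (c j)) := by
  classical
  intro u hu z hz h0
  have h1 := taskB1' k (AlgebraicClosure K) v c hr hnd
  set z' : Fin N → AlgebraicClosure K := fun i => if ∃ j ∈ amin v u, v j i ≠ 0 then z i else 1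
    with hz'
  have hz'0 : ∀ i, z' i ≠ 0 := by
    intro i
    rw [hz']
    by_cases h : ∃ j ∈ amin v u, v j i ≠ 0
    · simp only [if_pos h]
      exact hz i h
    · simp only [if_neg h]
      exact one_ne_zero
  have hmem : ∀ j, j ∈ amin v u ↔ face v u j := fun j => by
    simp [amin, face]
  have hpow : ∀ j, j ∈ amin v u → ∏ i, z' i ^ v j i = ∏ i, z i ^ v j i := by
    intro j hj
    refine Finset.prod_congr rfl fun i _ => ?_
    by_cases h : v j i = 0
    · rw [h, pow_zero, pow_zero]
    · rw [hz']
      simp only [if_pos (show ∃ j ∈ amin v u, v j i ≠ 0 from ⟨j, hj, h⟩)]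
  have hcb : ∀ j, cb (fun j => algebraMap k K (c j)) j = algebraMap k (AlgebraicClosure K) (c j) := by
    intro j
    unfold cb
    exact (IsScalarTower.algebraMap_apply k K (AlgebraicClosure K) (c j)).symm
  have hg0 : (∑ j, if face v u j then algebraMap k (AlgebraicClosure K) (c j) *
      ∏ i, z' i ^ v j i else 0) = 0 := by
    refine Eq.trans ?_ h0
    unfold gbar
    rw [← Finset.sum_filter]
    refine Finset.sum_congr ?_ fun j hj => ?_
    · ext j
      simp [hmem]
    · rw [hcb, hpow j ((hmem j).2 (Finset.mem_filter.1 hj).2)]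
  obtain ⟨i, hi⟩ := h1 u (fun i => Nat.pos_of_ne_zero (hu i (Finset.mem_univ i))) z' hz'0 hg0
  refine ⟨i, fun hd => hi ?_⟩
  have h2 : (∑ j, if face v u j then algebraMap k (AlgebraicClosure K) (c j) *
      ((v j i : AlgebraicClosure K) * ∏ i, z' i ^ v j i) else 0) =
      z i * dgbar v (cb (fun j => algebraMap k K (c j))) (amin v u) i z := by
    rw [dgbar, Finset.mul_sum, ← Finset.sum_filter]
    refine Finset.sum_congr ?_ fun j hj => ?_
    · ext j
      simp [hmem]
    · have hj' := (hmem j).2 (Finset.mem_filter.1 hj).2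
      rw [hcb, hpow j hj']
      by_cases h : v j i = 0
      · rw [h]
        simp
      · have h3 : ∏ i', z i' ^ v j i' = z i * ∏ i', z i' ^ (v j i' - if i' = i then 1 else 0) := by
          rw [← Finset.mul_prod_erase Finset.univ (fun i' => z i' ^ v j i') (Finset.mem_univ i),
            ← Finset.mul_prod_erase Finset.univ
              (fun i' => z i' ^ (v j i' - if i' = i then 1 else 0)) (Finset.mem_univ i), ← mul_assoc]
          congr 1
          · simp only [if_true]
            rw [← pow_succ', Nat.sub_add_cancel (Nat.pos_of_ne_zero h)]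
          · refine Finset.prod_congr rfl fun i' hi' => ?_
            rw [if_neg (Finset.ne_of_mem_erase hi'), Nat.sub_zero]
        rw [h3]
        ring
  rw [h2, hd, mul_zero]

end Pool.Agent.Y229.CF
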