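import Pool.Agent.Y229.CF.MotX
import Pool.Agent.W425.MM.Fin
import Pool.Agent.TH216.LR.Lr8

set_option autoImplicit false

/-! The local functional equation and the local motivic zeta function. -/

namespace Pool.Agent.Y229.CF

open MvPolynomial Pool.Agent.W425.ND Pool.Agent.W425.SG
open Pool.Agent.W428.MOT (Pt Constr ratRing)
open Pool.Agent.W749.NM (zetaN)
open Pool.Agent.W375.MG (zetaG Good good_units)

variable {r N : ℕ}

/-- the local functional equation -/
theorem of_local' (v : Fin r → Fin N → ℕ) (hr : 1 ≤ r) (a : Fin r → ℂ)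
    (hv : Function.Injective v) (hv0 : ∀ j, v j ≠ 0) (hnd : NondegC v a) (b : Polynomial ℂ)
    (hb : Pool.Agent.H628R4.TP.IsLocalBFunction (spa v a) b) :
    b.eval (-1) = 0 ∧ UnitEq True (spa v a) b := by
  have : NeZero r := ⟨by omega⟩
  obtain ⟨h1, c, P, hc, hP⟩ := Pool.Agent.W368.SL.taskL1 (spa v a) b
    (spa_ne_zero' hv a hnd) (spa_const v hv0 a) (Pool.Agent.W425.SL.toSL hb)
  exact ⟨h1, c, P, hc, fun h => absurd trivial h, hP⟩

/-- the local zeta function from the general one -/
theorem zetaN_of {K : Type} [Field K] (f : MvPolynomial (Fin N) K) (S : Finset (ℤ × ℤ))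
    (hz : ∀ (W : Set (Pt K (Fin N))) (E : Set (AlgebraicClosure K)), Constr W → Good E →
      (∀ z ∈ W, ∀ i, z i = 0) → zetaG f W E ∈ ratRing K S) :
    zetaN f 0 ∈ ratRing K S := by
  refine Pool.Agent.TH216.LR.zetaN_mem0 _ _ ?_
  have hW : Constr ({0} : Set (Pt K (Fin N))) := by
    have h1 := Pool.Agent.W425.MM.constr_pt (K := K) (0 : Fin N → K)
    have e : ({fun i => algebraMap K (AlgebraicClosure K) ((0 : Fin N → K) i)} :
        Set (Pt K (Fin N))) = {0} := by
      congr 1
      funext i
      simp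
    rwa [e] at h1
  exact hz {0} {a | a ≠ 0} hW good_units (fun z hz i => by
    rw [Set.mem_singleton_iff.1 hz]
    rfl)

end Pool.Agent.Y229.CF
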