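import Pool.Agent.Y229.CF.Mot
import Pool.Agent.Y231.N4.M4

set_option autoImplicit false

/-! Motivic zeta functions, at the origin, of polynomials in four variables which are nondegenerate
for the compact faces (adapted from `Y231.N4`). -/

namespace Pool.Agent.Y229.CF.Mot

open Pool.Agent.TH216.MF
open MvPolynomial
open Pool.Agent.W428.MOT Pool.Agent.W749.MT
open Pool.Agent.W375.MG (Good GB0 GB1 constr_W constr_GB1 zetaG)
open Pool.Agent.TH216.MC (b0_empty b0_rel b1_rel pos_of_ray)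
open Pool.Agent.W426.SM (gord ford IsRay face)
open Pool.Agent.W63.MTFin (mapMeas geo_sum L_mul ev C_mem X_mem)
open Pool.Agent.Y231.N4

section
variable {F : Type} [Field F] {r : ℕ}

/-- the coefficients of `x_i` and `x_k` have no common zeros, four variables -/
theorem no_common4' [CharZero F] {m : Fin r → Fin 4 → ℕ} {c : Fin r → F} {i k : Fin 4}
    (hik : i ≠ k)
    (hN : ∀ (u : Fin 4 → ℕ), (∀ i, 0 < u i) → ∀ (z : Fin 4 → F),
      (∀ i, z i ≠ 0) → gbar m c (amin m u) z = 0 → ∃ i, dgbar m c (amin m u) i z ≠ 0)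
    (u : Fin 4 → ℕ) (hu : ∀ i, 0 < u i) (τ0 τ1 τ2 : Finset (Fin r))
    (hτ : amin m u = τ0 ∪ (τ1 ∪ τ2)) (h0 : ∀ j ∈ τ0, m j i = 0 ∧ m j k = 0)
    (h1 : ∀ j ∈ τ1, m j i = 1 ∧ m j k = 0) (h2 : ∀ j ∈ τ2, m j i = 0 ∧ m j k = 1)
    (hn1 : τ1.Nonempty) (hn2 : τ2.Nonempty)
    (z : Fin 4 → F) (hz : ∀ l, l ≠ i → l ≠ k → z l ≠ 0) :
    gp m c τ1 i z ≠ 0 ∨ gp m c τ2 k z ≠ 0 := by
  classical
  by_contra hcon
  push Not at hcon
  obtain ⟨ha, hb⟩ := hcon
  obtain ⟨x, y, hxy, hxi, hxk, hyi, hyk, hall⟩ := rest i k hik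
  -- the faces
  have hlin : ∀ (a b : ℤ) (j : Fin r), ∑ l, ((if l = i then a else 0) +
      (if l = k then b else 0)) * (m j l : ℤ) = a * (m j i : ℤ) + b * (m j k : ℤ) :=
    fun a b j => sum_two i k hik a b fun l => (m j l : ℤ)
  have hmem : ∀ j, j ∈ amin m u → j ∈ τ0 ∨ j ∈ τ1 ∨ j ∈ τ2 := by
    intro j hj
    rw [hτ, Finset.mem_union, Finset.mem_union] at hj
    exact hj
  have hs1 : τ1 ⊆ amin m u := by
    rw [hτ]
    exact Finset.subset_union_left.trans Finset.subset_union_right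
  have hs2 : τ2 ⊆ amin m u := by
    rw [hτ]
    exact Finset.subset_union_right.trans Finset.subset_union_right
  have hs3 : τ1 ∪ τ2 ⊆ amin m u := Finset.union_subset hs1 hs2
  obtain ⟨u1, hu1, hu1'⟩ := sub_face m u hu
    (fun l => (if l = i then (-1 : ℤ) else 0) + (if l = k then 2 else 0)) (-1) τ1 hs1 hn1
    (fun j hj => by
      rw [hlin, (h1 j hj).1, (h1 j hj).2]
      norm_num) (fun j hj hj' => by
      rw [hlin]
      rcases hmem j hj with h | h | h
      · rw [(h0 j h).1, (h0 j h).2]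
        norm_num
      · exact absurd h hj'
      · rw [(h2 j h).1, (h2 j h).2]
        norm_num)
  obtain ⟨u2, hu2, hu2'⟩ := sub_face m u hu
    (fun l => (if l = i then (2 : ℤ) else 0) + (if l = k then -1 else 0)) (-1) τ2 hs2 hn2
    (fun j hj => by
      rw [hlin, (h2 j hj).1, (h2 j hj).2]
      norm_num) (fun j hj hj' => by
      rw [hlin]
      rcases hmem j hj with h | h | h
      · rw [(h0 j h).1, (h0 j h).2]
        norm_num
      · rw [(h1 j h).1, (h1 j h).2]
        norm_num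
      · exact absurd h hj')
  obtain ⟨u3, hu3, hu3'⟩ := sub_face m u hu
    (fun l => (if l = i then (-1 : ℤ) else 0) + (if l = k then -1 else 0)) (-1) (τ1 ∪ τ2) hs3
    (hn1.mono Finset.subset_union_left)
    (fun j hj => by
      rw [hlin]
      rcases Finset.mem_union.1 hj with h | h
      · rw [(h1 j h).1, (h1 j h).2]
        norm_num
      · rw [(h2 j h).1, (h2 j h).2]
        norm_num) (fun j hj hj' => by
      rw [hlin]
      rcases hmem j hj with h | h | h
      · rw [(h0 j h).1, (h0 j h).2]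
        norm_num
      · exact absurd (Finset.mem_union_left _ h) hj'
      · exact absurd (Finset.mem_union_right _ h) hj')
  -- the points
  set Z : F → F → Fin 4 → F := fun s t l => if l = i then s else if l = k then t else z l with hZ
  have hZi : ∀ s t, Z s t i = s := fun s t => if_pos rfl
  have hZk : ∀ s t, Z s t k = t := fun s t => by
    show (if k = i then s else if k = k then t else z k) = t
    rw [if_neg hik.symm, if_pos rfl]
  have hZo : ∀ s t l, l ≠ i → l ≠ k → Z s t l = z l := fun s t l h1 h2 => by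
    simp only [hZ]
    rw [if_neg h1, if_neg h2]
  have hZ0 : ∀ s t, s ≠ 0 → t ≠ 0 → ∀ l, Z s t l ≠ 0 := by
    intro s t hs ht l
    by_cases h1 : l = i
    · rw [h1, hZi]
      exact hs
    · by_cases h2 : l = k
      · rw [h2, hZk]
        exact ht
      · rw [hZo s t l h1 h2]
        exact hz l h1 h2
  have ga : gbar m c τ1 (Z 1 1) = 0 := by
    rw [gbar_gp m c τ1 i (fun j hj => (h1 j hj).1), gp_inv m c τ1 i k (fun j hj => (h1 j hj).2) z
      _ (hZo 1 1), ha, mul_zero]
  have gb : gbar m c τ2 (Z 1 1) = 0 := by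
    rw [gbar_gp m c τ2 k (fun j hj => (h2 j hj).2), gp_inv m c τ2 k i (fun j hj => (h2 j hj).1) z
      _ (fun l h1 h2 => hZo 1 1 l h2 h1), hb, mul_zero]
  -- the derivatives in the directions `i`, `k`
  have hT1i : TT m c τ1 i (Z 1 1) = 0 := by
    rw [← ga]
    unfold TT gbar
    refine Finset.sum_congr rfl fun j hj => ?_
    rw [(h1 j hj).1, Nat.cast_one, one_mul]
  have hT1k : TT m c τ1 k (Z 1 1) = 0 := by
    unfold TT
    refine Finset.sum_eq_zero fun j hj => ?_
    rw [(h1 j hj).2, Nat.cast_zero, zero_mul, mul_zero]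
  have hT2k : TT m c τ2 k (Z 1 1) = 0 := by
    rw [← gb]
    unfold TT gbar
    refine Finset.sum_congr rfl fun j hj => ?_
    rw [(h2 j hj).2, Nat.cast_one, one_mul]
  have hT2i : TT m c τ2 i (Z 1 1) = 0 := by
    unfold TT
    refine Finset.sum_eq_zero fun j hj => ?_
    rw [(h2 j hj).1, Nat.cast_zero, zero_mul, mul_zero]
  have hsum : ∀ g : Fin 4 → F, ∑ l, g l = g i + g k + g x + g y := by
    intro g
    have e : (Finset.univ : Finset (Fin 4)) = {i, k, x, y} := by
      ext t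
      simp only [Finset.mem_univ, Finset.mem_insert, Finset.mem_singleton, true_iff]
      exact hall t
    rw [e, Finset.sum_insert, Finset.sum_insert, Finset.sum_insert, Finset.sum_singleton]
    · ring
    · simp [hxy]
    · simp [hxk.symm, hyk.symm]
    · simp [hik, hxi.symm, hyi.symm]
  have hE1 : (u x : F) * TT m c τ1 x (Z 1 1) + (u y : F) * TT m c τ1 y (Z 1 1) = 0 := by
    have h3 := TT_euler m c τ1 u (gord m u) (fun j hj => (mem_am m u j).1 (hs1 hj)) (Z 1 1)
    rw [ga, mul_zero, hsum, hT1i, hT1k] at h3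
    linear_combination h3
  have hE2 : (u x : F) * TT m c τ2 x (Z 1 1) + (u y : F) * TT m c τ2 y (Z 1 1) = 0 := by
    have h3 := TT_euler m c τ2 u (gord m u) (fun j hj => (mem_am m u j).1 (hs2 hj)) (Z 1 1)
    rw [gb, mul_zero, hsum, hT2i, hT2k] at h3
    linear_combination h3
  have hux : (u x : F) ≠ 0 := by exact_mod_cast (hu x).ne'
  have huy : (u y : F) ≠ 0 := by exact_mod_cast (hu y).ne'
  -- the derivatives do not vanish
  have hA : TT m c τ1 x (Z 1 1) ≠ 0 := by
    intro hA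
    rw [hA, mul_zero, zero_add] at hE1
    have hAy := (mul_eq_zero.1 hE1).resolve_left huy
    have h3 := hN u1 hu1 (Z 1 1) (hZ0 1 1 one_ne_zero one_ne_zero)
    rw [hu1'] at h3
    obtain ⟨l, hl⟩ := h3 ga
    have h4 : TT m c τ1 l (Z 1 1) ≠ 0 := by
      rw [TT_eq]
      exact mul_ne_zero (hZ0 1 1 one_ne_zero one_ne_zero l) hl
    rcases hall l with rfl | rfl | rfl | rfl
    · exact h4 hT1i
    · exact h4 hT1k
    · exact h4 hA
    · exact h4 hAy
  have hB : TT m c τ2 x (Z 1 1) ≠ 0 := by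
    intro hB
    rw [hB, mul_zero, zero_add] at hE2
    have hBy := (mul_eq_zero.1 hE2).resolve_left huy
    have h3 := hN u2 hu2 (Z 1 1) (hZ0 1 1 one_ne_zero one_ne_zero)
    rw [hu2'] at h3
    obtain ⟨l, hl⟩ := h3 gb
    have h4 : TT m c τ2 l (Z 1 1) ≠ 0 := by
      rw [TT_eq]
      exact mul_ne_zero (hZ0 1 1 one_ne_zero one_ne_zero l) hl
    rcases hall l with rfl | rfl | rfl | rfl
    · exact h4 hT2i
    · exact h4 hT2k
    · exact h4 hB
    · exact h4 hBy
  -- the point
  set A := TT m c τ1 x (Z 1 1) with hAd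
  set B := TT m c τ2 x (Z 1 1) with hBd
  have hd : Disjoint τ1 τ2 := by
    rw [Finset.disjoint_left]
    intro j hj hj'
    have a1 := h1 j hj
    have a2 := h2 j hj'
    omega
  have hsc1 : ∀ l, TT m c τ1 l (Z B (-A)) = B * TT m c τ1 l (Z 1 1) := by
    intro l
    have := TT_scale m c τ1 i k l (fun j hj => (h1 j hj).1) (fun j hj => (h1 j hj).2) (Z 1 1)
      (Z B (-A)) (fun l h3 h4 => by rw [hZo _ _ l h3 h4, hZo _ _ l h3 h4]) (hZi 1 1)
    rw [hZi] at this
    exact this
  have hsc2 : ∀ l, TT m c τ2 l (Z B (-A)) = -A * TT m c τ2 l (Z 1 1) := by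
    intro l
    have := TT_scale m c τ2 k i l (fun j hj => (h2 j hj).2) (fun j hj => (h2 j hj).1) (Z 1 1)
      (Z B (-A)) (fun l h3 h4 => by rw [hZo _ _ l h4 h3, hZo _ _ l h4 h3]) (hZk 1 1)
    rw [hZk] at this
    exact this
  have hgb : gbar m c (τ1 ∪ τ2) (Z B (-A)) = 0 := by
    have e1 : gbar m c (τ1 ∪ τ2) (Z B (-A)) = gbar m c τ1 (Z B (-A)) + gbar m c τ2 (Z B (-A)) := by
      unfold gbar
      exact Finset.sum_union hd
    rw [e1, gbar_gp m c τ1 i (fun j hj => (h1 j hj).1), gbar_gp m c τ2 k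
      (fun j hj => (h2 j hj).2), gp_inv m c τ1 i k (fun j hj => (h1 j hj).2) z _ (hZo _ _),
      gp_inv m c τ2 k i (fun j hj => (h2 j hj).1) z _ (fun l h1 h2 => hZo _ _ l h2 h1), ha, hb]
    ring
  have h3 := hN u3 hu3 (Z B (-A)) (hZ0 _ _ hB (neg_ne_zero.2 hA))
  rw [hu3'] at h3
  obtain ⟨l, hl⟩ := h3 hgb
  have h4 : TT m c (τ1 ∪ τ2) l (Z B (-A)) ≠ 0 := by
    rw [TT_eq]
    exact mul_ne_zero (hZ0 _ _ hB (neg_ne_zero.2 hA) l) hl
  have h5 : TT m c (τ1 ∪ τ2) l (Z B (-A)) =
      B * TT m c τ1 l (Z 1 1) - A * TT m c τ2 l (Z 1 1) := by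
    have e1 : TT m c (τ1 ∪ τ2) l (Z B (-A)) = TT m c τ1 l (Z B (-A)) + TT m c τ2 l (Z B (-A)) := by
      unfold TT
      exact Finset.sum_union hd
    rw [e1, hsc1, hsc2]
    ring
  rw [h5] at h4
  rcases hall l with rfl | rfl | rfl | rfl
  · exact h4 (by rw [hT1i, hT2i]; ring)
  · exact h4 (by rw [hT1k, hT2k]; ring)
  · exact h4 (by rw [← hAd, ← hBd]; ring)
  · apply h4
    have h6 : (u l : F) * (B * TT m c τ1 l (Z 1 1) - A * TT m c τ2 l (Z 1 1)) = 0 := by
      linear_combination B * hE1 - A * hE2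
    exact (mul_eq_zero.1 h6).resolve_left huy

end

/-- the classes satisfy the relations -/
theorem clR_b1' (hFree : S_Free) (hSub : S_Sub) {K : Type} [Field K] [CharZero K] {r : ℕ}
    {R : Type} [CommRing R] (M : Meas K R) (u : Rˣ) (hML : M.L = (u : R))
    (m : Fin r → Fin 4 → ℕ) (c : Fin r → K) (hNon : NonGJ Finset.univ m c) (hc : ∀ j, c j ≠ 0)
    {W : Set (Pt K (Fin 4))} (hW : Constr W)
    {E : Set (AlgebraicClosure K)} (hE : Good E) :
    ClR u m (M.χ _ (GB1 0 m c 1 W E Finset.univ ∅))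
      (fun τ => M.χ _ (GB1 0 m c 1 W E Finset.univ τ)) := by
  have hK : CharZero (AlgebraicClosure K) :=
    charZero_of_injective_algebraMap (algebraMap K (AlgebraicClosure K)).injective
  refine ⟨fun i j0 hj0 τ hτ => ?_, fun i k hik τ0 τ1 τ2 t0 t1 t2 hn1 hn2 hx => ?_⟩
  · rw [← hML]
    exact b1_rel hFree hSub M m c hc hW hE Finset.univ i (Finset.mem_univ i) j0 hj0 τ hτ
  · obtain ⟨x, hx, hxτ⟩ := hx
    rw [← hML]
    exact b1_two hFree hSub M m c hW hE Finset.univ i k (Finset.mem_univ i) (Finset.mem_univ k)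
      hik τ0 τ1 τ2 t0 t1 t2 hn1 hn2 (no_common4' hik
        (fun u hu z hz h0 => hNon u (fun i _ => (hu i).ne') z (fun i _ => hz i) h0) x hx τ0 τ1 τ2 hxτ t0 t1 t2 hn1 hn2)

/-- the classes satisfy the relations -/
theorem clR_b0' (hFree : S_Free) (hSub : S_Sub) {K : Type} [Field K] [CharZero K] {r : ℕ}
    {R : Type} [CommRing R] (M : Meas K R) (u : Rˣ) (hML : M.L = (u : R))
    (m : Fin r → Fin 4 → ℕ) (c : Fin r → K) (hNon : NonGJ Finset.univ m c) (hc : ∀ j, c j ≠ 0)
    {W : Set (Pt K (Fin 4))} (hW : Constr W)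
    {E : Set (AlgebraicClosure K)} (hE : Good E) :
    ClR u m (M.χ _ (GB1 0 m c 1 W E Finset.univ ∅))
      (fun τ => M.χ _ (GB0 0 m c 1 W E Finset.univ τ)) := by
  have hK : CharZero (AlgebraicClosure K) :=
    charZero_of_injective_algebraMap (algebraMap K (AlgebraicClosure K)).injective
  refine ⟨fun i j0 hj0 τ hτ => ?_, fun i k hik τ0 τ1 τ2 t0 t1 t2 hn1 hn2 hx => ?_⟩
  · rw [← hML]
    exact b0_rel hFree hSub M m c hc hW hE Finset.univ i (Finset.mem_univ i) j0 hj0 τ hτ
  · obtain ⟨x, hx, hxτ⟩ := hx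
    rw [← hML]
    exact b0_two hFree hSub M m c hW hE Finset.univ i k (Finset.mem_univ i) (Finset.mem_univ k)
      hik τ0 τ1 τ2 t0 t1 t2 hn1 hn2 (no_common4' hik
        (fun u hu z hz h0 => hNon u (fun i _ => (hu i).ne') z (fun i _ => hz i) h0) x hx τ0 τ1 τ2 hxτ t0 t1 t2 hn1 hn2)

/-- **Motivic zeta functions of a nondegenerate polynomial in four variables, origins at `0`.** -/
theorem fin4' {r : ℕ} (m : Fin r → Fin 4 → ℕ) (hm : Function.Injective m) (hr0 : 0 < r)
    (Bad : ℚ → Prop)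
    (hB : ∀ q : ℕ, 2 ≤ q → ∀ e : Finset (Fin r) → ℂ,
      KRelJ q m Finset.univ e → KRelB q m e → ∀ T0 : ℂ, T0 ≠ 0 → ∀ σ : ℚ, Bad σ →
      Real.log ‖T0‖ / Real.log q = (σ : ℝ) → RecJ q m e Finset.univ T0) :
    ∃ S : Finset (ℤ × ℤ),
      (∀ p ∈ S, ∃ a : Fin 4 → ℕ, IsRay m a ∧ 0 < gord m a ∧
        ¬ Bad (((∑ i, a i : ℕ) : ℚ) / gord m a) ∧
        p = (-((∑ i, a i : ℕ) : ℤ), (gord m a : ℤ))) ∧
      ∀ (K : Type) [Field K] [CharZero K] (c : Fin r → K), NonGJ Finset.univ m c → (∀ j, c j ≠ 0) →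
      ∀ (W : Set (Pt K (Fin 4))) (E : Set (AlgebraicClosure K)), Constr W → Good E →
        (∀ z ∈ W, ∀ i, z i = 0) →
        zetaG (sp 0 m c 1) W E * (1 - PowerSeries.C (((Lu K)⁻¹ : (MK K)ˣ) : MK K) *
          PowerSeries.X) ∈ ratRing K S := by
  classical
  have h1 : S_K0 := Pool.Agent.W417.MT.K0.main
  have h5 : S_CP1 := Pool.Agent.W346.MTCp1.main
  have hFree : S_Free := Pool.Agent.W417.MT.Free.main
  have hSub : S_Sub := Pool.Agent.W21.MTSub.main
  have hTay : S_Tay := Pool.Agent.W417.MT.Tay.main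
  obtain ⟨l, hl, hG⟩ := formalP hr0 m Finset.univ Bad (pB m) (fun κ => polS_pB κ)
    (fun q hq κ T0 hT0 σ hσ hlog => hB q hq _ (krelJ_pB q hq κ) (krelB_pB hm q hq κ) T0 hT0 σ hσ
      hlog)
  set S : Finset (ℤ × ℤ) := l.toFinset.image fun a => (-((∑ i, a i : ℕ) : ℤ), (gord m a : ℤ))
    with hS
  have hS2 : ∀ a ∈ l, (-((∑ i, a i : ℕ) : ℤ), (gord m a : ℤ)) ∈ S :=
    fun a ha => Finset.mem_image.2 ⟨a, List.mem_toFinset.2 ha, rfl⟩
  refine ⟨S, fun p hp => ?_, ?_⟩
  · obtain ⟨a, ha, rfl⟩ := Finset.mem_image.1 hp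
    obtain ⟨ha1, ha2, ha3⟩ := hl a (List.mem_toFinset.1 ha)
    exact ⟨a, ha1, ha2, ha3, rfl⟩
  · intro K _ _ c hNon hc W E hW hE hWD
    obtain ⟨M₀, hM₀⟩ := h1 K
    set M := mapMeas M₀ (algebraMap (K0 K) (MK K)) with hM
    set Y : MK K := (((Lu K)⁻¹ : (MK K)ˣ) : MK K) with hY
    have hL : M.L * Y = 1 := L_mul hM₀
    have hML : M.L = ((Lu K : (MK K)ˣ) : MK K) := by
      have h2 : ((Lu K : (MK K)ˣ) : MK K) * Y = 1 := Units.mul_inv _
      calc M.L = M.L * (((Lu K : (MK K)ˣ) : MK K) * Y) := by rw [h2, mul_one]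
        _ = (M.L * Y) * ((Lu K : (MK K)ˣ) : MK K) := by ring
        _ = _ := by rw [hL, one_mul]
    have hsum := sum' hFree hSub hTay M 0 m c 1 hW hE Finset.univ hNon (fun z hz i _ => hWD z hz i)
      one_pos Y hL
    -- the series
    set C : Finset (Fin 4) → Finset (Fin r) → PowerSeries (MK K) := fun J τ =>
      PowerSeries.map (evR (Lu K)) (cser m J τ) with hCdef
    have hCc : ∀ J τ N, PowerSeries.coeff N (C J τ) =
        Polynomial.eval₂ (Int.castRingHom (MK K)) Y (cp 0 m 1 J τ N N) := fun J τ N => by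
      simp only [hCdef, cser]
      rw [PowerSeries.coeff_map, PowerSeries.coeff_mk]
      rfl
    set D : Finset (Fin 4) → Finset (Fin r) → PowerSeries (MK K) := fun J τ =>
      PowerSeries.mk fun N => ∑ l ∈ Finset.Icc 1 N,
        if 1 * l ≤ N then Y ^ l * PowerSeries.coeff (N - 1 * l) (C J τ) else 0
      with hDdef
    have hD : ∀ J τ, D J τ = PowerSeries.C Y * PowerSeries.X * C J τ * geoR (Lu K) (-1) 1 := by
      intro J τ
      have h6 := geo_sum Y (fun N => PowerSeries.coeff N (C J τ)) 1 one_pos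
      have h7 := geoR_mul (Lu K) (-1) 1 one_pos
      rw [show (1 : ℤ).toNat = 1 from rfl, zpow_neg_one] at h7
      have h9 : PowerSeries.mk (fun N => PowerSeries.coeff N (C J τ)) = C J τ := by
        ext N
        rw [PowerSeries.coeff_mk]
      rw [h9] at h6
      have h10 : D J τ * ((1 - PowerSeries.C Y * PowerSeries.X ^ 1) * geoR (Lu K) (-1) 1) =
          PowerSeries.C Y * PowerSeries.X ^ 1 * C J τ * geoR (Lu K) (-1) 1 := by
        rw [← h6, mul_assoc]
      rw [h7, mul_one, pow_one] at h10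
      exact h10
    set b0 : Finset (Fin 4) → Finset (Fin r) → MK K := fun J τ => M.χ _ (GB0 0 m c 1 W E J τ)
      with hb0
    set b1 : Finset (Fin 4) → Finset (Fin r) → MK K := fun J τ => M.χ _ (GB1 0 m c 1 W E J τ)
      with hb1
    -- only the points of `W`
    have hb0z : ∀ J : Finset (Fin 4), J ≠ Finset.univ → ∀ τ, b0 J τ = 0 := by
      intro J hJ τ
      have h6 : GB0 0 m c 1 W E J τ = ∅ := by
        ext z
        simp only [GB0, Set.mem_ofPred_eq, Set.mem_empty_iff_false, iff_false]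
        rintro ⟨h7, h8, -⟩
        apply hJ
        rw [Finset.eq_univ_iff_forall]
        intro i
        by_contra hi'
        have h9 := hWD _ h7 i
        simp only [if_neg hi'] at h9
        exact h8 i h9
      simp only [hb0]
      rw [h6, χ_empty]
    have hb1z : ∀ J : Finset (Fin 4), J ≠ Finset.univ → ∀ τ, b1 J τ = 0 := by
      intro J hJ τ
      have h6 : GB1 0 m c 1 W E J τ = ∅ := by
        ext z
        simp only [GB1, Set.mem_ofPred_eq, Set.mem_empty_iff_false, iff_false]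
        rintro ⟨h7, h8, -⟩
        apply hJ
        rw [Finset.eq_univ_iff_forall]
        intro i
        by_contra hi'
        have h9 := hWD _ h7 i
        simp only [if_neg hi'] at h9
        exact h8 i h9
      simp only [hb1]
      rw [h6, χ_empty]
    set F : PowerSeries (MK K) := ∑ J : Finset (Fin 4), FR (Lu K) m J (b0 J) (b1 J) with hF
    have hFmem : F * (1 - PowerSeries.C Y * PowerSeries.X) ∈ ratRing K S := by
      rw [hF, Finset.sum_mul]
      refine (ratRing K S).sum_mem fun J _ => ?_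
      by_cases hJ : J = Finset.univ
      · subst hJ
        refine inRatP (Lu K) m Finset.univ l (fun a ha => ⟨(hl a ha).2.1, hS2 a ha⟩) (pB m)
          (fun κ => polS_pB κ) (fun κ => pB_empty κ) hG
          (M.χ _ (GB1 0 m c 1 W E Finset.univ ∅)) (Fc m) (fun τ h => cser_zero4 m τ h)
          (b0 Finset.univ) (b1 Finset.univ) (b0_empty M m c hE Finset.univ) rfl ?_ ?_
        · intro τ hτ
          exact decomp4 (Lu K) m _ _ (clR_b0' hFree hSub M (Lu K) hML m c hNon hc hW hE) τ hτ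
        · intro τ hτ
          exact decomp4 (Lu K) m _ _ (clR_b1' hFree hSub M (Lu K) hML m c hNon hc hW hE) τ hτ
      · have h6 : FR (Lu K) m J (b0 J) (b1 J) = 0 := by
          unfold FR
          refine Finset.sum_eq_zero fun τ _ => ?_
          rw [hb0z J hJ, hb1z J hJ]
          simp
        rw [h6, zero_mul]
        exact (ratRing K S).zero_mem
    have hz : zetaG (sp 0 m c 1) W E =
        F - PowerSeries.C (PowerSeries.coeff 0 F) + PowerSeries.C (PowerSeries.coeff 0
          (zetaG (sp 0 m c 1) W E)) := by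
      ext N
      by_cases hN : N = 0
      · subst hN
        rw [map_add, map_sub, PowerSeries.coeff_C, if_pos rfl, PowerSeries.coeff_C, if_pos rfl,
          sub_self, zero_add]
      · rw [map_add, map_sub, PowerSeries.coeff_C, if_neg hN, PowerSeries.coeff_C, if_neg hN,
          sub_zero, add_zero, zetaG, PowerSeries.coeff_mk]
        have h6 := hsum N (by omega)
        have h7 : algebraMap (K0 K) (MK K) (cls (Fin 4 × Fin (N + 1))
            (Pool.Agent.W375.MG.JetG (sp 0 m c 1) W E N)) *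
            (((Lu K) ^ (-((4 * N : ℕ) : ℤ)) : (MK K)ˣ) : MK K) =
            M.χ _ (Pool.Agent.W375.MG.JetG (sp 0 m c 1) W E N) * Y ^ (4 * N) := by
          rw [zpow_neg, zpow_natCast, ← inv_pow, Units.val_pow_eq_pow_val, ← hM₀]
          rfl
        rw [h7, h6, hF, map_sum]
        refine Finset.sum_congr rfl fun J _ => ?_
        unfold FR
        rw [map_sum]
        refine Finset.sum_congr rfl fun τ _ => ?_
        change _ = PowerSeries.coeff N (PowerSeries.C (((Lu K : (MK K)ˣ) : MK K) ^ frc m J τ) *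
          (PowerSeries.C (b0 J τ) * C J τ + PowerSeries.C (b1 J τ) *
            (PowerSeries.C Y * PowerSeries.X * C J τ * geoR (Lu K) (-1) 1)))
        rw [← hD, ← hML, PowerSeries.coeff_C_mul, map_add, PowerSeries.coeff_C_mul,
          PowerSeries.coeff_C_mul, hCc, hDdef, PowerSeries.coeff_mk, Finset.mul_sum]
        congr 2
        refine Finset.sum_congr rfl fun i _ => ?_
        split_ifs with hi
        · rw [hCc, h5 0 m 1 J τ hr0 one_pos N (N - 1 * i) (Nat.sub_le _ _), mul_assoc]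
        · rw [mul_zero]
    rw [hz, add_mul, sub_mul]
    have hYX : (1 - PowerSeries.C Y * PowerSeries.X : PowerSeries (MK K)) ∈ ratRing K S :=
      (ratRing K S).sub_mem (ratRing K S).one_mem
        ((ratRing K S).mul_mem (C_mem _ _) (X_mem _))
    exact (ratRing K S).add_mem ((ratRing K S).sub_mem hFmem
      ((ratRing K S).mul_mem (C_mem _ _) hYX)) ((ratRing K S).mul_mem (C_mem _ _) hYX)


end Pool.Agent.Y229.CF.Mot
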