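import Pool.Agent.Y229.CF.MotX
import Pool.Agent.Y229.CF.N4A
import Pool.Agent.Y229.N4W2

set_option autoImplicit false

/-! The motivic zeta function at the origin of a polynomial in four variables which is nondegenerate
for the compact faces (adapted from `Y229.N4W2`). -/

namespace Pool.Agent.Y229.CF

open MvPolynomial Pool.Agent.H628R4.TP Pool.Agent.W425.MM Pool.Agent.Y231.N4
open Pool.Agent.W425.ND (spa Nondeg prodb prodb_eval parts)
open Pool.Agent.W426.SM (gord IsRay face)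
open Pool.Agent.W425.BF (B1)
open Pool.Agent.W425.SV (RelV Kil1)
open Pool.Agent.W425.SG (UnitEq)
open Pool.Agent.TH216.HD (Spans Nondegenerate)
open Pool.Agent.TH216.MF (RelG KilU KRelJ RecJ krelJ_phi SimR aJ)
open Pool.Agent.TH216.MC (pos_of_ray)
open Pool.Agent.TH216.LX (InN aJ_phiN Vert)
open Pool.Agent.TH216.ND
open Pool.Agent.W428.MOT (Pt Constr ratRing sp Lu MK)
open Pool.Agent.W375.MG (zetaG Good)
open Pool.Agent.Y229.N4W

variable {r N : ℕ}

/-- a root of `b` modulo integers, from a certificate -/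
lemma root_of' (v : Fin r → Fin N → ℕ) (b : Polynomial ℂ) (K L : ℕ)
    (hK : ∀ θ : Fin r → ℝ, LinearIndependent ℚ θ → RelV v θ True (prodb b K * dL L))
    (a : Fin N → ℕ) (hg : 0 < gord v a)
    (h : ∃ θ : Fin r → ℝ, LinearIndependent ℚ θ ∧
      ∀ p : Polynomial ℂ, RelV v θ True p →
        p.eval (-(((∑ i, a i : ℕ) : ℂ) / gord v a)) = 0) :
    ∃ i : ℤ, b.eval (-(((∑ i, a i : ℕ) : ℂ) / gord v a) - i) = 0 := by
  obtain ⟨θ, hθ, h1⟩ := h
  have h2 := h1 _ (hK θ hθ)
  rw [Polynomial.eval_mul, mul_eq_zero] at h2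
  have h2 := h2.resolve_right (dL_neg v a L hg)
  rw [prodb_eval, Finset.prod_eq_zero_iff] at h2
  obtain ⟨i, -, hi⟩ := h2
  exact ⟨i, by exact_mod_cast hi⟩

/-- **Nondegenerate polynomials in four variables, at the origin.** -/
theorem nd_four' {k : Type} [Field k] [Algebra k ℂ] (hr : 0 < r)
    (v : Fin r → Fin 4 → ℕ) (hv : Function.Injective v) (hv0 : ∀ j, v j ≠ 0) (c : Fin r → k)
    (hc : ∀ j, c j ≠ 0) (hnd : NondegC v (fun j => algebraMap k ℂ (c j))) :
    ∃ S : Finset (ℤ × ℤ),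
      (∀ p ∈ S, p.1 < 0 ∧ 0 < p.2 ∧ ∀ b : Polynomial ℂ, b.eval (-1) = 0 →
        UnitEq True (spa v (fun j => algebraMap k ℂ (c j))) b →
          ∃ i : ℤ, b.eval ((p.1 : ℂ) / p.2 - i) = 0) ∧
      (∀ (K : Type) [Field K] [Algebra k K] (W : Set (Pt K (Fin 4)))
        (E : Set (AlgebraicClosure K)), Constr W → Good E → (∀ z ∈ W, ∀ i, z i = 0) →
        zetaG (spa v (fun j => algebraMap k K (c j))) W E ∈ ratRing K S) := by
  classical
  have hne : NeZero r := ⟨by omega⟩
  have hkc : CharZero k := RingHom.charZero (algebraMap k ℂ)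
  obtain ⟨V, hV, hVert⟩ := exists_vert v
  have hcard := (gord_vV hr v V hV 0).1
  have hSub := sub_vV v V hV
  set P : ℚ → Prop := PW True (spa v (fun j => algebraMap k ℂ (c j))) with hPdef
  have hP : ∀ α, ¬ P α → ∃ (θ : Fin V.card → ℤ) (p : Polynomial ℂ),
      RelG (vV v V) (Kil1 (vV v V)) (KilU (vV v V) θ) p ∧ p.eval (α : ℂ) ≠ 0 := by
    intro α hα
    rw [hPdef] at hα
    unfold PW at hα
    push Not at hα
    obtain ⟨b, hb1, hb, hroot⟩ := hα
    obtain ⟨K, L, hK⟩ := relV_all v _ hv hv0 hnd b hb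
    obtain ⟨θ, hθ⟩ := rel_vV v V hV True (prodb b K * dL L) hK
    refine ⟨θ, prodb b K * dL L, hθ, ?_⟩
    rw [Polynomial.eval_mul, prodb_eval]
    refine mul_ne_zero (Finset.prod_ne_zero_iff.2 fun i _ => ?_) (dL_ne _ _ fun t ht => ?_)
    · exact_mod_cast hroot (i : ℤ)
    · apply hroot ((t : ℤ) + 1)
      rw [← hb1]
      congr 1
      have h1 : (α : ℂ) = t := ht
      rw [h1]
      push_cast
      ring
  obtain ⟨S, hS, hz1⟩ := Mot.fin4' v hv hr (fun σ => HypS4 (vV v V) (σ : ℝ) ∧ ¬ P (-σ))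
    (fun q hq e he he' T0 hT0 σ hσ hlog => hb_nd4 hr v hv V hV P hP q hq e he he' T0 hT0 σ hσ
      hlog)
  have hspa : ∀ {K : Type} [Field K] (c' : Fin r → K), spa v c' = sp 0 v c' 1 := by
    intro K _ c'
    unfold sp spa
    simp
  refine ⟨insert (-1, 1) S, fun p hp => ?_, fun K _ _ W E hW hE hWD => ?_⟩
  · rcases Finset.mem_insert.1 hp with rfl | hp
    · refine ⟨by norm_num, by norm_num, fun b hb _ => ⟨0, ?_⟩⟩
      have h1 : (((-1 : ℤ) : ℂ) / ((1 : ℤ) : ℂ) - ((0 : ℤ) : ℂ)) = -1 := by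
        push_cast
        ring
      rw [h1, hb]
    obtain ⟨a, ha, hg, hn, rfl⟩ := hS p hp
    refine ⟨pos_of_ray ha, Int.natCast_pos.2 hg, fun b hb hU => ?_⟩
    have hgC : ((gord v a : ℕ) : ℂ) ≠ 0 := by exact_mod_cast hg.ne'
    have hgQ : ((gord v a : ℕ) : ℚ) ≠ 0 := by exact_mod_cast hg.ne'
    set σ : ℚ := ((∑ i, a i : ℕ) : ℚ) / gord v a with hσ
    have e : ((-((∑ i, a i : ℕ) : ℤ) : ℤ) : ℂ) / ((gord v a : ℤ) : ℂ) = ((-σ : ℚ) : ℂ) := by
      rw [hσ]
      push_cast
      ring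
    rw [e]
    -- integers
    have hint : ∀ t : ℕ, σ = t → ∃ i : ℤ, b.eval (((-σ : ℚ) : ℂ) - i) = 0 := by
      intro t ht
      refine ⟨-(t : ℤ) + 1, ?_⟩
      have h1 : (((-σ : ℚ) : ℂ) - ((-(t : ℤ) + 1 : ℤ) : ℂ)) = -1 := by
        rw [ht]
        push_cast
        ring
      rw [h1, hb]
    obtain ⟨K, L, hK⟩ := relV_all v _ hv hv0 hnd b hU
    have hR1 := fun (a : Fin 4 → ℕ) => stR1 v a
    by_cases hσ1 : σ = 1
    · exact hint 1 (by rw [hσ1, Nat.cast_one])
    by_cases hσ2 : σ = 2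
    · exact hint 2 (by rw [hσ2]; norm_num)
    by_contra hcon
    -- the certificates
    have hcert : ∀ a' : Fin 4 → ℕ, 0 < gord v a' → ((∑ i, a' i : ℕ) : ℚ) / gord v a' = σ →
        ¬ ∃ i : ℤ, b.eval (-(((∑ i, a' i : ℕ) : ℂ) / gord v a') - i) = 0 := by
      rintro a' hg' hl ⟨i, hi⟩
      apply hcon
      refine ⟨i, ?_⟩
      rw [← hi, ← hl]
      congr 1
      push_cast
      ring
    have hyp : HypS4 (vV v V) (σ : ℝ) := by
      refine AZ.main (vV v V) hcard hVert (σ : ℝ) (by exact_mod_cast hσ1) (by exact_mod_cast hσ2)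
        fun a' ha' hg' hl => ?_
      have hgg : gord (vV v V) a' = gord v a' := (gord_vV hr v V hV a').2
      have hgq' : ((gord (vV v V) a' : ℕ) : ℚ) ≠ 0 := by exact_mod_cast hg'.ne'
      have hl' : ((∑ i, a' i : ℕ) : ℚ) / gord (vV v V) a' = σ := by
        apply Rat.cast_injective (α := ℝ)
        push_cast
        push_cast at hl
        exact hl
      have h3 : ∑ i, a' i ≠ gord (vV v V) a' := by
        intro h3
        apply hσ1
        rw [← hl', h3, div_self hgq']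
      have h4 : ∑ i, a' i ≠ 2 * gord (vV v V) a' := by
        intro h4
        apply hσ2
        rw [← hl', h4]
        push_cast
        rw [mul_div_assoc, div_self hgq', mul_one]
      have hc' := hcert a' (hgg ▸ hg') (hgg ▸ hl')
      rcases fac (vV v V) hcard hVert a' ha' hg' h3 h4 with h5 | h5 | h5 | h5
      · exfalso
        apply hc'
        have h6 := a5 v True (prodb b K * dL L) hK a' (hgg ▸ hg') (nonB_sub hcard hSub h5)
        rw [Polynomial.eval_mul, mul_eq_zero] at h6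
        have h6 := h6.resolve_right (dL_neg v a' L (hgg ▸ hg'))
        rw [prodb_eval, Finset.prod_eq_zero_iff] at h6
        obtain ⟨i, -, hi⟩ := h6
        exact ⟨i, by exact_mod_cast hi⟩
      · exfalso
        apply hc'
        exact root_of' v b K L hK a' (hgg ▸ hg') (stR1 v a' (hgg ▸ hg') (circ_sub hcard hSub h5))
      · exfalso
        apply hc'
        exact root_of' v b K L hK a' (hgg ▸ hg') (stR2 v a' (hgg ▸ hg') (pnt_sub hcard hSub h5))
      · exact h5
    have h1 : P (-σ) := by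
      by_contra hcon2
      exact hn ⟨hyp, hcon2⟩
    exact hcon (h1 b hb hU)
  · have hK : CharZero K := charZero_of_injective_algebraMap (algebraMap k K).injective
    rw [hspa]
    exact Pool.Agent.TH216.LX.mem_insert_ring S _ (hz1 K _
      (nonG_of' k K v c hr hnd)
      (fun j => (map_ne_zero _).2 (hc j)) W E hW hE hWD)


end Pool.Agent.Y229.CF
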