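import Pool.Agent.Y229.CF.CayC

set_option autoImplicit false

/-! Ideals which are nondegenerate for the compact faces, at the origin, weak form (adapted from
`Y229.NI1`). -/

namespace Pool.Agent.Y229.CF

open MvPolynomial Pool.Agent.W425.MM Pool.Agent.Y229
open Pool.Agent.W428.MOT Pool.Agent.W749.JI
open Pool.Agent.W425.ND (spa Nondeg prodb prodb_eval parts)
open Pool.Agent.W425.SG (UnitEq)
open Pool.Agent.W426.SM (gord face)
open Pool.Agent.W425.SV (Kil1)
open Pool.Agent.TH216.MF (RelG KilU)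
open Pool.Agent.TH216.MC (pos_of_ray)
open Pool.Agent.W375.MG (good_one)
open Pool.Agent.TH216.ND
open Pool.Agent.TH216.ID
open Pool.Agent.TH216.HD
open Pool.Agent.TH216.HDNL

variable {ℓ r n : ℕ}

/-- the compact faces suffice for arcs with `x`-part at the origin -/
theorem nonGJ_Dx {K : Type} [Field K] (hℓ : 0 < ℓ) (π : Fin ℓ → Fin r) (m : Fin ℓ → Fin n → ℕ)
    (c : Fin ℓ → K) (h : Mot.NonGJ Finset.univ (cay π m) c) :
    Mot.NonGJ (Dx n r) (cay π m) c := by
  classical
  intro u hu z hz h0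
  set u' : Fin (n + r) → ℕ := Fin.append (fun i => u (Fin.castAdd r i))
    (fun i => u (Fin.natAdd n i) + 1) with hu'
  have hs : ∀ j, ∑ i, u' i * cay π m j i = ∑ i, u i * cay π m j i + 1 := by
    intro j
    rw [Fin.sum_univ_add, Fin.sum_univ_add]
    have e1 : ∑ i : Fin n, u' (Fin.castAdd r i) * cay π m j (Fin.castAdd r i) =
        ∑ i : Fin n, u (Fin.castAdd r i) * cay π m j (Fin.castAdd r i) := by
      refine Finset.sum_congr rfl fun i _ => ?_
      rw [hu', Fin.append_left]
    have e2 : ∑ i : Fin r, u' (Fin.natAdd n i) * cay π m j (Fin.natAdd n i) =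
        ∑ i : Fin r, u (Fin.natAdd n i) * cay π m j (Fin.natAdd n i) + 1 := by
      have e3 : ∀ i : Fin r, u' (Fin.natAdd n i) * cay π m j (Fin.natAdd n i) =
          u (Fin.natAdd n i) * cay π m j (Fin.natAdd n i) + (if π j = i then 1 else 0) := by
        intro i
        rw [hu', Fin.append_right, Pool.Agent.W150.NI.cay_r]
        split_ifs <;> ring
      rw [Finset.sum_congr rfl fun i _ => e3 i, Finset.sum_add_distrib]
      simp
    rw [e1, e2]
    ring
  have hg : gord (cay π m) u' = gord (cay π m) u + 1 := by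
    obtain ⟨j, hj⟩ := Pool.Agent.W803.SM.exists_gord hℓ (cay π m) u
    obtain ⟨j', hj'⟩ := Pool.Agent.W803.SM.exists_gord hℓ (cay π m) u'
    have h1 := Pool.Agent.W803.SM.gord_le (cay π m) u' j
    have h2 := Pool.Agent.W803.SM.gord_le (cay π m) u j'
    have h3 := hs j
    have h4 := hs j'
    omega
  have ha : amin (cay π m) u' = amin (cay π m) u := by
    ext j
    unfold amin
    simp only [Finset.mem_filter, Finset.mem_univ, true_and]
    have h3 := hs j
    constructor
    · intro h5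
      have h6 : ∑ i, u' i * cay π m j i = gord (cay π m) u' := h5
      show ∑ i, u i * cay π m j i = gord (cay π m) u
      omega
    · intro h5
      have h6 : ∑ i, u i * cay π m j i = gord (cay π m) u := h5
      show ∑ i, u' i * cay π m j i = gord (cay π m) u'
      omega
  have h1 := h u' (fun i _ => ?_) z
  · rw [ha] at h1
    exact h1 hz h0
  · induction i using Fin.addCases with
    | left x =>
      rw [hu', Fin.append_left]
      exact hu _ (by unfold Dx; simp)
    | right x =>
      rw [hu', Fin.append_right]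
      exact Nat.succ_ne_zero _

theorem rel_ndX' {N k : ℕ} (hr : 0 < k) (v : Fin k → Fin N → ℕ) (hv : Function.Injective v)
    (hv0 : ∀ j, v j ≠ 0) (a : Fin k → ℂ) (hnd : NondegC v a) (V : Finset (Fin k)) (hV : Spans v V) (α : ℚ)
    (hα : ¬ PWI (spa v a) α) :
    ∃ (θ : Fin V.card → ℤ) (p : Polynomial ℂ),
      RelG (vV v V) (Kil1 (vV v V)) (KilU (vV v V) θ) p ∧ p.eval (α : ℂ) ≠ 0 := by
  have hne : NeZero k := ⟨by omega⟩
  unfold PWI at hα
  push Not at hα
  obtain ⟨hint, b, hb, hroot⟩ := hα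
  obtain ⟨K, L, hK⟩ := relV_all v a hv hv0 hnd _ hb
  obtain ⟨θ, hθ⟩ := rel_vV v V hV True (prodb _ K * dL L) hK
  refine ⟨θ, prodb _ K * dL L, hθ, ?_⟩
  rw [Polynomial.eval_mul, prodb_eval]
  refine mul_ne_zero (Finset.prod_ne_zero_iff.2 fun i _ => ?_) (dL_ne _ _ fun t ht => ?_)
  swap
  · apply hint t
    exact_mod_cast ht
  rw [Polynomial.eval_mul]
  refine mul_ne_zero ?_ (by exact_mod_cast hroot (i : ℤ))
  intro h0
  apply hint ((i : ℤ) - 1)
  have h1 : ((α - ((i : ℤ) - 1 : ℤ) : ℚ) : ℂ) = ((0 : ℚ) : ℂ) := by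
    simp only [Polynomial.eval_add, Polynomial.eval_X, Polynomial.eval_one] at h0
    push_cast
    linear_combination h0
  have h2 : α - ((i : ℤ) - 1 : ℤ) = 0 := by exact_mod_cast h1
  linarith

/-- **Nondegenerate ideals, at the origin: conditions on the vertices.** -/
theorem nd_idealX' {k : Type} [Field k] [Algebra k ℂ] (hℓ : 0 < ℓ) (π : Fin ℓ → Fin r)
    (m : Fin ℓ → Fin n → ℕ) (hinj : ∀ j j', π j = π j' → m j = m j' → j = j')
    (c : Fin ℓ → k) (hc : ∀ j, c j ≠ 0)
    (hnd : NondegIC π m (fun j => algebraMap k ℂ (c j))) (V : Finset (Fin ℓ))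
    (hV : SpansI π m V) (hL : HypVIL (cay π m) V) :
    ∃ S : Finset (ℤ × ℤ),
      (∀ p ∈ S, p.1 < 0 ∧ 0 < p.2 ∧ (p.2 ∣ p.1 ∨ ∀ b : Polynomial ℂ,
        IsLocalBIdeal (fam π m (fun j => algebraMap k ℂ (c j))) b →
          ∃ i : ℤ, b.eval ((p.1 : ℂ) / p.2 - i) = 0)) ∧
      ∀ (K : Type) [Field K] [Algebra k K],
        zetaI (fam π m (fun j => algebraMap k K (c j))) ∈ ratRing K S := by
  classical
  have hne : NeZero ℓ := ⟨by omega⟩
  have hkc : CharZero k := RingHom.charZero (algebraMap k ℂ)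
  have hnd' : NondegC (cay π m) (fun j => algebraMap k ℂ (c j)) := cayC π m _ hℓ hnd
  have hv0 : ∀ j, cay π m j ≠ 0 := fun j h0 => by
    have h1 := congrFun h0 (Fin.natAdd n (π j))
    rw [Pool.Agent.W150.NI.cay_r, if_pos rfl] at h1
    exact one_ne_zero h1
  have hv := cay_inj π m hinj
  have hVD := spansD_of π m V hV
  set f : MvPolynomial (Fin (n + r)) ℂ := spa (cay π m) (fun j => algebraMap k ℂ (c j)) with hf
  have hU : ∀ b, IsLocalBIdeal (fam π m (fun j => algebraMap k ℂ (c j))) b →
      UnitEq True f ((Polynomial.X + 1) * b) := fun b hb => Pool.Agent.W423.NI.Root.unitEq π m _ b hb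
  obtain ⟨S, hS, hz1⟩ := Mot.fin_W' (cay π m) hℓ (fun σ => LocVY (cay π m) V (Dy n r) σ ∧ ¬ PWI f (-σ))
    (Dx n r)
    (fun J hJ q hq e he T0 hT0 σ hσ hlog => hb_ndX hℓ (cay π m) hv (Dy n r) (Dx n r) (yok_cay π m)
      V hVD (PWI f) (fun α hα => rel_ndX' hℓ (cay π m) hv hv0 _ hnd' V hVD.spans α hα) J hJ q hq e he T0
      hT0 σ hσ hlog)
  have hspa : ∀ {K : Type} [Field K] (c' : Fin ℓ → K), spa (cay π m) c' = sp 0 (cay π m) c' 1 := by
    intro K _ c'
    unfold sp spa
    simp
  refine ⟨S, fun p hp => ?_, ?_⟩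
  · obtain ⟨a, ha, hg, hn, rfl⟩ := hS p hp
    refine ⟨pos_of_ray ha, Int.natCast_pos.2 hg, ?_⟩
    by_cases hdiv : ∃ z : ℤ, lev (cay π m) a = z
    · left
      obtain ⟨z, hz⟩ := hdiv
      refine ⟨-z, ?_⟩
      have h1 : ((∑ i, a i : ℕ) : ℚ) = z * gord (cay π m) a := by
        have h2 : ((∑ i, a i : ℕ) : ℚ) / gord (cay π m) a = z := hz
        rwa [div_eq_iff (by exact_mod_cast hg.ne')] at h2
      have h2 : ((∑ i, a i : ℕ) : ℤ) = z * gord (cay π m) a := by exact_mod_cast h1
      show -((∑ i, a i : ℕ) : ℤ) = (gord (cay π m) a : ℤ) * -z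
      rw [h2]
      ring
    · right
      intro b hb
      have hgC : ((gord (cay π m) a : ℕ) : ℂ) ≠ 0 := by exact_mod_cast hg.ne'
      rcases hypVIL_all hL a ha hg with h1 | ⟨a', hg', hN, z, hz⟩ | hloc
      · exact absurd h1 hdiv
      · obtain ⟨K, L, hK⟩ := relV_all (cay π m) _ hv hv0 hnd' _ (hU b hb)
        have h1 := a5 (cay π m) True (prodb _ K * dL L) hK a' hg' hN
        rw [Polynomial.eval_mul, mul_eq_zero] at h1
        have h1 := h1.resolve_right (dL_neg (cay π m) a' L hg')
        rw [prodb_eval, Finset.prod_eq_zero_iff] at h1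
        obtain ⟨i, -, hi⟩ := h1
        rw [Polynomial.eval_mul] at hi
        rcases mul_eq_zero.1 hi with hi | hi
        · exfalso
          apply hdiv
          simp only [Polynomial.eval_add, Polynomial.eval_X, Polynomial.eval_one] at hi
          refine ⟨z + 1 - i, ?_⟩
          have h3 : ((lev (cay π m) a' - (1 - (i : ℚ)) : ℚ) : ℂ) = ((0 : ℚ) : ℂ) := by
            have h4 : ((lev (cay π m) a' : ℚ) : ℂ) = ((∑ i, a' i : ℕ) : ℂ) / gord (cay π m) a' := by
              unfold lev
              push_cast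
              rfl
            push_cast at h4 ⊢
            rw [h4]
            push_cast at hi
            linear_combination (-1) * hi
          have h5 : lev (cay π m) a' - (1 - (i : ℚ)) = 0 := by exact_mod_cast h3
          rw [hz]
          push_cast
          linarith
        · refine ⟨(i : ℤ) - z, ?_⟩
          have h2 : ((∑ i, a i : ℕ) : ℂ) / gord (cay π m) a =
              ((∑ i, a' i : ℕ) : ℂ) / gord (cay π m) a' + z := by
            have := congrArg (fun q : ℚ => (q : ℂ)) hz
            unfold lev at this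
            push_cast at this ⊢
            exact this
          have h3 : ((-((∑ i, a i : ℕ) : ℤ) : ℤ) : ℂ) / ((gord (cay π m) a : ℤ) : ℂ) -
              (((i : ℤ) - z : ℤ) : ℂ) = -(((∑ i, a' i : ℕ) : ℂ) / gord (cay π m) a') - i := by
            push_cast at h2 ⊢
            rw [neg_div, h2]
            ring
          rw [h3]
          exact hi
      · have h1 : PWI f (-(((∑ i, a i : ℕ) : ℚ) / gord (cay π m) a)) := by
          by_contra hcon
          exact hn ⟨locVY_of _ V _ hloc, hcon⟩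
        rcases h1 with ⟨z, hz⟩ | h1
        · exfalso
          apply hdiv
          refine ⟨-z, ?_⟩
          have h2 : lev (cay π m) a = ((∑ i, a i : ℕ) : ℚ) / gord (cay π m) a := rfl
          rw [h2]
          push_cast at hz ⊢
          linarith
        · obtain ⟨i, hi⟩ := h1 b (hU b hb)
          refine ⟨i, ?_⟩
          have e : ((-((∑ i, a i : ℕ) : ℤ) : ℤ) : ℂ) / ((gord (cay π m) a : ℤ) : ℂ) =
              ((-(((∑ i, a i : ℕ) : ℚ) / gord (cay π m) a) : ℚ) : ℂ) := by
            push_cast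
            ring
          rw [e]
          exact hi
  · intro K _ _
    have hK : CharZero K := charZero_of_injective_algebraMap (algebraMap k K).injective
    refine zetaI_mem _ _ ?_
    rw [gp_eq, hspa]
    exact hz1 K _ (nonGJ_Dx hℓ π m _ (nonG_of' k K (cay π m) c hℓ hnd'))
      (fun j => (map_ne_zero _).2 (hc j)) _ _ constr_W0 good_one (fun z hz => W0_Dx z hz)

end Pool.Agent.Y229.CF
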