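import Pool.Agent.Y229.CF.Asm

set_option autoImplicit false

/-! Polynomials which are nondegenerate for the compact faces: the local topological zeta
function. -/

namespace Pool.Agent.Y229.CF

open Polynomial Pool.Agent.H628R4.TZ Pool.Agent.H628R4.TP Pool.Agent.W425.SM
  Pool.Agent.W425.SG Pool.Agent.W422.GC Pool.Agent.W425.ND

variable {r N : ℕ}

/-- regular at `s` -/
def Reg (s : ℂ) (Z : RatFunc ℂ) : Prop :=
  ∃ Q P : ℂ[X], Q.eval s ≠ 0 ∧ algebraMap ℂ[X] (RatFunc ℂ) Q * Z = algebraMap ℂ[X] (RatFunc ℂ) P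

lemma Reg.add {s : ℂ} {Z W : RatFunc ℂ} (hZ : Reg s Z) (hW : Reg s W) : Reg s (Z + W) := by
  obtain ⟨Q, P, h1, h2⟩ := hZ
  obtain ⟨Q', P', h1', h2'⟩ := hW
  refine ⟨Q * Q', P * Q' + P' * Q, by rw [eval_mul]; exact mul_ne_zero h1 h1', ?_⟩
  rw [map_mul, map_add, map_mul, map_mul, ← h2, ← h2']
  ring

lemma Reg.mul {s : ℂ} {Z W : RatFunc ℂ} (hZ : Reg s Z) (hW : Reg s W) : Reg s (Z * W) := by
  obtain ⟨Q, P, h1, h2⟩ := hZ
  obtain ⟨Q', P', h1', h2'⟩ := hW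
  refine ⟨Q * Q', P * P', by rw [eval_mul]; exact mul_ne_zero h1 h1', ?_⟩
  rw [map_mul, map_mul, ← h2, ← h2']
  ring

lemma Reg.poly (s : ℂ) (P : ℂ[X]) : Reg s (algebraMap ℂ[X] (RatFunc ℂ) P) :=
  ⟨1, P, by simp, by rw [map_one, one_mul]⟩

lemma Reg.inv {s : ℂ} {Q : ℂ[X]} (hQ : Q.eval s ≠ 0) :
    Reg s (algebraMap ℂ[X] (RatFunc ℂ) Q)⁻¹ := by
  refine ⟨Q, 1, hQ, ?_⟩
  rw [map_one, mul_inv_cancel₀]
  intro h
  apply hQ
  have h1 : Q = 0 := RatFunc.algebraMap_injective ℂ (by rw [h, map_zero])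
  rw [h1, eval_zero]

lemma Reg.sum {ι : Type} {s : ℂ} (S : Finset ι) (Z : ι → RatFunc ℂ) (h : ∀ i ∈ S, Reg s (Z i)) :
    Reg s (∑ i ∈ S, Z i) := by
  classical
  induction S using Finset.induction_on with
  | empty =>
    rw [Finset.sum_empty, ← map_zero (algebraMap ℂ[X] (RatFunc ℂ))]
    exact Reg.poly s 0
  | insert a S ha ih =>
    rw [Finset.sum_insert ha]
    exact (h a (Finset.mem_insert_self a S)).add (ih fun i hi => h i (Finset.mem_insert_of_mem hi))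

lemma Reg.prod {ι : Type} {s : ℂ} (S : Finset ι) (Z : ι → RatFunc ℂ) (h : ∀ i ∈ S, Reg s (Z i)) :
    Reg s (∏ i ∈ S, Z i) := by
  classical
  induction S using Finset.induction_on with
  | empty =>
    rw [Finset.prod_empty, ← map_one (algebraMap ℂ[X] (RatFunc ℂ))]
    exact Reg.poly s 1
  | insert a S ha ih =>
    rw [Finset.prod_insert ha]
    exact (h a (Finset.mem_insert_self a S)).mul (ih fun i hi => h i (Finset.mem_insert_of_mem hi))

lemma ray_ne_zero (R : SmoothFan N) (σ : Finset (Fin N → ℕ)) (hσ : σ ∈ R.cones)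
    (ρ : Fin N → ℕ) (hρ : ρ ∈ σ) : ρ ≠ 0 := by
  rintro rfl
  obtain ⟨B, hB, h⟩ := R.smooth σ hσ
  obtain ⟨i, hi⟩ := h 0 hρ
  have h1 : B.det = 0 := Matrix.det_eq_zero_of_row_eq_zero i fun l => by
    rw [hi l]
    rfl
  rw [h1] at hB
  exact not_isUnit_zero hB

/-- no pole at the natural numbers -/
lemma reg_topZ (v : Fin r → Fin N → ℕ) (R : SmoothFan N) (n : ℕ) :
    Reg (n : ℂ) (topZetaGLocal v R) := by
  classical
  unfold topZetaGLocal
  refine Reg.sum _ _ fun σ hσ => ?_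
  refine (Reg.add ?_ (Reg.mul ?_ ?_)).mul (Reg.prod _ _ fun ρ hρ => ?_)
  · rw [← RatFunc.algebraMap_C]
    exact Reg.poly _ _
  · rw [← RatFunc.algebraMap_C]
    exact Reg.poly _ _
  · have e : (RatFunc.X + 1 : RatFunc ℂ) = algebraMap ℂ[X] (RatFunc ℂ) (X + 1) := by
      rw [map_add, map_one, RatFunc.algebraMap_X]
    rw [e]
    refine Reg.inv ?_
    rw [eval_add, eval_X, eval_one]
    exact_mod_cast Nat.succ_ne_zero n
  · have e : ((ordAlong v ρ : RatFunc ℂ) * RatFunc.X + ((∑ l, ρ l : ℕ) : RatFunc ℂ)) =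
        algebraMap ℂ[X] (RatFunc ℂ) ((ordAlong v ρ : ℂ[X]) * X + ((∑ l, ρ l : ℕ) : ℂ[X])) := by
      rw [map_add, map_mul, RatFunc.algebraMap_X, map_natCast, map_natCast]
    rw [e]
    refine Reg.inv ?_
    rw [eval_add, eval_mul, eval_X, eval_natCast, eval_natCast]
    have h1 : 0 < ∑ l, ρ l := by
      have hσ' := (Finset.mem_filter.1 hσ).1
      by_contra hcon
      have h2 : ∑ l, ρ l = 0 := by omega
      have h3 : ∀ l, ρ l = 0 := fun l => by
        have := Finset.single_le_sum (f := ρ) (fun _ _ => Nat.zero_le _) (Finset.mem_univ l)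
        omega
      exact ray_ne_zero R σ hσ' ρ hρ (funext h3)
    have h2 : (0 : ℕ) < ordAlong v ρ * n + ∑ l, ρ l := by positivity
    exact_mod_cast h2.ne'

lemma Reg.denom {s : ℂ} {Z : RatFunc ℂ} (h : Reg s Z) : Z.denom.eval s ≠ 0 := by
  obtain ⟨Q, P, h1, h2⟩ := h
  have hQ0 : Q ≠ 0 := by
    rintro rfl
    simp at h1
  have hdvd : Z.denom ∣ Q := by
    rw [RatFunc.denom_dvd hQ0]
    refine ⟨P, ?_⟩
    rw [eq_div_iff, mul_comm, h2]
    exact (map_ne_zero_iff _ (RatFunc.algebraMap_injective ℂ)).2 hQ0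
  obtain ⟨Q', hQ'⟩ := hdvd
  intro h3
  apply h1
  rw [hQ', eval_mul, h3, zero_mul]

/-- the factors of `dL L` can be removed -/
lemma remove_dL (v : Fin r → Fin N → ℕ) (R : SmoothFan N) (L : ℕ) (D P : ℂ[X]) (hD : D ≠ 0)
    (h : algebraMap ℂ[X] (RatFunc ℂ) (D * dL L) * topZetaGLocal v R =
      algebraMap ℂ[X] (RatFunc ℂ) P) :
    ∃ P' : ℂ[X], algebraMap ℂ[X] (RatFunc ℂ) D * topZetaGLocal v R =
      algebraMap ℂ[X] (RatFunc ℂ) P' := by
  set Z := topZetaGLocal v R with hZ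
  have hL0 : dL L ≠ 0 := by
    unfold dL
    exact Finset.prod_ne_zero_iff.2 fun i _ => X_sub_C_ne_zero _
  have hdvd : Z.denom ∣ D * dL L := by
    rw [RatFunc.denom_dvd (mul_ne_zero hD hL0)]
    refine ⟨P, ?_⟩
    rw [eq_div_iff, mul_comm, h]
    exact (map_ne_zero_iff _ (RatFunc.algebraMap_injective ℂ)).2 (mul_ne_zero hD hL0)
  have hco : IsCoprime Z.denom (dL L) := by
    unfold dL
    refine IsCoprime.prod_right fun i _ => ?_
    rw [isCoprime_comm, (irreducible_X_sub_C _).coprime_iff_not_dvd, dvd_iff_isRoot]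
    exact (reg_topZ v R i).denom
  have h1 : Z.denom ∣ D := hco.dvd_of_dvd_mul_right hdvd
  rw [RatFunc.denom_dvd hD] at h1
  obtain ⟨P', hP'⟩ := h1
  refine ⟨P', ?_⟩
  rw [hP', mul_div_cancel₀]
  exact (map_ne_zero_iff _ (RatFunc.algebraMap_injective ℂ)).2 hD

/-- **The core theorem, local.** -/
theorem local_cf (hr : 1 ≤ r) (v : Fin r → Fin N → ℕ) (a : Fin r → ℂ)
    (hv : Function.Injective v) (hv0 : ∀ j, v j ≠ 0) (hnd : NondegC v a) (R : SmoothFan N)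
    (hR : Principal v R) (b : ℂ[X]) (hb0 : b ≠ 0)
    (hb : Pool.Agent.H628R4.TP.IsLocalBFunction (sparse v a) b) :
    b.eval (-1) = 0 ∧ ∃ (K : ℕ) (P : ℂ[X]), algebraMap ℂ[X] (RatFunc ℂ)
      ((Polynomial.X + 1) * ∏ i ∈ Finset.range (K + 1), b.comp (Polynomial.X - Polynomial.C (i : ℂ))) *
      topZetaGLocal v R = algebraMap ℂ[X] (RatFunc ℂ) P := by
  have : NeZero r := ⟨by omega⟩
  obtain ⟨h1, c, P, hc, hP⟩ := Pool.Agent.W368.SL.taskL1 (sparse v a) b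
    (spa_ne_zero' hv a hnd) (spa_const v hv0 a) (Pool.Agent.W425.SL.toSL hb)
  refine ⟨h1, ?_⟩
  obtain ⟨K, L, hK⟩ := relV_all v a hv hv0 hnd b ⟨c, P, hc, fun h => absurd trivial h, hP⟩
  obtain ⟨θ, hθ⟩ := exists_heights r
  obtain ⟨P, hP⟩ := Pool.Agent.W425.SV.mainV_rel v hv hv0 θ hθ True R hR (-1) (by norm_num)
    (fun _ => by norm_num) _ (hK θ hθ)
  have hD : ((Polynomial.X + 1) * ∏ i ∈ Finset.range (K + 1),
      b.comp (Polynomial.X - Polynomial.C (i : ℂ)) : ℂ[X]) ≠ 0 := by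
    refine mul_ne_zero ?_ (Finset.prod_ne_zero_iff.2 fun i _ => ?_)
    · intro h0
      have := congrArg (Polynomial.eval 0) h0
      simp at this
    · intro h0
      apply hb0
      have := congrArg (fun q : ℂ[X] => q.comp (Polynomial.X + Polynomial.C (i : ℂ))) h0
      simpa [Polynomial.comp_assoc] using this
  refine ⟨K, remove_dL v R L _ P hD ?_⟩
  rw [← topZG_neg, topZG_eq v θ hθ, mul_assoc]
  exact hP

end Pool.Agent.Y229.CF
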