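import Pool.Agent.W425.MM.Mot
import Pool.Agent.TH216.ID.Id2

set_option autoImplicit false

/-! Motivic zeta functions of polynomials which are nondegenerate for the compact faces, arcs with
origin in a coordinate subspace (adapted from `W425.MM.Mot` and `TH216.ID.Id2`). -/

namespace Pool.Agent.Y229.CF.Mot

open MvPolynomial
open Pool.Agent.W428.MOT Pool.Agent.W749.MT Pool.Agent.W749.MT.StC Pool.Agent.W375.MT
open Pool.Agent.W375.MG hiding stC sum fin
open Pool.Agent.W426.SM (gord ford IsRay face)
open Pool.Agent.W63.MTFin (mapMeas geo_mul geo_mem X_mem C_mem poly_mem geo_sum L_mul ev ev_X_pow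
  rat_mem)

/-- nondegeneracy over the algebraic closure, for the faces given by the vectors with nonzero
coordinates in `Dx` -/
def NonGJ {K : Type} [Field K] {n r : ℕ} (Dx : Finset (Fin n)) (m : Fin r → Fin n → ℕ)
    (c : Fin r → K) : Prop :=
  ∀ u : Fin n → ℕ, (∀ i ∈ Dx, u i ≠ 0) → ∀ z : Fin n → AlgebraicClosure K,
    (∀ i, (∃ j ∈ amin m u, m j i ≠ 0) → z i ≠ 0) → gbar m (cb c) (amin m u) z = 0 →
    ∃ i, dgbar m (cb c) (amin m u) i z ≠ 0

/-- (STC) -/
theorem stC' (h1 : S_Free) (h2 : S_Sub) (h3 : S_Tay) {K : Type} [Field K]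
    [CharZero K] {n r : ℕ} {R : Type} [CommRing R] (M : Meas K R)
    (A : Fin n → ℕ) (m : Fin r → Fin n → ℕ) (c : Fin r → K) (e : ℕ)
    {W : Set (Pt K (Fin n))} (hW : Constr W) {E : Set (AlgebraicClosure K)} (hE : Good E)
    (Dx : Finset (Fin n)) (hNon : NonGJ Dx m c) (he : 0 < e)
    (J : Finset (Fin n)) (hJ : Dx ⊆ J) (N : ℕ) (u : Fin n → ℕ) (hA : Adm J u) (l : ℕ) (hl : 1 ≤ l)
    (hf : ford A m e u + e * l = N) :
    M.χ _ (Y0 (0 : Fin n → K) N u ∩ {y | wb u y ∈ W ∧
        (∀ k < l, PowerSeries.coeff k (gser m (cb c) (del m u) (arc y)) = 0) ∧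
        (∏ i, y (i, 0) ^ A i) *
          (PowerSeries.coeff l (gser m (cb c) (del m u) (arc y))) ^ e ∈ E}) * M.L ^ l =
      M.χ _ (GB1 A m c e W E J (amin m u)) *
        (M.L - 1) ^ ((free A m J (amin m u)).filter fun i => u i ≤ N).card *
        M.L ^ ((free A m J (amin m u)).filter fun i => ¬ u i ≤ N).card *
        M.L ^ (∑ i, (2 * N + 1 - u i)) := by
  classical
  set τ := amin m u with hτ
  set δ := del m u with hδ
  have hlN : l ≤ N := by
    have : l ≤ e * l := Nat.le_mul_of_pos_left _ he
    omega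
  have hfN : ford A m e u ≤ N := by omega
  set V : Set (Pt K (Fin n × Fin (2 * N + 1 + 1))) :=
    {y | wb u y ∈ W ∧ (∀ k < l, PowerSeries.coeff k (gser m (cb c) δ (arc y)) = 0) ∧
        (∏ i, y (i, 0) ^ A i) *
          (PowerSeries.coeff l (gser m (cb c) δ (arc y))) ^ e ∈ E} with hV
  have hWC : ∀ i0, V = CG A m c e δ W E u l i0 l := by
    intro i0
    have hv : ∀ (y : Pt K (Fin n × Fin (2 * N + 1 + 1))) (k : ℕ), k ≤ l →
        vv m c δ i0 l y k = PowerSeries.coeff k (gser m (cb c) δ (arc y)) := fun y k hk =>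
      if_pos hk
    ext y
    constructor
    · rintro ⟨hw, h5, h6⟩
      refine ⟨fun k hk => ?_, hw, ?_⟩
      · rw [hv y k hk.le]
        exact h5 k hk
      · rw [hv y l le_rfl]
        exact h6
    · rintro ⟨h5, hw, h6⟩
      refine ⟨hw, fun k hk => ?_, ?_⟩
      · rw [← hv y k hk.le]
        exact h5 k hk
      · rw [← hv y l le_rfl]
        exact h6
  have hWc : Constr V := by
    refine Constr.and (constr_W hW _ fun i => isPF_wb u i) (Constr.and ?_ (hE.constr _ ?_))
    · exact Constr.allLt l fun k _ => Constr.eqz (IsPA_gser m c δ k)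
    · exact (IsPF_prod A fun i => (i, 0)).mul ((IsPA_gser m c δ l).pow e)
  have e1 : M.χ _ (Y0 (0 : Fin n → K) N u ∩ V) = ∑ i0, M.χ _ ((Y0 (0 : Fin n → K) N u ∩ V) ∩
      QQ m c τ (fun i => (i, (0 : Fin (2 * N + 1 + 1)))) i0) := by
    refine χ_cover M _ _ ((Pool.Agent.W749.MT.constr_Y0 0 N u).inter hWc)
      (fun i0 => constr_QQ m c τ _ i0)
      (fun a b h => QQ_disjoint m c τ _ a b h) ?_
    rintro y ⟨⟨hy1, hy2, hy3⟩, hyW, hy4, hy5⟩
    refine QQ_cover m c τ _ y ?_
    refine hNon u (fun i hi => (hA i).2 (hJ hi)) (fun i => y (i, 0)) ?_ ?_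
    · rintro i ⟨j, hj, hm⟩
      refine hy2 i (le_of_not_free A m e J u N he hA hfN i ?_)
      intro hcf
      exact hm (((mem_free A m J τ i).1 hcf).2.2 j hj)
    · have := hy4 0 hl
      rw [(h3 m (cb c) δ (arc y)).1, hδ, filter_del] at this
      simp only [Pool.Agent.W749.MT.constantCoeff_arc] at this
      exact this
  have e2 : M.χ _ (GB1 A m c e W E J τ) =
      ∑ i0, M.χ _ (GB1 A m c e W E J τ ∩ QQ m c τ some i0) := by
    refine χ_cover M _ _ (constr_GB1 A m c e hW hE J τ) (fun i0 => constr_QQ m c τ _ i0)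
      (fun a b h => QQ_disjoint m c τ _ a b h) ?_
    rintro z ⟨hz1, hz2, hz3, hz4, hz5⟩
    refine QQ_cover m c τ _ z ?_
    exact hNon u (fun i hi => (hA i).2 (hJ hi)) (fun i => z (some i)) (fun i _ => hz2 i) hz4
  rw [e1, e2, Finset.sum_mul, Finset.sum_mul, Finset.sum_mul, Finset.sum_mul]
  refine Finset.sum_congr rfl fun i0 _ => ?_
  by_cases hi0 : i0 ∈ free A m J τ
  · have hd : ∀ z : Fin n → AlgebraicClosure K, dgbar m (cb c) τ i0 z = 0 := fun z =>
      dgbar_zero m (cb c) τ i0 z ((mem_free A m J τ i0).1 hi0).2.2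
    have h5 : (Y0 (0 : Fin n → K) N u ∩ V) ∩
        QQ m c τ (fun i => (i, (0 : Fin (2 * N + 1 + 1)))) i0 = ∅ := by
      rw [Set.eq_empty_iff_forall_notMem]
      rintro y ⟨_, _, h6⟩
      exact h6 (hd _)
    have h6 : GB1 A m c e W E J τ ∩ QQ m c τ some i0 = ∅ := by
      rw [Set.eq_empty_iff_forall_notMem]
      rintro y ⟨_, _, h6⟩
      exact h6 (hd _)
    rw [h5, h6, χ_empty, χ_empty]
    ring
  · have hui : u i0 ≤ N := le_of_not_free A m e J u N he hA hfN i0 hi0
    have hl2 : l ≤ 2 * N + 1 - u i0 := by omega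
    rw [← base h1 h3 M A m c e hW hE J he N u hA hfN l hl i0 hi0 hl2,
      ← steps h2 h3 M A m c e hW hE N u l i0 hl2 l le_rfl, ← hWC i0]
    congr 2
    rw [Set.inter_assoc, Set.inter_comm V]

/-- (SUM) -/
theorem sum' (h1 : S_Free) (h2 : S_Sub) (h3 : S_Tay) {K : Type} [Field K]
    [CharZero K] {n r : ℕ} {R : Type} [CommRing R] (M : Meas K R)
    (A : Fin n → ℕ) (m : Fin r → Fin n → ℕ) (c : Fin r → K) (e : ℕ)
    {W : Set (Pt K (Fin n))} (hW : Constr W) {E : Set (AlgebraicClosure K)} (hE : Good E)
    (Dx : Finset (Fin n)) (hNon : NonGJ Dx m c) (hWD : ∀ z ∈ W, ∀ i ∈ Dx, z i = 0) (he : 0 < e)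
    (Y : R) (hY : M.L * Y = 1) (N : ℕ) (hN : 1 ≤ N) :
    M.χ _ (JetG (sp A m c e) W E N) * Y ^ (n * N) =
      ∑ J : Finset (Fin n), ∑ τ : Finset (Fin r), M.L ^ (free A m J τ).card *
        (M.χ _ (GB0 A m c e W E J τ) *
            Polynomial.eval₂ (Int.castRingHom R) Y (cp A m e J τ N N) +
          ∑ l ∈ Finset.Icc 1 N, if e * l ≤ N then
            M.χ _ (GB1 A m c e W E J τ) * Y ^ l *
              Polynomial.eval₂ (Int.castRingHom R) Y (cp A m e J τ N (N - e * l)) else 0) := by
  classical
  set P := (Fintype.piFinset fun _ : Fin n => Finset.range (N + 2)) with hP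
  have key : ∀ J : Finset (Fin n), ∀ u ∈ P.filter (Adm J),
      M.χ (Fin n × Fin (2 * N + 1 + 1)) (strG (sp A m c e) W E N u) * Y ^ (n * (2 * N + 1)) =
      M.L ^ (free A m J (amin m u)).card * (M.χ _ (GB0 A m c e W E J (amin m u)) *
        (if ford A m e u = N then
          Polynomial.eval₂ (Int.castRingHom R) Y (wt A m J (amin m u) N u) else 0) +
        ∑ l ∈ Finset.Icc 1 N, if e * l ≤ N then
          M.χ _ (GB1 A m c e W E J (amin m u)) * Y ^ l *
            (if ford A m e u = N - e * l then
              Polynomial.eval₂ (Int.castRingHom R) Y (wt A m J (amin m u) N u) else 0)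
          else 0) := by
    intro J u hu
    rw [Finset.mem_filter, Fintype.mem_piFinset] at hu
    obtain ⟨hu1, hA⟩ := hu
    have hu' : ∀ i, u i ≤ N + 1 := by
      intro i
      have := Finset.mem_range.1 (hu1 i)
      omega
    rw [shift M (sp A m c e) hW hE N hN u hu']
    have hset : (Y0 (0 : Fin n → K) N u ∩ shG (sp A m c e) W E N u) =
        Y0 (0 : Fin n → K) N u ∩ {y | ∃ l, ford A m e u + e * l = N ∧ wb u y ∈ W ∧
          (∀ k < l, PowerSeries.coeff k (gser m (cb c) (del m u) (arc y)) = 0) ∧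
          (∏ i, y (i, 0) ^ A i) *
            (PowerSeries.coeff l (gser m (cb c) (del m u) (arc y))) ^ e ∈ E} := by
      ext y
      simp only [Set.mem_inter_iff, Set.mem_ofPred_eq, shG]
      constructor
      · rintro ⟨ha, hw, hb⟩
        obtain ⟨l, h5, h6, h7⟩ := (cond A m c e E hE he N u y ((mem_Y0_zero N u y).1 ha).2).1 hb
        exact ⟨ha, l, h5, hw, h6, h7⟩
      · rintro ⟨ha, l, h5, hw, h6, h7⟩
        exact ⟨ha, hw, (cond A m c e E hE he N u y ((mem_Y0_zero N u y).1 ha).2).2
          ⟨l, h5, h6, h7⟩⟩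
    rw [hset]
    by_cases hJ : Dx ⊆ J
    swap
    · obtain ⟨i, hi, hi'⟩ := Finset.not_subset.1 hJ
      have hset2 : (Y0 (0 : Fin n → K) N u ∩ {y | ∃ l, ford A m e u + e * l = N ∧ wb u y ∈ W ∧
          (∀ k < l, PowerSeries.coeff k (gser m (cb c) (del m u) (arc y)) = 0) ∧
          (∏ i, y (i, 0) ^ A i) *
            (PowerSeries.coeff l (gser m (cb c) (del m u) (arc y))) ^ e ∈ E}) = ∅ := by
        ext y
        simp only [Set.mem_inter_iff, Set.mem_ofPred_eq, Set.mem_empty_iff_false, iff_false]
        rintro ⟨ha, l, -, hw, -⟩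
        have hui : u i = 0 := by
          by_contra h
          exact hi' ((hA i).1 h)
        have h1 := hWD _ hw i hi
        simp only [wb, if_pos hui] at h1
        exact ((mem_Y0_zero N u y).1 ha).2 i (by omega) h1
      have hG0 : GB0 A m c e W E J (amin m u) = ∅ := by
        ext z
        simp only [GB0, Set.mem_ofPred_eq, Set.mem_empty_iff_false, iff_false]
        rintro ⟨h7, h8, -⟩
        have h9 := hWD _ h7 i hi
        simp only [if_neg hi'] at h9
        exact h8 i h9
      have hG1 : GB1 A m c e W E J (amin m u) = ∅ := by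
        ext z
        simp only [GB1, Set.mem_ofPred_eq, Set.mem_empty_iff_false, iff_false]
        rintro ⟨h7, h8, -⟩
        have h9 := hWD _ h7 i hi
        simp only [if_neg hi'] at h9
        exact h8 i h9
      rw [hset2, hG0, hG1, chi_empty, chi_empty, chi_empty]
      simp
    have hw := weight_eq A m J (amin m u) N u hu' M.L Y hY
    by_cases hex : ∃ l, ford A m e u + e * l = N
    · obtain ⟨l, hl⟩ := hex
      have huniq : ∀ l', ford A m e u + e * l' = N → l' = l := by
        intro l' hl'
        have : e * l' = e * l := by omega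
        exact Nat.eq_of_mul_eq_mul_left he this
      have hset2 : (Y0 (0 : Fin n → K) N u ∩ {y | ∃ l, ford A m e u + e * l = N ∧ wb u y ∈ W ∧
          (∀ k < l, PowerSeries.coeff k (gser m (cb c) (del m u) (arc y)) = 0) ∧
          (∏ i, y (i, 0) ^ A i) *
            (PowerSeries.coeff l (gser m (cb c) (del m u) (arc y))) ^ e ∈ E}) =
          Y0 (0 : Fin n → K) N u ∩ {y | wb u y ∈ W ∧
          (∀ k < l, PowerSeries.coeff k (gser m (cb c) (del m u) (arc y)) = 0) ∧
          (∏ i, y (i, 0) ^ A i) *
            (PowerSeries.coeff l (gser m (cb c) (del m u) (arc y))) ^ e ∈ E} := by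
        ext y
        simp only [Set.mem_inter_iff, Set.mem_ofPred_eq]
        constructor
        · rintro ⟨ha, l', hl', hb⟩
          rw [huniq l' hl'] at hb
          exact ⟨ha, hb⟩
        · rintro ⟨ha, hb⟩
          exact ⟨ha, l, hl, hb⟩
      rw [hset2]
      rcases Nat.eq_zero_or_pos l with rfl | hlpos
      · have hN' : ford A m e u = N := by omega
        have h6 := stB h1 h3 M A m c e hW hE he J N u hA hN'
        simp only [Nat.not_lt_zero, false_implies, implies_true, true_and]
        rw [h6, if_pos hN']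
        have hz : (∑ l ∈ Finset.Icc 1 N, if e * l ≤ N then
          M.χ _ (GB1 A m c e W E J (amin m u)) * Y ^ l *
            (if ford A m e u = N - e * l then
              Polynomial.eval₂ (Int.castRingHom R) Y (wt A m J (amin m u) N u) else 0)
          else 0) = 0 := by
          refine Finset.sum_eq_zero fun l hl1 => ?_
          rw [Finset.mem_Icc] at hl1
          have hel : 0 < e * l := Nat.mul_pos he (by omega)
          split_ifs with h7 h8
          · exfalso
            omega
          · rw [mul_zero]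
          · rfl
        rw [hz, add_zero]
        linear_combination (M.χ _ (GB0 A m c e W E J (amin m u))) * hw
      · have h6 := stC' h1 h2 h3 M A m c e hW hE Dx hNon he J hJ N u hA l hlpos hl
        have hel : 0 < e * l := Nat.mul_pos he hlpos
        have hlN : l ≤ N := le_trans (Nat.le_mul_of_pos_left l he) (by omega)
        rw [if_neg (by omega), mul_zero, zero_add]
        have hz : (∑ l ∈ Finset.Icc 1 N, if e * l ≤ N then
          M.χ _ (GB1 A m c e W E J (amin m u)) * Y ^ l *
            (if ford A m e u = N - e * l then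
              Polynomial.eval₂ (Int.castRingHom R) Y (wt A m J (amin m u) N u) else 0)
          else 0) = M.χ _ (GB1 A m c e W E J (amin m u)) * Y ^ l *
              Polynomial.eval₂ (Int.castRingHom R) Y (wt A m J (amin m u) N u) := by
          rw [Finset.sum_eq_single l]
          · rw [if_pos (by omega), if_pos (by omega)]
          · intro l' _ hne
            split_ifs with h7 h8
            · exact absurd (huniq l' (by omega)) hne
            · rw [mul_zero]
            · rfl
          · intro h9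
            exact absurd (Finset.mem_Icc.2 ⟨hlpos, hlN⟩) h9
        rw [hz]
        have h10 : M.L ^ l * Y ^ l = 1 := by rw [← mul_pow, hY, one_pow]
        have h11 : M.χ _ (Y0 (0 : Fin n → K) N u ∩ {y | wb u y ∈ W ∧
            (∀ k < l, PowerSeries.coeff k (gser m (cb c) (del m u) (arc y)) = 0) ∧
            (∏ i, y (i, 0) ^ A i) *
              (PowerSeries.coeff l (gser m (cb c) (del m u) (arc y))) ^ e ∈ E}) =
            (M.χ _ (GB1 A m c e W E J (amin m u)) *
            (M.L - 1) ^ ((free A m J (amin m u)).filter fun i => u i ≤ N).card *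
            M.L ^ ((free A m J (amin m u)).filter fun i => ¬ u i ≤ N).card *
            M.L ^ (∑ i, (2 * N + 1 - u i))) * Y ^ l := by
          rw [← h6, mul_assoc, h10, mul_one]
        rw [h11]
        linear_combination (M.χ _ (GB1 A m c e W E J (amin m u)) * Y ^ l) * hw
    · have hset2 : (Y0 (0 : Fin n → K) N u ∩ {y | ∃ l, ford A m e u + e * l = N ∧ wb u y ∈ W ∧
          (∀ k < l, PowerSeries.coeff k (gser m (cb c) (del m u) (arc y)) = 0) ∧
          (∏ i, y (i, 0) ^ A i) *
            (PowerSeries.coeff l (gser m (cb c) (del m u) (arc y))) ^ e ∈ E}) = ∅ := by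
        ext y
        simp only [Set.mem_inter_iff, Set.mem_ofPred_eq, Set.mem_empty_iff_false, iff_false]
        rintro ⟨-, l, hl, -⟩
        exact hex ⟨l, hl⟩
      rw [hset2, chi_empty, zero_mul, if_neg (fun h => hex ⟨0, by simpa using h⟩), mul_zero,
        zero_add]
      have hz : (∑ l ∈ Finset.Icc 1 N, if e * l ≤ N then
        M.χ _ (GB1 A m c e W E J (amin m u)) * Y ^ l *
          (if ford A m e u = N - e * l then
            Polynomial.eval₂ (Int.castRingHom R) Y (wt A m J (amin m u) N u) else 0)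
        else 0) = 0 := by
        refine Finset.sum_eq_zero fun l _ => ?_
        split_ifs with h7 h8
        · exact absurd ⟨l, by omega⟩ hex
        · rw [mul_zero]
        · rfl
      rw [hz, mul_zero]
  have hJet := jet h1 M (sp A m c e) hW hE N
  have e1 : M.χ _ (JetG (sp A m c e) W E N) * Y ^ (n * N) =
      (M.χ (Fin n × Fin (N + 1)) (JetG (sp A m c e) W E N) *
        M.L ^ (n * (N + 1))) * Y ^ (n * (2 * N + 1)) := by
    have h12 : M.L ^ (n * (N + 1)) * Y ^ (n * (2 * N + 1)) = Y ^ (n * N) := by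
      have h13 : n * (2 * N + 1) = n * (N + 1) + n * N := by ring
      rw [h13, pow_add, ← mul_assoc, ← mul_pow, hY, one_pow, one_mul]
    rw [mul_assoc, h12]
  rw [e1, hJet, Finset.sum_mul]
  rw [← Finset.sum_fiberwise P (fun u => (Finset.univ.filter fun i => u i ≠ 0 : Finset (Fin n)))]
  refine Finset.sum_congr rfl fun J _ => ?_
  have hfil : P.filter (fun u => (Finset.univ.filter fun i => u i ≠ 0 : Finset (Fin n)) = J) =
      P.filter (Adm J) := by
    refine Finset.filter_congr fun u _ => ?_
    constructor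
    · intro h i
      rw [← h]
      simp
    · intro h
      ext i
      simp only [Finset.mem_filter, Finset.mem_univ, true_and]
      exact h i
  rw [hfil, Finset.sum_congr rfl (key J)]
  rw [← Finset.sum_fiberwise (P.filter (Adm J)) (fun u => amin m u)]
  refine Finset.sum_congr rfl fun τ _ => ?_
  have e2 : ∀ u ∈ (P.filter (Adm J)).filter (fun u => amin m u = τ),
      (M.L ^ (free A m J (amin m u)).card * (M.χ _ (GB0 A m c e W E J (amin m u)) *
        (if ford A m e u = N then
          Polynomial.eval₂ (Int.castRingHom R) Y (wt A m J (amin m u) N u) else 0) +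
        ∑ l ∈ Finset.Icc 1 N, if e * l ≤ N then
          M.χ _ (GB1 A m c e W E J (amin m u)) * Y ^ l *
            (if ford A m e u = N - e * l then
              Polynomial.eval₂ (Int.castRingHom R) Y (wt A m J (amin m u) N u) else 0)
          else 0)) = M.L ^ (free A m J τ).card * (M.χ _ (GB0 A m c e W E J τ) *
        (if ford A m e u = N then
          Polynomial.eval₂ (Int.castRingHom R) Y (wt A m J τ N u) else 0) +
        ∑ l ∈ Finset.Icc 1 N, if e * l ≤ N then
          M.χ _ (GB1 A m c e W E J τ) * Y ^ l *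
            (if ford A m e u = N - e * l then
              Polynomial.eval₂ (Int.castRingHom R) Y (wt A m J τ N u) else 0)
          else 0) := by
    intro u hu
    rw [(Finset.mem_filter.1 hu).2]
  rw [Finset.sum_congr rfl e2, ← Finset.mul_sum, Finset.sum_add_distrib, ← Finset.mul_sum,
    Finset.sum_comm, ev_cp]
  congr 2
  refine Finset.sum_congr rfl fun l _ => ?_
  split_ifs with h7
  · rw [← Finset.mul_sum, ev_cp]
  · exact Finset.sum_const_zero


end Pool.Agent.Y229.CF.Mot
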