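import Pool.Agent.Y229.CF.Stm
import Pool.Agent.W425.ND.DefMain

set_option autoImplicit false

/-! Part DEFP: the deformation theorem, the supports and the generators (adapted from
`W425.ND.DefThm`). -/

namespace Pool.Agent.Y229.CF

open MvPolynomial Pool.Agent.W425.ND Pool.Agent.W425.ND.DefThm

section supp

variable {N r : ℕ} {R : Type} [CommRing R]

lemma HulP.add {v : Fin r → Fin N → ℕ} {m m' : ℕ} {c c' : Fin N →₀ ℕ} (h : HulP v m c)
    (h' : HulP v m' c') : HulP v (m + m') (c + c') := by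
  obtain ⟨l, h1, h2, h3⟩ := h
  obtain ⟨l', h1', h2', h3'⟩ := h'
  refine ⟨fun j => l j + l' j, fun j => add_nonneg (h1 j) (h1' j), ?_, ?_⟩
  · rw [Finset.sum_add_distrib, h2, h2']; push_cast; ring
  · intro i
    simp only [add_mul, Finset.sum_add_distrib, Finsupp.add_apply]
    have := h3 i
    have := h3' i
    push_cast; linarith

lemma HulP.zero {v : Fin r → Fin N → ℕ} (c : Fin N →₀ ℕ) : HulP v 0 c :=
  ⟨fun _ => 0, fun _ => le_rfl, by simp, by simp⟩

lemma HulP.mono {v : Fin r → Fin N → ℕ} {m : ℕ} {c c' : Fin N →₀ ℕ} (h : HulP v m c)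
    (hc : c ≤ c') : HulP v m c' := by
  obtain ⟨l, h1, h2, h3⟩ := h
  refine ⟨l, h1, h2, fun i => (h3 i).trans ?_⟩
  exact_mod_cast hc i

lemma HulP.one (v : Fin r → Fin N → ℕ) (j : Fin r) :
    HulP v 1 (Finsupp.equivFunOnFinite.symm (v j)) := by
  classical
  refine ⟨fun j' => if j' = j then 1 else 0, fun j' => ?_, by simp, fun i => by simp⟩
  by_cases h : j' = j <;> simp [h]

/-- the sum of a point of `m` times the polyhedron and a vector of length at least `j` -/
def Hj (v : Fin r → Fin N → ℕ) (m j : ℕ) (c : Fin N →₀ ℕ) : Prop :=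
  ∃ c' γ : Fin N →₀ ℕ, c = c' + γ ∧ HulP v m c' ∧ j ≤ ∑ i, γ i

lemma Hj.of {v : Fin r → Fin N → ℕ} {m : ℕ} {c : Fin N →₀ ℕ} (h : HulP v m c) : Hj v m 0 c :=
  ⟨c, 0, by simp, h, Nat.zero_le _⟩

lemma Hj.hul {v : Fin r → Fin N → ℕ} {m j : ℕ} {c : Fin N →₀ ℕ} (h : Hj v m j c) :
    HulP v m c := by
  obtain ⟨c', γ, rfl, h1, -⟩ := h
  exact h1.mono le_self_add

lemma Hj.add {v : Fin r → Fin N → ℕ} {m m' j j' : ℕ} {c c' : Fin N →₀ ℕ} (h : Hj v m j c)
    (h' : Hj v m' j' c') : Hj v (m + m') (j + j') (c + c') := by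
  obtain ⟨a, γ, rfl, h1, h2⟩ := h
  obtain ⟨a', γ', rfl, h1', h2'⟩ := h'
  refine ⟨a + a', γ + γ', by abel, h1.add h1', ?_⟩
  simp only [Finsupp.add_apply, Finset.sum_add_distrib]
  omega

/-- all exponents satisfy `Hj` -/
def SupJ (v : Fin r → Fin N → ℕ) (m j : ℕ) (p : MvPolynomial (Fin N) R) : Prop :=
  ∀ c, coeff c p ≠ 0 → Hj v m j c

lemma SupJ.of {v : Fin r → Fin N → ℕ} {m : ℕ} {p : MvPolynomial (Fin N) R} (h : SupP v m p) :
    SupJ v m 0 p := fun c hc => Hj.of (h c hc)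

lemma supJ_mul {v : Fin r → Fin N → ℕ} {m m' j j' : ℕ} {p q : MvPolynomial (Fin N) R}
    (h : SupJ v m j p) (h' : SupJ v m' j' q) : SupJ v (m + m') (j + j') (p * q) := by
  classical
  intro c hc
  rw [coeff_mul] at hc
  obtain ⟨x, hx, hx2⟩ := Finset.exists_ne_zero_of_sum_ne_zero hc
  have h1 : coeff x.1 p ≠ 0 := fun h0 => hx2 (by rw [h0, zero_mul])
  have h2 : coeff x.2 q ≠ 0 := fun h0 => hx2 (by rw [h0, mul_zero])
  have h3 := Hj.add (h _ h1) (h' _ h2)
  rwa [Finset.HasAntidiagonal.mem_antidiagonal.1 hx] at h3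

lemma supJ_monomial {v : Fin r → Fin N → ℕ} {m j : ℕ} {c : Fin N →₀ ℕ} (hc : Hj v m j c) (t : R) :
    SupJ v m j (monomial c t) := by
  classical
  intro d hd
  rw [coeff_monomial] at hd
  split_ifs at hd with h
  · rwa [← h]
  · exact absurd rfl hd

lemma supJ_add {v : Fin r → Fin N → ℕ} {m j : ℕ} {p q : MvPolynomial (Fin N) R}
    (hp : SupJ v m j p) (hq : SupJ v m j q) : SupJ v m j (p + q) := by
  intro c hc
  rw [coeff_add] at hc
  by_cases h : coeff c p = 0
  · rw [h, zero_add] at hc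
    exact hq c hc
  · exact hp c h

lemma supJ_zero (v : Fin r → Fin N → ℕ) (m j : ℕ) : SupJ v m j (0 : MvPolynomial (Fin N) R) :=
  fun c hc => absurd (coeff_zero c) hc

lemma supJ_sum {ι : Type} {v : Fin r → Fin N → ℕ} {m j : ℕ} (S : Finset ι)
    (p : ι → MvPolynomial (Fin N) R) (hp : ∀ i ∈ S, SupJ v m j (p i)) :
    SupJ v m j (∑ i ∈ S, p i) := by
  classical
  induction S using Finset.induction_on with
  | empty =>
    rw [Finset.sum_empty]
    exact supJ_zero v m j
  | insert a S ha ih =>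
    rw [Finset.sum_insert ha]
    exact supJ_add (hp a (Finset.mem_insert_self a S))
      (ih fun i hi => hp i (Finset.mem_insert_of_mem hi))

lemma hj_single (v : Fin r → Fin N → ℕ) (i : Fin N) : Hj v 0 1 (Finsupp.single i 1) := by
  refine ⟨0, Finsupp.single i 1, by simp, HulP.zero 0, ?_⟩
  rw [Finset.sum_eq_single i (fun b _ hb => by rw [Finsupp.single_eq_of_ne hb])
    (fun h => absurd (Finset.mem_univ i) h)]
  simp

lemma supJ_X (v : Fin r → Fin N → ℕ) (i : Fin N) : SupJ v 0 1 (X i : MvPolynomial (Fin N) R) :=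
  supJ_monomial (hj_single v i) 1

lemma spa_supP (v : Fin r → Fin N → ℕ) (a : Fin r → R) : SupP v 1 (spa v a) := by
  classical
  intro c hc
  rw [spa_coeff] at hc
  obtain ⟨j, -, hj⟩ := Finset.exists_ne_zero_of_sum_ne_zero hc
  have : c = Finsupp.equivFunOnFinite.symm (v j) := by
    by_contra h
    exact hj (if_neg h)
  rw [this]
  exact HulP.one v j

lemma supJ_euler {v : Fin r → Fin N → ℕ} {m j : ℕ} {p : MvPolynomial (Fin N) R}
    (h : SupJ v m j p) (i : Fin N) : SupJ v m j (X i * pderiv i p) := by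
  intro c hc
  rw [euler_coeff] at hc
  exact h c fun h0 => hc (by rw [h0, mul_zero])

lemma supP_dC {k : Type} [Field k] {v : Fin r → Fin N → ℕ} {m : ℕ}
    {p : MvPolynomial (Fin N) (PowerSeries k)} (h : SupP v m p) : SupP v m (dC p) := by
  intro c hc
  rw [dC_coeff] at hc
  exact h c fun h0 => hc (by rw [h0, map_zero])

lemma supJ_dC {k : Type} [Field k] {v : Fin r → Fin N → ℕ} {m j : ℕ}
    {p : MvPolynomial (Fin N) (PowerSeries k)} (h : SupJ v m j p) : SupJ v m j (dC p) := by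
  intro c hc
  rw [dC_coeff] at hc
  exact h c fun h0 => hc (by rw [h0, map_zero])

/-- the bound of the coordinates -/
noncomputable def bd (v : Fin r → Fin N → ℕ) (m : ℕ) : Fin N →₀ ℕ :=
  Finsupp.equivFunOnFinite.symm fun i => m * ∑ j, v j i

lemma hulP_inf {v : Fin r → Fin N → ℕ} {m : ℕ} {c : Fin N →₀ ℕ} (h : HulP v m c) :
    HulP v m (c ⊓ bd v m) := by
  obtain ⟨l, h1, h2, h3⟩ := h
  refine ⟨l, h1, h2, fun i => ?_⟩
  have hl : ∀ j, l j ≤ m := by
    intro j
    rw [← h2]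
    exact Finset.single_le_sum (fun j _ => h1 j) (Finset.mem_univ j)
  have h4 : ∑ j, l j * (v j i : ℝ) ≤ ((m * ∑ j, v j i : ℕ) : ℝ) := by
    push_cast
    rw [Finset.mul_sum]
    exact Finset.sum_le_sum fun j _ => mul_le_mul_of_nonneg_right (hl j) (Nat.cast_nonneg _)
  have h5 : (c ⊓ bd v m) i = min (c i) (m * ∑ j, v j i) := by
    rw [Finsupp.inf_apply]
    rfl
  rw [h5]
  rcases le_total (c i) (m * ∑ j, v j i) with h | h
  · rw [min_eq_left h]; exact h3 i
  · rw [min_eq_right h]; exact h4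

/-- every element is the sum of a bounded one and a vector of length `j`, or it satisfies
`Hj (j + 1)` -/
lemma hj_cases {v : Fin r → Fin N → ℕ} {m j : ℕ} {c : Fin N →₀ ℕ} (h : Hj v m j c) :
    (∃ c' γ : Fin N →₀ ℕ, c = c' + γ ∧ HulP v m c' ∧ c' ≤ bd v m ∧ ∑ i, γ i = j) ∨
    Hj v m (j + 1) c := by
  obtain ⟨c', γ, rfl, h1, h2⟩ := h
  have e : c' = c' ⊓ bd v m + (c' - c' ⊓ bd v m) := by
    rw [add_tsub_cancel_of_le inf_le_left]
  by_cases h3 : c' - c' ⊓ bd v m = 0 ∧ ∑ i, γ i = j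
  · left
    refine ⟨c', γ, rfl, h1, ?_, h3.2⟩
    have h4 := h3.1
    rw [tsub_eq_zero_iff_le] at h4
    exact h4.trans inf_le_right
  · right
    refine ⟨c' ⊓ bd v m, (c' - c' ⊓ bd v m) + γ, ?_, hulP_inf h1, ?_⟩
    · rw [← add_assoc, ← e]
    · simp only [Finsupp.add_apply, Finset.sum_add_distrib]
      by_cases h4 : ∑ i, γ i = j
      · have h5 : c' - c' ⊓ bd v m ≠ 0 := fun h => h3 ⟨h, h4⟩
        have h6 : 0 < ∑ i, (c' - c' ⊓ bd v m) i := by
          obtain ⟨i, hi⟩ := Finsupp.ne_iff.1 h5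
          have h7 : 0 < (c' - c' ⊓ bd v m) i := Nat.pos_of_ne_zero hi
          exact lt_of_lt_of_le h7
            (Finset.single_le_sum (f := fun i => (c' - c' ⊓ bd v m) i) (fun _ _ => Nat.zero_le _)
              (Finset.mem_univ i))
        omega
      · have : j < ∑ i, γ i := lt_of_le_of_ne h2 (Ne.symm h4)
        omega

end supp

section gens

variable {N r : ℕ}

/-- the generators -/
def Gj (v : Fin r → Fin N → ℕ) (f : MvPolynomial (Fin N) RR) (j : ℕ) : Set (Fn N RR) :=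
  {u | ∃ m c, Hj v m j c ∧ u = brk f (monomial c 1) m}

/-- the generators of bounded degree -/
def GK (v : Fin r → Fin N → ℕ) (f : MvPolynomial (Fin N) RR) (K j : ℕ) : Set (Fn N RR) :=
  {u | ∃ m c, m ≤ K ∧ Hj v m j c ∧ u = brk f (monomial c 1) m}

/-- finitely many generators -/
def GF (v : Fin r → Fin N → ℕ) (f : MvPolynomial (Fin N) RR) (K j : ℕ) : Set (Fn N RR) :=
  {u | ∃ (m : ℕ) (c' γ : Fin N →₀ ℕ), m ≤ K ∧ HulP v m c' ∧ c' ≤ bd v m ∧ ∑ i, γ i = j ∧
    u = brk f (monomial (c' + γ) 1) m}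

lemma GF_finite (v : Fin r → Fin N → ℕ) (f : MvPolynomial (Fin N) RR) (K j : ℕ) :
    (GF v f K j).Finite := by
  have hf : ({m : ℕ | m ≤ K} ×ˢ ({c' : Fin N →₀ ℕ | c' ≤ bd v K} ×ˢ
      {γ : Fin N →₀ ℕ | γ ≤ Finsupp.equivFunOnFinite.symm fun _ => j}) :
      Set (ℕ × (Fin N →₀ ℕ) × (Fin N →₀ ℕ))).Finite :=
    (Set.finite_Iic K).prod ((Set.finite_Iic _).prod (Set.finite_Iic _))
  refine (hf.image fun x => brk f (monomial (x.2.1 + x.2.2) 1) x.1).subset ?_
  rintro u ⟨m, c', γ, hm, -, hc', hγ, rfl⟩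
  refine ⟨(m, c', γ), ⟨hm, ?_, ?_⟩, rfl⟩
  · refine hc'.trans ?_
    intro i
    show m * ∑ j, v j i ≤ K * ∑ j, v j i
    exact Nat.mul_le_mul_right _ hm
  · intro i
    show γ i ≤ j
    rw [← hγ]
    exact Finset.single_le_sum (f := fun i => γ i) (fun _ _ => Nat.zero_le _) (Finset.mem_univ i)

lemma GF_sub (v : Fin r → Fin N → ℕ) (f : MvPolynomial (Fin N) RR) (K j : ℕ) :
    GF v f K j ⊆ GK v f K j := by
  rintro u ⟨m, c', γ, hm, h1, -, h3, rfl⟩
  exact ⟨m, c' + γ, hm, ⟨c', γ, rfl, h1, h3.ge⟩, rfl⟩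

lemma GK_sub (v : Fin r → Fin N → ℕ) (f : MvPolynomial (Fin N) RR) (K j : ℕ) :
    GK v f K j ⊆ GF v f K j ∪ Gj v f (j + 1) := by
  rintro u ⟨m, c, hm, h1, rfl⟩
  rcases hj_cases h1 with ⟨c', γ, rfl, h2, h3, h4⟩ | h2
  · exact Or.inl ⟨m, c', γ, hm, h2, h3, h4, rfl⟩
  · exact Or.inr ⟨m, c, h2, rfl⟩

lemma GK_Gj (v : Fin r → Fin N → ℕ) (f : MvPolynomial (Fin N) RR) (K j : ℕ) :
    GK v f K j ⊆ Gj v f j := by
  rintro u ⟨m, c, -, h1, rfl⟩
  exact ⟨m, c, h1, rfl⟩

lemma brk_zero' (hBRK : TaskBRK) (f : MvPolynomial (Fin N) RR) (m : ℕ) :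
    brk f (0 : MvPolynomial (Fin N) RR) m = 0 := by
  have := hBRK.1 N RR f 0 0 m
  rw [add_zero] at this
  exact left_eq_add.1 this

/-- from monomials to polynomials -/
lemma brk_hmono (hBRK : TaskBRK) (f : MvPolynomial (Fin N) RR) (m : ℕ)
    (S : Submodule (BB N) (Fn N RR)) (Q : (Fin N →₀ ℕ) → Prop)
    (hm : ∀ c, Q c → brk f (monomial c 1) m ∈ S) (p : MvPolynomial (Fin N) RR)
    (hp : ∀ c, coeff c p ≠ 0 → Q c) : brk f p m ∈ S := by
  classical
  obtain ⟨hA, hC, -⟩ := id hBRK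
  have hsum : ∀ T : Finset (Fin N →₀ ℕ), (∀ c ∈ T, Q c) → ∀ g : (Fin N →₀ ℕ) → RR,
      brk f (∑ c ∈ T, monomial c (g c)) m ∈ S := by
    intro T
    induction T using Finset.induction_on with
    | empty => intro _ g; rw [Finset.sum_empty, brk_zero' hBRK]; exact zero_mem _
    | insert c T hc ih =>
      intro hS g
      rw [Finset.sum_insert hc, hA]
      refine add_mem ?_ (ih (fun c' h' => hS c' (Finset.mem_insert_of_mem h')) g)
      have : (monomial c (g c) : MvPolynomial (Fin N) RR) = C (g c) * monomial c 1 := by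
        rw [C_mul_monomial, mul_one]
      rw [this, hC]
      exact Submodule.smul_mem _ _ (hm c (hS c (Finset.mem_insert_self _ _)))
  rw [p.as_sum]
  exact hsum p.support (fun c hc => hp c (mem_support_iff.1 hc)) _

lemma brk_sum (hBRK : TaskBRK) (f : MvPolynomial (Fin N) RR) (m : ℕ) {ι : Type} (S : Finset ι)
    (p : ι → MvPolynomial (Fin N) RR) : brk f (∑ i ∈ S, p i) m = ∑ i ∈ S, brk f (p i) m := by
  classical
  induction S using Finset.induction_on with
  | empty => rw [Finset.sum_empty, Finset.sum_empty, brk_zero' hBRK]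
  | insert a S ha ih => rw [Finset.sum_insert ha, Finset.sum_insert ha, hBRK.1, ih]

lemma brk_span (hBRK : TaskBRK) (v : Fin r → Fin N → ℕ) (f : MvPolynomial (Fin N) RR) (m j : ℕ)
    (p : MvPolynomial (Fin N) RR) (hp : SupJ v m j p) :
    brk f p m ∈ Submodule.span (BB N) (Gj v f j) :=
  brk_hmono hBRK f m (Submodule.span (BB N) (Gj v f j)) (Hj v m j)
    (fun c hc => Submodule.subset_span (show brk f (monomial c 1) m ∈ Gj v f j from
      ⟨m, c, hc, rfl⟩)) p hp

lemma rl3 {S : Type} [CommRing S] {N : ℕ} (x p0 f : S) (p g q y : Fin N → S) :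
    x * (p0 * f + ∑ i, p i * g i + ∑ i, y i * q i) =
      (x * p0) * f + ∑ i, (x * p i) * g i + ∑ i, y i * (x * q i) := by
  rw [mul_add, mul_add, Finset.mul_sum, Finset.mul_sum, mul_assoc]
  congr 1
  · congr 1
    exact Finset.sum_congr rfl fun i _ => (mul_assoc _ _ _).symm
  · exact Finset.sum_congr rfl fun i _ => by rw [mul_left_comm]

lemma brk_memJ (hBRK : TaskBRK) (v : Fin r → Fin N → ℕ) (f : MvPolynomial (Fin N) RR) (K : ℕ)
    (hgen : GenP v f K) (j m : ℕ) : ∀ p : MvPolynomial (Fin N) RR, SupJ v m j p →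
      brk f p m ∈ Submodule.span (BB N) (GK v f K j) ⊔ Submodule.span (BB N) (Gj v f (j + 1)) := by
  classical
  obtain ⟨hA, hC, hF, hX, -, -⟩ := id hBRK
  induction m with
  | zero =>
    refine fun p hp => brk_hmono hBRK f 0 _ (Hj v 0 j) (fun c hc => ?_) p hp
    exact Submodule.mem_sup_left (Submodule.subset_span
      (show brk f (monomial c 1) 0 ∈ GK v f K j from ⟨0, c, Nat.zero_le _, hc, rfl⟩))
  | succ m ih =>
    refine fun p hp => brk_hmono hBRK f (m + 1) _ (Hj v (m + 1) j) (fun c hc => ?_) p hp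
    rcases le_or_gt (m + 1) K with hK | hK
    · exact Submodule.mem_sup_left (Submodule.subset_span
        (show brk f (monomial c 1) (m + 1) ∈ GK v f K j from ⟨m + 1, c, hK, hc, rfl⟩))
    · obtain ⟨c', γ, rfl, h1, h2⟩ := hc
      obtain ⟨p0, p, q, hp0, hp, hq, he⟩ := hgen m (by omega) c' h1
      have hγ : SupJ v 0 j (monomial γ (1 : RR)) :=
        supJ_monomial ⟨0, γ, by simp, HulP.zero 0, h2⟩ 1
      have hs : ∀ (m' : ℕ) (g : MvPolynomial (Fin N) RR), SupP v m' g →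
          SupJ v m' j (monomial γ (1 : RR) * g) := by
        intro m' g hg
        have := supJ_mul hγ (SupJ.of hg)
        rwa [zero_add, add_zero] at this
      have e : (monomial (c' + γ) (1 : RR) : MvPolynomial (Fin N) RR) =
          (monomial γ 1 * p0) * f + ∑ i, (monomial γ 1 * p i) * (X i * pderiv i f) +
            ∑ i, X i * (monomial γ 1 * q i) := by
        have h3 : (monomial (c' + γ) (1 : RR) : MvPolynomial (Fin N) RR) =
            monomial γ 1 * monomial c' 1 := by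
          rw [monomial_mul, mul_one, add_comm]
        exact h3.trans ((congrArg (fun t => monomial γ (1 : RR) * t) he).trans
          (rl3 (monomial γ 1) p0 f p (fun i => X i * pderiv i f) q (fun i => X i)))
      rw [e, hA, hA]
      refine add_mem (add_mem ?_ ?_) ?_
      · rw [hF]
        exact Submodule.smul_mem _ _ (ih _ (hs m p0 hp0))
      · rw [brk_sum hBRK]
        refine sum_mem fun i _ => ?_
        have h1 := hX N RR f (monomial γ 1 * p i) i m
        have h2 : brk f ((monomial γ 1 * p i) * (X i * pderiv i f)) (m + 1) =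
            (X (some i) : BB N) • brk f (monomial γ 1 * p i) m -
              brk f (X i * pderiv i (monomial γ 1 * p i)) m := by
          rw [h1]; abel
        rw [h2]
        exact sub_mem (Submodule.smul_mem _ _ (ih _ (hs m _ (hp i))))
          (ih _ (supJ_euler (hs m _ (hp i)) i))
      · rw [brk_sum hBRK]
        refine sum_mem fun i _ => Submodule.mem_sup_right (brk_span hBRK v f _ _ _ ?_)
        have h3 := supJ_mul (supJ_X (R := RR) v i) (hs (m + 1) _ (hq i))
        rwa [zero_add, add_comm 1 j] at h3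

/-- the span of the finite sets -/
noncomputable def FF (v : Fin r → Fin N → ℕ) (f : MvPolynomial (Fin N) RR) (K k : ℕ) :
    Submodule (BB N) (Fn N RR) := Submodule.span (BB N) (⋃ j ∈ Set.Iio k, GF v f K j)

lemma FF_fg (v : Fin r → Fin N → ℕ) (f : MvPolynomial (Fin N) RR) (K k : ℕ) :
    (FF v f K k).FG :=
  Submodule.fg_span ((Set.finite_Iio k).biUnion fun j _ => GF_finite v f K j)

lemma span_step (hBRK : TaskBRK) (v : Fin r → Fin N → ℕ) (f : MvPolynomial (Fin N) RR) (K : ℕ)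
    (hgen : GenP v f K) (j : ℕ) : Submodule.span (BB N) (Gj v f j) ≤
      Submodule.span (BB N) (GF v f K j) ⊔ Submodule.span (BB N) (Gj v f (j + 1)) := by
  rw [Submodule.span_le]
  rintro u ⟨m, c, hc, rfl⟩
  have h1 := brk_memJ hBRK v f K hgen j m _ (supJ_monomial (R := RR) hc 1)
  refine (sup_le ?_ le_sup_right : Submodule.span (BB N) (GK v f K j) ⊔
    Submodule.span (BB N) (Gj v f (j + 1)) ≤ _) h1
  rw [← Submodule.span_union]
  exact Submodule.span_mono (GK_sub v f K j)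

lemma span_all (hBRK : TaskBRK) (v : Fin r → Fin N → ℕ) (f : MvPolynomial (Fin N) RR) (K : ℕ)
    (hgen : GenP v f K) (k : ℕ) : Submodule.span (BB N) (Gj v f 0) ≤
      FF v f K k ⊔ Submodule.span (BB N) (Gj v f k) := by
  induction k with
  | zero => exact le_sup_right
  | succ k ih =>
    refine ih.trans (sup_le ?_ ((span_step hBRK v f K hgen k).trans (sup_le ?_ le_sup_right)))
    · refine le_sup_of_le_left (Submodule.span_mono ?_)
      exact Set.biUnion_subset_biUnion_left fun j hj => lt_trans hj (Nat.lt_succ_self k)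
    · refine le_sup_of_le_left (Submodule.span_mono ?_)
      exact Set.subset_biUnion_of_mem (u := fun j => GF v f K j) (Set.mem_Iio.2 (Nat.lt_succ_self k))

lemma Gj_nab (hBRK : TaskBRK) (v : Fin r → Fin N → ℕ) (a' : Fin r → RR) (j : ℕ)
    (x : Fn N RR) (hx : x ∈ Gj v (spa v a') j) :
    nab x ∈ Submodule.span (BB N) (Gj v (spa v a') j) := by
  obtain ⟨m, c, hc, rfl⟩ := hx
  rw [hBRK.2.2.2.2.2]
  have h1 : SupJ v m j (monomial c (1 : RR)) := supJ_monomial hc 1
  refine add_mem (brk_span hBRK v _ m j _ (supJ_dC h1)) (brk_span hBRK v _ (m + 1) j _ ?_)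
  have := supJ_mul h1 (SupJ.of (supP_dC (spa_supP v a')))
  rwa [add_zero] at this

end gens

end Pool.Agent.Y229.CF
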