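import Pool.Agent.Y229.CF.D1

set_option autoImplicit false

/-! Part DEFP: the deformation theorem, the submodules and one generator. -/

namespace Pool.Agent.Y229.CF

open MvPolynomial Pool.Agent.W425.ND Pool.Agent.W425.ND.DefThm

variable {N r : ℕ}

/-- the submodule of the terms which will be killed -/
noncomputable def WW (v : Fin r → Fin N → ℕ) (f : MvPolynomial (Fin N) RR) (L k : ℕ) :
    Submodule (BB N) (Fn N RR) :=
  SA {a | a.2 = L + 1} (Gj v f 0) ⊔ SA {((0 : Fin N → ℤ), L)} (Gj v f 1) ⊔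
    Submodule.span (BB N) (Gj v f k)

lemma step' (hALG : TaskALG) (hBRK : TaskBRK) (hR1 : TaskREP1) (hR2 : TaskREP2)
    (v : Fin r → Fin N → ℕ) (f' : MvPolynomial (Fin N) RR)
    (hf : map PowerSeries.constantCoeff f' ≠ 0) (B : Polynomial ℂ) (m : ℕ)
    (c : Fin N →₀ ℕ) (hc : HulP v m c)
    (hs : SpecAt True (map PowerSeries.constantCoeff f') B c m) :
    ∃ L0 : ℕ, ∀ L, L0 ≤ L → ∀ k,
        ∃ w ∈ WW v f' L k, ∃ z ∈ Submodule.span (BB N) (Gj v f' 0),
        shA L (Bop B : BB N) • sh L (brk f' (monomial c 1) m) =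
          w + (C PowerSeries.X : BB N) • z := by
  classical
  obtain ⟨n, n0, δ, P, δ0, α, hδ0, heq⟩ := hs
  set x := brk f' (monomial c 1) m with hx
  set P' : Fin n → BB N := fun k => map PowerSeries.C (P k) with hP'
  set Q : Fin n0 → BB N := fun k => map PowerSeries.C (C (α k) * Bop B) with hQ
  set S1 : Fn N RR := ∑ k, low (δ k) (P' k • sh 1 (brk f' 1 0)) with hS1
  set S2 : Fn N RR := ∑ k, low (δ0 k) (Q k • x) with hS2
  set w : Fn N RR := (Bop B : BB N) • x + (-1 : BB N) • (S1 + S2) with hw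
  -- representations
  obtain ⟨r1, r2, r3, r4, r5⟩ := hR1 N RR f'
  have hwrep : IsRep f' w := by
    refine r2 _ _ (r3 _ _ (r1 _ _)) (r3 _ _ (r2 _ _ ?_ ?_))
    · exact isRep_sum hR1 f' _ _ fun k => r4 _ _ (r3 _ _ (r5 _ _ (r1 _ _)))
    · exact isRep_sum hR1 f' _ _ fun k => r4 _ _ (r3 _ _ (r1 _ _))
  -- vanishing
  have hmono : map (PowerSeries.constantCoeff : RR →+* ℂ) (monomial c (1 : RR)) =
      (monomial c (1 : ℂ) : MvPolynomial (Fin N) ℂ) := by
    rw [map_monomial, map_one (PowerSeries.constantCoeff : RR →+* ℂ)]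
  have hw0 : mp (PowerSeries.constantCoeff : RR →+* ℂ) w = 0 := by
    rw [hw, mp_add, mp_smul, mp_smul, mp_add, hS1, hS2, mp_sum, mp_sum, ← map_Bop, map_cc, hx,
      mp_brk, hmono, heq]
    have e1 : ∀ k, mp (PowerSeries.constantCoeff : RR →+* ℂ)
        (low (δ k) (P' k • sh 1 (brk f' 1 0))) =
        low (δ k) (P k • sh 1 (brk (map PowerSeries.constantCoeff f') 1 0)) := by
      intro k
      rw [mp_low, mp_smul, hP', map_cc, mp_sh, mp_brk,
        map_one (map (PowerSeries.constantCoeff : RR →+* ℂ))]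
    have e2 : ∀ k, mp (PowerSeries.constantCoeff : RR →+* ℂ)
        (low (δ0 k) (Q k • brk f' (monomial c 1) m)) =
        low (δ0 k) ((C (α k) * Bop B : MvPolynomial (Option (Fin N)) ℂ) •
          brk (map PowerSeries.constantCoeff f') (monomial c 1) m) := by
      intro k
      rw [mp_low, mp_smul, hQ, map_cc, mp_brk, hmono]
    simp only [e1, e2]
    rw [map_neg, map_one (map (PowerSeries.constantCoeff : RR →+* ℂ)), neg_smul, one_smul,
      add_neg_cancel]
  obtain ⟨z, hz, L0, n', c', P'', hsh⟩ := hR2 N ℂ f' hf w hwrep fun s e =>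
    congrFun (congrFun hw0 s) e
  have hz' : w = (C PowerSeries.X : BB N) • z := by
    funext s e
    rw [smul_X_apply, hz]
  obtain ⟨a1, a2, a3, a4, a5, a6, -⟩ := id hALG
  have h10 : brk f' 1 0 ∈ Gj v f' 0 := ⟨0, 0, Hj.of (HulP.zero 0), rfl⟩
  refine ⟨L0, fun L hL k => ?_⟩
  obtain ⟨j, rfl⟩ := Nat.exists_eq_add_of_le hL
  refine ⟨sh (L0 + j) (S1 + S2), ?_, sh (L0 + j) z, ?_, ?_⟩
  · unfold WW
    refine Submodule.mem_sup_left ?_
    rw [a4, hS1, hS2, sh_sum hALG, sh_sum hALG]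
    refine Submodule.add_mem_sup (sum_mem fun k _ => ?_) (sum_mem fun k _ => ?_)
    · rw [a5, a6, a2]
      apply Submodule.smul_mem
      exact SA.mem (A := {a | a.2 = L0 + j + 1}) (a := (δ k, L0 + j + 1)) rfl h10
    · rw [a5, a6, a2]
      apply Submodule.smul_mem
      obtain ⟨-, hle, hne⟩ := hδ0 k
      have e1 : δ0 k = fun i => -((Finsupp.equivFunOnFinite.symm
          (fun i => (-(δ0 k i)).toNat) : Fin N →₀ ℕ) i : ℤ) := by
        funext i
        rw [Finsupp.equivFunOnFinite_symm_apply_apply, Int.toNat_of_nonneg (by have := hle i; omega)]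
        ring
      rw [← a5, hx, e1, hBRK.2.2.2.2.1, monomial_mul, mul_one, ← low_zero (sh (L0 + j) _)]
      refine SA.mem (A := {((0 : Fin N → ℤ), L0 + j)}) (a := ((0 : Fin N → ℤ), L0 + j)) rfl ?_
      refine ⟨m, _, ⟨c, _, add_comm _ _, hc, ?_⟩, rfl⟩
      obtain ⟨i, hi⟩ := Function.ne_iff.1 hne
      have h1 := hle i
      have h2 : δ0 k i ≠ 0 := hi
      have h3 : 1 ≤ (Finsupp.equivFunOnFinite.symm
          (fun i => (-(δ0 k i)).toNat) : Fin N →₀ ℕ) i := by
        rw [Finsupp.equivFunOnFinite_symm_apply_apply]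
        omega
      exact h3.trans (Finset.single_le_sum (f := fun i => (Finsupp.equivFunOnFinite.symm
          (fun i => (-(δ0 k i)).toNat) : Fin N →₀ ℕ) i) (fun _ _ => Nat.zero_le _)
        (Finset.mem_univ i))
  · rw [sh_add, hsh, sh_sum hALG]
    refine sum_mem fun k _ => ?_
    rw [a5, a6, a2, sh_brk]
    apply Submodule.smul_mem
    rw [hBRK.2.2.2.2.1]
    exact brk_span hBRK v f' 0 0 _ fun c _ => Hj.of (HulP.zero c)
  · have h1 : (Bop B : BB N) • x = (S1 + S2) + (C PowerSeries.X : BB N) • z := by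
      rw [← hz', hw, neg_smul, one_smul]; abel
    rw [← a6, h1, a4]
    congr 1
    funext s e
    rw [smul_X_apply]
    show ((C PowerSeries.X : BB N) • z) (s + (L0 + j)) e = _
    rw [smul_X_apply]
    rfl

end Pool.Agent.Y229.CF
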