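import Pool.Agent.Y229.CF.D2

set_option autoImplicit false

/-! Part DEFP: the deformation theorem. -/

namespace Pool.Agent.Y229.CF

open MvPolynomial Pool.Agent.W425.ND Pool.Agent.W425.ND.DefThm

variable {N r : ℕ}

lemma sh_brk_mem (hALG : TaskALG) (hBRK : TaskBRK) (v : Fin r → Fin N → ℕ)
    (f : MvPolynomial (Fin N) RR) (p : MvPolynomial (Fin N) RR) (m L : ℕ) (hm : m ≤ L) :
    sh L (brk f p m) ∈ Submodule.span (BB N) (Gj v f 0) := by
  have h1 : sh L (brk f p m) = (∏ i ∈ Finset.range m, (X none + C (((L - i : ℕ) : ℕ) : RR) :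
      BB N)) • brk f (p * f ^ (L - m)) 0 := by
    funext s e
    rw [Pool.Agent.W425.ND.smul_apply, map_prod]
    have h2 : ∏ i ∈ Finset.range m, eval (ev s e) (X none + C (((L - i : ℕ) : ℕ) : RR) : BB N) =
        (((s + L).descFactorial m : ℕ) : RR) := by
      rw [Nat.descFactorial_eq_prod_range]
      push_cast
      refine Finset.prod_congr rfl fun i hi => ?_
      have hi' : i < m := Finset.mem_range.1 hi
      rw [map_add, eval_X, eval_C]
      have h3 : s + L - i = s + (L - i) := by omega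
      rw [h3]
      push_cast
      rfl
    rw [h2]
    show coeff e (p * (((s + L).descFactorial m : ℕ) : MvPolynomial (Fin N) RR) *
      f ^ (s + L - m)) = _ * coeff e (p * f ^ (L - m) * ((s.descFactorial 0 : ℕ) :
        MvPolynomial (Fin N) RR) * f ^ (s - 0))
    have h4 : p * (((s + L).descFactorial m : ℕ) : MvPolynomial (Fin N) RR) *
        f ^ (s + L - m) = C (((s + L).descFactorial m : ℕ) : RR) *
          (p * f ^ (L - m) * ((s.descFactorial 0 : ℕ) : MvPolynomial (Fin N) RR) *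
            f ^ (s - 0)) := by
      have h5 : s + L - m = (L - m) + s := by omega
      rw [Nat.descFactorial_zero, Nat.cast_one, mul_one, Nat.sub_zero, h5, pow_add,
        ← map_natCast (C (σ := Fin N) (R := RR)) ((s + L).descFactorial m), mul_comm p (C _),
        mul_assoc (C _) p, ← mul_assoc p (f ^ (L - m))]
    rw [h4, coeff_C_mul]
  rw [h1]
  exact Submodule.smul_mem _ _ (brk_span hBRK v f 0 0 _ fun c _ => Hj.of (HulP.zero c))

lemma nab_zero' (hALG : TaskALG) : nab (0 : Fn N RR) = 0 := by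
  have := hALG.2.2.2.2.2.2.2.1 N ℂ (0 : Fn N RR) 0
  rw [add_zero] at this
  exact left_eq_add.1 this

/-- sums of stable submodules are stable -/
lemma nab_sup (hALG : TaskALG) (S T : Submodule (BB N) (Fn N RR)) (hS : ∀ x ∈ S, nab x ∈ S ⊔ T)
    (hT : ∀ x ∈ T, nab x ∈ S ⊔ T) : ∀ x ∈ S ⊔ T, nab x ∈ S ⊔ T := by
  intro x hx
  obtain ⟨y, hy, z, hz, rfl⟩ := Submodule.mem_sup.1 hx
  rw [hALG.2.2.2.2.2.2.2.1 N ℂ y z]
  exact add_mem (hS y hy) (hT z hz)

/-- spans are stable -/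
lemma nab_span (hALG : TaskALG) (G : Set (Fn N RR)) (S : Submodule (BB N) (Fn N RR))
    (hGS : G ⊆ S) (hG : ∀ x ∈ G, nab x ∈ S) : ∀ x ∈ Submodule.span (BB N) G, nab x ∈ S := by
  intro x hx
  induction hx using Submodule.span_induction with
  | mem x hx => exact hG x hx
  | zero => rw [nab_zero' hALG]; exact zero_mem _
  | add x y _ _ hx hy => rw [hALG.2.2.2.2.2.2.2.1 N ℂ x y]; exact add_mem hx hy
  | smul q x hx' hx =>
    rw [hALG.2.2.2.2.2.2.2.2.1 N ℂ q x]
    exact add_mem (Submodule.smul_mem _ _ hx)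
      (Submodule.smul_mem _ _ (Submodule.span_le.2 hGS hx'))

lemma WW_nab (hALG : TaskALG) (hBRK : TaskBRK) (v : Fin r → Fin N → ℕ) (a' : Fin r → RR)
    (L k : ℕ) : ∀ x ∈ WW v (spa v a') L k, nab x ∈ WW v (spa v a') L k := by
  have hnadd : ∀ u w : Fn N RR, nab (u + w) = nab u + nab w :=
    fun u w => hALG.2.2.2.2.2.2.2.1 N ℂ u w
  have hnsm : ∀ (p : BB N) (u : Fn N RR), nab (p • u) = p • nab u + dC p • u :=
    fun p u => hALG.2.2.2.2.2.2.2.2.1 N ℂ p u
  have hstab : ∀ (A : Set ((Fin N → ℤ) × ℕ)) (j : ℕ), ∀ x ∈ SA A (Gj v (spa v a') j),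
      nab x ∈ SA A (Gj v (spa v a') j) := fun A j x hx =>
    Sp.nab_mem hnadd hnsm _ (SA.good hALG A) _ (fun x hx => Gj_nab hBRK v a' j x hx) x hx
  have h1 : ∀ x ∈ SA {a | a.2 = L + 1} (Gj v (spa v a') 0) ⊔
      SA {((0 : Fin N → ℤ), L)} (Gj v (spa v a') 1),
      nab x ∈ SA {a | a.2 = L + 1} (Gj v (spa v a') 0) ⊔
        SA {((0 : Fin N → ℤ), L)} (Gj v (spa v a') 1) :=
    nab_sup hALG _ _ (fun x hx => Submodule.mem_sup_left (hstab _ _ x hx))
      (fun x hx => Submodule.mem_sup_right (hstab _ _ x hx))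
  unfold WW
  exact nab_sup hALG _ _ (fun x hx => Submodule.mem_sup_left (h1 x hx))
    (fun x hx => Submodule.mem_sup_right (nab_span hALG _ _ Submodule.subset_span
      (fun x hx => Gj_nab hBRK v a' k x hx) x hx))

/-- the submodule of the generators, shifted -/
noncomputable def Z0 (v : Fin r → Fin N → ℕ) (f : MvPolynomial (Fin N) RR) (K L k : ℕ) :
    Submodule (BB N) (Fn N RR) :=
  SA {((0 : Fin N → ℤ), L)} (GF v f K 0) ⊔ WW v f L k

lemma Z0_nab (hALG : TaskALG) (hBRK : TaskBRK) (v : Fin r → Fin N → ℕ) (a' : Fin r → RR)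
    (K L k : ℕ) (hgen : GenP v (spa v a') K) :
    ∀ x ∈ Z0 v (spa v a') K L k, nab x ∈ Z0 v (spa v a') K L k := by
  unfold Z0
  refine nab_sup hALG _ _ (fun x hx => ?_) fun x hx =>
    Submodule.mem_sup_right (WW_nab hALG hBRK v a' L k x hx)
  refine nab_span hALG _ _ (fun y hy => Submodule.mem_sup_left (Submodule.subset_span hy))
    (fun y hy => ?_) x hx
  obtain ⟨T, ⟨a, ha, rfl⟩, g, hg, rfl⟩ := hy
  rw [Set.mem_singleton_iff] at ha
  subst ha
  have hop : Good (op ((0 : Fin N → ℤ), L)) := good_op hALG _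
  rw [hop.2.2.2]
  have h1 : nab g ∈ Submodule.span (BB N) (Gj v (spa v a') 0) :=
    Gj_nab hBRK v a' 0 g (GK_Gj v _ K 0 (GF_sub v _ K 0 hg))
  obtain ⟨y1, hy1, y2, hy2, he⟩ := Submodule.mem_sup.1 (span_step hBRK v _ K hgen 0 h1)
  rw [← he, hop.1]
  have hm : op ((0 : Fin N → ℤ), L) ∈ op '' {((0 : Fin N → ℤ), L)} :=
    Set.mem_image_of_mem _ (Set.mem_singleton _)
  refine add_mem (Submodule.mem_sup_left (hop.span _ hm _ _ hy1))
    (Submodule.mem_sup_right ?_)
  unfold WW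
  exact Submodule.mem_sup_left (Submodule.mem_sup_right (hop.span _ hm _ _ hy2))

lemma Z0_le (hALG : TaskALG) (hBRK : TaskBRK) (v : Fin r → Fin N → ℕ)
    (f : MvPolynomial (Fin N) RR) (K L k : ℕ) (hKL : K ≤ L) :
    Z0 v f K L k ≤ Submodule.span (BB N) (Gj v f 0) ⊔ WW v f L k := by
  unfold Z0
  refine sup_le_sup_right ?_ _
  refine Submodule.span_le.2 ?_
  rintro _ ⟨T, ⟨a, ha, rfl⟩, g, ⟨m, c', γ, hm, -, -, -, rfl⟩, rfl⟩
  rw [Set.mem_singleton_iff] at ha
  subst ha
  show low 0 (sh L _) ∈ _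
  rw [low_zero]
  exact sh_brk_mem hALG hBRK v f _ m L (hm.trans hKL)

/-- the membership -/
theorem def_mem (hCN : TaskCNP) (hALG : TaskALG) (hBRK : TaskBRK) (hR1 : TaskREP1)
    (hR2 : TaskREP2) (v : Fin r → Fin N → ℕ) (a' : Fin r → RR)
    (hf : map PowerSeries.constantCoeff (spa v a') ≠ 0) (K : ℕ)
    (hgen : GenP v (spa v a') K) (B : Polynomial ℂ)
    (hspec : ∀ m c, m ≤ K → HulP v m c →
      SpecAt True (map PowerSeries.constantCoeff (spa v a')) B c m) :
    ∃ L, ∀ k, (shA L (Bop B : BB N)) • sh L (brk (spa v a') 1 0) ∈ WW v (spa v a') L k := by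
  classical
  set f' := spa v a' with hf'
  have hst : ∀ g : GF v f' K 0, ∃ L0 : ℕ, ∀ L, L0 ≤ L → ∀ k,
        ∃ w ∈ WW v f' L k, ∃ z ∈ Submodule.span (BB N) (Gj v f' 0),
        shA L (Bop B : BB N) • sh L (g : Fn N RR) = w + (C PowerSeries.X : BB N) • z := by
    rintro ⟨g, hg⟩
    obtain ⟨m, c, hm, hc, rfl⟩ := GF_sub v f' K 0 hg
    exact step' hALG hBRK hR1 hR2 v f' hf B m c hc.hul (hspec m c hm hc.hul)
  choose L0 hL0 using hst
  have hGf : Finite (GF v f' K 0) := (GF_finite v f' K 0).to_subtype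
  obtain ⟨L1, hL1⟩ : ∃ L, ∀ g, L0 g ≤ L := by
    obtain ⟨L, hL⟩ := (Set.finite_range L0).bddAbove
    exact ⟨L, fun g => hL ⟨g, rfl⟩⟩
  set L := max L1 K with hL
  refine ⟨L, fun k => ?_⟩
  have hnadd : ∀ u w : Fn N RR, nab (u + w) = nab u + nab w :=
    fun u w => hALG.2.2.2.2.2.2.2.1 N ℂ u w
  have hnsm : ∀ (p : BB N) (u : Fn N RR), nab (p • u) = p • nab u + dC p • u :=
    fun p u => hALG.2.2.2.2.2.2.2.2.1 N ℂ p u
  have key := hCN ℂ (Option (Fin N)) (Fn N RR)
    { toFun := nab, map_zero' := nab_zero' hALG, map_add' := hnadd } hnsm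
    (Submodule.span (BB N) (Gj v f' 0) ⊔ WW v f' L k) (WW v f' L k) (Z0 v f' K L k)
    (FF v f' K k) (FF_fg v f' K k) le_sup_right (Z0_le hALG hBRK v f' K L k (le_max_right _ _))
    (sup_le ((span_all hBRK v f' K hgen k).trans (sup_le_sup_left (by
      unfold WW
      exact le_sup_right) _)) le_sup_right)
    (nab_sup hALG _ _ (fun x hx => Submodule.mem_sup_left
        (nab_span hALG _ _ Submodule.subset_span (fun x hx => Gj_nab hBRK v a' 0 x hx) x hx))
      fun x hx => Submodule.mem_sup_right (WW_nab hALG hBRK v a' L k x hx))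
    (WW_nab hALG hBRK v a' L k) (Z0_nab hALG hBRK v a' K L k hgen) (shA L (Bop B)) (by
      intro x hx
      rw [map_shA, map_Bop]
      unfold Z0 at hx
      obtain ⟨x1, hx1, x2, hx2, rfl⟩ := Submodule.mem_sup.1 hx
      have h1 : ∃ w ∈ WW v f' L k, ∃ z ∈ Submodule.span (BB N) (Gj v f' 0) ⊔ WW v f' L k,
          (shA L (Bop B : BB N)) • x1 = w + (C PowerSeries.X : BB N) • z := by
        clear hx
        unfold SA Sp at hx1
        induction hx1 using Submodule.span_induction with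
        | mem x hx =>
          obtain ⟨_, ⟨a, ha, rfl⟩, g, hg, rfl⟩ := hx
          rw [Set.mem_singleton_iff] at ha
          subst ha
          obtain ⟨w, hwm, z, hzm, he⟩ := hL0 ⟨g, hg⟩ L ((hL1 _).trans (le_max_left _ _)) k
          refine ⟨w, hwm, z, Submodule.mem_sup_left hzm, ?_⟩
          rw [← he]
          show _ • low 0 (sh L g) = _
          rw [low_zero]
        | zero => exact ⟨0, zero_mem _, 0, zero_mem _, by rw [smul_zero, smul_zero, add_zero]⟩
        | add x y hx0 hy0 hx hy =>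
          obtain ⟨w, hw, z, hz, he⟩ := hx
          obtain ⟨w', hw', z', hz', he'⟩ := hy
          refine ⟨w + w', add_mem hw hw', z + z', add_mem hz hz', ?_⟩
          rw [smul_add, he, he', smul_add]; abel
        | smul q x hx0 hx =>
          obtain ⟨w, hw, z, hz, he⟩ := hx
          refine ⟨q • w, Submodule.smul_mem _ _ hw, q • z, Submodule.smul_mem _ _ hz, ?_⟩
          rw [smul_comm, he, smul_add, smul_comm q]
      obtain ⟨w, hw, z, hz, he⟩ := h1
      refine ⟨w + shA L (Bop B : BB N) • x2, add_mem hw (Submodule.smul_mem _ _ hx2), z, hz, ?_⟩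
      rw [smul_add, he]; abel)
  have h10 : brk f' 1 0 ∈ GF v f' K 0 :=
    ⟨0, 0, 0, Nat.zero_le _, HulP.zero 0, bot_le, by simp, by rw [add_zero]; rfl⟩
  have hx0 : low 0 (sh L (brk f' 1 0)) ∈ Z0 v f' K L k :=
    Submodule.mem_sup_left (SA.mem (A := {((0 : Fin N → ℤ), L)})
      (a := ((0 : Fin N → ℤ), L)) rfl h10)
  have hfin := key _ hx0
  rwa [map_shA, map_Bop, low_zero] at hfin

end Pool.Agent.Y229.CF
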