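import Pool.Agent.Y229.CF.D3

set_option autoImplicit false

/-! Part DEFP: the deformation theorem, the final relation. -/

namespace Pool.Agent.Y229.CF

open MvPolynomial Pool.Agent.W425.ND Pool.Agent.W425.ND.DefThm

variable {N r : ℕ}

/-- the submodule of the sums of terms of the three kinds -/
noncomputable def RS (T : ℕ → (Fin N → ℤ) → (Fin N →₀ ℕ) → ℕ → Prop)
    (f : MvPolynomial (Fin N) RR) : Submodule (BB N) (Fn N RR) :=
  Submodule.span (BB N)
    {y | ∃ t δ c m, T t δ c m ∧ y = low δ (sh t (brk f (monomial c 1) m))}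

lemma RS_rep (hALG : TaskALG) (T : ℕ → (Fin N → ℤ) → (Fin N →₀ ℕ) → ℕ → Prop)
    (f : MvPolynomial (Fin N) RR) (y : Fn N RR) (hy : y ∈ RS T f) :
    ∃ (n : ℕ) (t : Fin n → ℕ) (δ : Fin n → Fin N → ℤ) (c : Fin n → Fin N →₀ ℕ) (m : Fin n → ℕ)
      (P : Fin n → BB N), (∀ k, T (t k) (δ k) (c k) (m k)) ∧
      y = ∑ k, low (δ k) (P k • sh (t k) (brk f (monomial (c k) 1) (m k))) := by
  unfold RS at hy
  rw [Submodule.mem_span_set'] at hy
  obtain ⟨n, q, g, rfl⟩ := hy
  have hg := fun k => (g k).2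
  choose t δ c m hT he using hg
  refine ⟨n, t, δ, c, m, fun k => trA (fun i => -δ k i) (q k), hT, ?_⟩
  refine Finset.sum_congr rfl fun k _ => ?_
  rw [← hALG.2.2.1, ← he]

lemma dL_eval (L t : ℕ) : (dL L).eval ((t + L : ℕ) : ℂ) = (((t + L).descFactorial L : ℕ) : ℂ) := by
  unfold dL
  rw [Polynomial.eval_prod, Nat.descFactorial_eq_prod_range]
  push_cast
  refine Finset.prod_congr rfl fun i hi => ?_
  have hi' : i < L := Finset.mem_range.1 hi
  rw [Polynomial.eval_sub, Polynomial.eval_X, Polynomial.eval_C]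
  have h : t + L - i + i = t + L := by omega
  have h2 : (((t + L - i : ℕ) : ℂ)) + (i : ℂ) = (t : ℂ) + (L : ℂ) := by exact_mod_cast h
  rw [← h2]; ring

lemma eval_shA {R : Type} [CommRing R] (L t : ℕ) (e : Fin N →₀ ℕ)
    (q : MvPolynomial (Option (Fin N)) R) :
    eval (ev t e) (shA L q) = eval (ev (t + L) e) q := by
  induction q using MvPolynomial.induction_on with
  | C a => simp [shA]
  | add p q hp hq => rw [map_add, map_add, hp, hq, map_add]
  | mul_X p o hp =>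
    rw [map_mul, map_mul, hp, map_mul]
    congr 1
    cases o <;> simp [shA, ev]

lemma eval_shA_Bop (L : ℕ) (B : Polynomial ℂ) (t : ℕ) (e : Fin N →₀ ℕ) :
    eval (ev t e) (shA L (Bop B : BB N)) = algebraMap ℂ RR (B.eval ((t + L : ℕ) : ℂ)) :=
  (eval_shA L t e (Bop B : BB N)).trans (eval_Bop (R := RR) B (t + L) e)

lemma mul_dL (f : MvPolynomial (Fin N) RR) (p : MvPolynomial (Fin N) RR) (m L : ℕ) :
    shA L (Bop (dL L) : BB N) • brk f p m = sh L (brk f p (m + L)) := by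
  funext t e
  rw [Pool.Agent.W425.ND.smul_apply, eval_shA_Bop, dL_eval]
  show _ * coeff e (p * ((t.descFactorial m : ℕ) : MvPolynomial (Fin N) RR) * f ^ (t - m)) =
    coeff e (p * (((t + L).descFactorial (m + L) : ℕ) : MvPolynomial (Fin N) RR) *
      f ^ (t + L - (m + L)))
  have h1 : t + L - (m + L) = t - m := by omega
  have h2 : (t + L).descFactorial (m + L) = (t + L).descFactorial L * t.descFactorial m := by
    have := Nat.descFactorial_mul_descFactorial (n := t + L) (k := L) (m := L + m)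
      (Nat.le_add_right _ _)
    rw [Nat.add_sub_cancel_left, Nat.add_sub_cancel] at this
    rw [Nat.add_comm m L, ← this, mul_comm]
  rw [h1, h2, map_natCast]
  have h3 : p * (((t + L).descFactorial L * t.descFactorial m : ℕ) : MvPolynomial (Fin N) RR) *
      f ^ (t - m) = C (((t + L).descFactorial L : ℕ) : RR) *
        (p * ((t.descFactorial m : ℕ) : MvPolynomial (Fin N) RR) * f ^ (t - m)) := by
    rw [Nat.cast_mul, map_natCast]; ring
  rw [h3, coeff_C_mul]

lemma low_brk (hBRK : TaskBRK) (f : MvPolynomial (Fin N) RR) (c γ : Fin N →₀ ℕ) (m : ℕ) :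
    brk f (monomial (c + γ) 1) m =
      low (fun i => -(γ i : ℤ)) (sh 0 (brk f (monomial c 1) m)) := by
  rw [sh_zero, hBRK.2.2.2.2.1, monomial_mul, mul_one, add_comm]

/-- the elements of `WW` are of the required form -/
lemma WW_form (hALG : TaskALG) (hBRK : TaskBRK) (v : Fin r → Fin N → ℕ)
    (f : MvPolynomial (Fin N) RR) (L k : ℕ) (w : Fn N RR) (hw : w ∈ WW v f L k) :
    ∃ y ∈ RS (Kind v L k) f, shA L (Bop (dL L) : BB N) • w = sh L y := by
  obtain ⟨a1, a2, a3, a4, a5, a6, a7, -⟩ := id hALG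
  have hadd : ∀ w w' : Fn N RR,
      (∃ y ∈ RS (Kind v L k) f, shA L (Bop (dL L) : BB N) • w = sh L y) →
      (∃ y ∈ RS (Kind v L k) f, shA L (Bop (dL L) : BB N) • w' = sh L y) →
      ∃ y ∈ RS (Kind v L k) f, shA L (Bop (dL L) : BB N) • (w + w') = sh L y := by
    rintro w w' ⟨y, hy, he⟩ ⟨y', hy', he'⟩
    exact ⟨y + y', add_mem hy hy', by rw [smul_add, he, he', a4]⟩
  have hsm : ∀ (q : BB N) (w : Fn N RR),
      (∃ y ∈ RS (Kind v L k) f, shA L (Bop (dL L) : BB N) • w = sh L y) →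
      ∃ y ∈ RS (Kind v L k) f, shA L (Bop (dL L) : BB N) • (q • w) = sh L y := by
    rintro q w ⟨y, hy, he⟩
    obtain ⟨q', -, hq'⟩ := a7 N RR L q y
    exact ⟨q' • y, Submodule.smul_mem _ _ hy, by rw [smul_comm, he, hq']⟩
  have hz : ∃ y ∈ RS (Kind v L k) f, shA L (Bop (dL L) : BB N) • (0 : Fn N RR) = sh L y :=
    ⟨0, zero_mem _, by rw [smul_zero]; rfl⟩
  have hspan : ∀ G : Set (Fn N RR),
      (∀ w ∈ G, ∃ y ∈ RS (Kind v L k) f, shA L (Bop (dL L) : BB N) • w = sh L y) →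
      ∀ w ∈ Submodule.span (BB N) G,
        ∃ y ∈ RS (Kind v L k) f, shA L (Bop (dL L) : BB N) • w = sh L y := by
    intro G hG w hw
    induction hw using Submodule.span_induction with
    | mem w hw => exact hG w hw
    | zero => exact hz
    | add x y _ _ hx hy => exact hadd _ _ hx hy
    | smul q x _ hx => exact hsm _ _ hx
  have hgen : ∀ (t : ℕ) (δ : Fin N → ℤ) (c : Fin N →₀ ℕ) (m : ℕ), Kind v L k t δ c m →
      low δ (sh t (brk f (monomial c 1) m)) ∈ RS (Kind v L k) f := fun t δ c m h =>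
    Submodule.subset_span ⟨t, δ, c, m, h, rfl⟩
  unfold WW at hw
  obtain ⟨w12, hw12, w3, hw3, rfl⟩ := Submodule.mem_sup.1 hw
  obtain ⟨w1, hw1, w2, hw2, rfl⟩ := Submodule.mem_sup.1 hw12
  refine hadd _ _ (hadd _ _ ?_ ?_) ?_
  · refine hspan _ ?_ w1 hw1
    rintro w ⟨_, ⟨⟨δ, l⟩, hl, rfl⟩, g, ⟨m, c, hc, rfl⟩, rfl⟩
    have hl' : l = L + 1 := hl
    subst hl'
    refine ⟨(Bop (dL L) : BB N) • low δ (sh 1 (brk f (monomial c 1) m)),
      Submodule.smul_mem _ _ (hgen _ _ _ _ (Or.inl ⟨rfl, hc.hul⟩)), ?_⟩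
    show _ • low δ (sh (L + 1) _) = _
    rw [a6, a5, Nat.add_comm L 1, sh_add]
  · refine hspan _ ?_ w2 hw2
    rintro w ⟨_, ⟨a, ha, rfl⟩, g, ⟨m, c, ⟨c', γ, rfl, hc, hγ⟩, rfl⟩, rfl⟩
    rw [Set.mem_singleton_iff] at ha
    subst ha
    refine ⟨(Bop (dL L) : BB N) • brk f (monomial (c' + γ) 1) m,
      Submodule.smul_mem _ _ ?_, ?_⟩
    · rw [low_brk hBRK]
      refine hgen _ _ _ _ (Or.inr (Or.inl ⟨rfl, fun i => by simp, ?_, hc⟩))
      intro h0
      have h1 : ∀ i, γ i = 0 := fun i => by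
        have := congrFun h0 i
        simpa using this
      simp [h1] at hγ
    · show _ • low 0 (sh L _) = _
      rw [low_zero, a6]
  · refine hspan _ ?_ w3 hw3
    rintro w ⟨m, c, ⟨c', γ, rfl, hc, hγ⟩, rfl⟩
    refine ⟨brk f (monomial (c' + γ) 1) (m + L), ?_, mul_dL f _ m L⟩
    rw [low_brk hBRK]
    refine hgen _ _ _ _ (Or.inr (Or.inr ⟨rfl, fun i => by simp, ?_, Nat.le_add_left _ _, ?_⟩))
    · rw [Finset.sum_neg_distrib, neg_neg]
      exact_mod_cast hγ
    · rwa [Nat.add_sub_cancel]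

theorem defp (hCN : TaskCNP) (hALG : TaskALG) (hBRK : TaskBRK) (hR1 : TaskREP1)
    (hR2 : TaskREP2) : TaskDEFP := by
  intro r N v a' hf K hgen B hspec
  obtain ⟨L, hL⟩ := def_mem hCN hALG hBRK hR1 hR2 v a' hf K hgen B hspec
  refine ⟨L, fun k => ?_⟩
  obtain ⟨y, hy, he⟩ := WW_form hALG hBRK v _ L k _ (hL k)
  obtain ⟨n, t, δ, c, m, P, hT, hr⟩ := RS_rep hALG _ _ y hy
  refine ⟨L, n, t, δ, c, m, P, hT, ?_⟩
  intro s hs e
  obtain ⟨t', rfl⟩ := Nat.exists_eq_add_of_le' hs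
  have h1 := congrFun (congrFun he t') e
  have h2 : (shA L (Bop (dL L) : BB N) • shA L (Bop B : BB N) • sh L (brk (spa v a') 1 0)) t' e =
      algebraMap ℂ RR ((B * dL L).eval ((t' + L : ℕ) : ℂ)) * 1 *
        coeff e (spa v a' ^ (t' + L)) := by
    rw [Pool.Agent.W425.ND.smul_apply, Pool.Agent.W425.ND.smul_apply, eval_shA_Bop, eval_shA_Bop]
    show _ * (_ * coeff e (1 * (((t' + L).descFactorial 0 : ℕ) :
      MvPolynomial (Fin N) RR) * (spa v a') ^ (t' + L - 0))) = _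
    rw [Nat.descFactorial_zero, Nat.cast_one, mul_one, one_mul, Nat.sub_zero, mul_one,
      Polynomial.eval_mul, map_mul]
    ring
  rw [← h2, h1, hr]
  show (∑ k, low (δ k) (P k • sh (t k) (brk (spa v a') (monomial (c k) 1) (m k)))) (t' + L) e = _
  have hsum : ∀ (S : Finset (Fin n)) (u : Fin n → Fn N RR), (∑ k ∈ S, u k) (t' + L) e =
      ∑ k ∈ S, u k (t' + L) e := by
    intro S u
    induction S using Finset.induction_on with
    | empty => rfl
    | insert k S hk ih => rw [Finset.sum_insert hk, Finset.sum_insert hk, Pool.Agent.W425.ND.add_apply, ih]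
  rw [hsum]

end Pool.Agent.Y229.CF
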