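import Pool.Agent.Y229.CF.Mot

set_option autoImplicit false

/-! Motivic zeta functions of polynomials which are nondegenerate for the compact faces, arcs with
origin in a coordinate subspace (adapted from `TH216.ID.Id2`). -/

namespace Pool.Agent.Y229.CF.Mot

open Pool.Agent.W426.SM (gord ford IsRay)
open Pool.Agent.W428.MOT (geoR InRat cp)
open Pool.Agent.TH216.MF
open MvPolynomial
open Pool.Agent.W428.MOT Pool.Agent.W749.MT
open Pool.Agent.W375.MG (Good GB0 GB1 constr_W constr_GB1 zetaG)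
open Pool.Agent.TH216.MC (b0_empty b0_rel b1_rel pos_of_ray)
open Pool.Agent.W426.SM (face)
open Pool.Agent.W63.MTFin (mapMeas geo_sum L_mul ev C_mem X_mem)
open Pool.Agent.TH216.ID

/-- **Motivic zeta functions of a nondegenerate polynomial, origins in `{z_i = 0, i ∈ D}`: only the
rays which are not bad, without the factor of `-1`.** -/
theorem fin_W' {n r : ℕ} (m : Fin r → Fin n → ℕ) (hr0 : 0 < r) (Bad : ℚ → Prop)
    (Dx : Finset (Fin n))
    (hB : ∀ J : Finset (Fin n), Dx ⊆ J → ∀ q : ℕ, 2 ≤ q → ∀ e : Finset (Fin r) → ℂ,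
      KRelJ q m J e → ∀ T0 : ℂ, T0 ≠ 0 → ∀ σ : ℚ, Bad σ →
      Real.log ‖T0‖ / Real.log q = (σ : ℝ) → RecJ q m e J T0) :
    ∃ S : Finset (ℤ × ℤ),
      (∀ p ∈ S, ∃ a : Fin n → ℕ, IsRay m a ∧ 0 < gord m a ∧
        ¬ Bad (((∑ i, a i : ℕ) : ℚ) / gord m a) ∧
        p = (-((∑ i, a i : ℕ) : ℤ), (gord m a : ℤ))) ∧
      ∀ (K : Type) [Field K] [CharZero K] (c : Fin r → K), NonGJ Dx m c → (∀ j, c j ≠ 0) →
      ∀ (W : Set (Pt K (Fin n))) (E : Set (AlgebraicClosure K)), Constr W → Good E →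
        (∀ z ∈ W, ∀ i ∈ Dx, z i = 0) →
        zetaG (sp 0 m c 1) W E * (1 - PowerSeries.C (((Lu K)⁻¹ : (MK K)ˣ) : MK K) *
          PowerSeries.X) ∈ ratRing K S := by
  classical
  have h1 : S_K0 := Pool.Agent.W417.MT.K0.main
  have h5 : S_CP1 := Pool.Agent.W346.MTCp1.main
  have hFree : S_Free := Pool.Agent.W417.MT.Free.main
  have hSub : S_Sub := Pool.Agent.W21.MTSub.main
  have hTay : S_Tay := Pool.Agent.W417.MT.Tay.main
  have hex : ∀ J : Finset (Fin n), ∃ l : List (Fin n → ℕ), Dx ⊆ J →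
      (∀ a ∈ l, IsRay m a ∧ 0 < gord m a ∧ ¬ Bad (((∑ i, a i : ℕ) : ℚ) / gord m a)) ∧
      ∀ κ, IsPol (Gd m J κ * (l.map (fac m)).prod) := by
    intro J
    by_cases hJ : Dx ⊆ J
    · obtain ⟨l, hl⟩ := formal hr0 m J Bad (hB J hJ)
      exact ⟨l, fun _ => hl⟩
    · exact ⟨[], fun h => absurd h hJ⟩
  choose l hl' using hex
  have hl : ∀ J, Dx ⊆ J → ∀ a ∈ l J, IsRay m a ∧ 0 < gord m a ∧
    ¬ Bad (((∑ i, a i : ℕ) : ℚ) / gord m a) := fun J hJ => (hl' J hJ).1
  have hG : ∀ J, Dx ⊆ J → ∀ κ, IsPol (Gd m J κ * ((l J).map (fac m)).prod) :=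
    fun J hJ => (hl' J hJ).2
  set S : Finset (ℤ × ℤ) := (Finset.univ.filter fun J => Dx ⊆ J).biUnion
    fun J : Finset (Fin n) =>
    (l J).toFinset.image fun a => (-((∑ i, a i : ℕ) : ℤ), (gord m a : ℤ)) with hS
  have hS2 : ∀ J, Dx ⊆ J → ∀ a ∈ l J, (-((∑ i, a i : ℕ) : ℤ), (gord m a : ℤ)) ∈ S :=
    fun J hJ a ha => Finset.mem_biUnion.2 ⟨J, Finset.mem_filter.2 ⟨Finset.mem_univ _, hJ⟩,
      Finset.mem_image.2 ⟨a, List.mem_toFinset.2 ha, rfl⟩⟩
  refine ⟨S, fun p hp => ?_, ?_⟩
  · obtain ⟨J, hJ, hp⟩ := Finset.mem_biUnion.1 hp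
    obtain ⟨a, ha, rfl⟩ := Finset.mem_image.1 hp
    obtain ⟨ha1, ha2, ha3⟩ := hl J (Finset.mem_filter.1 hJ).2 a (List.mem_toFinset.1 ha)
    exact ⟨a, ha1, ha2, ha3, rfl⟩
  · intro K _ _ c hNon hc W E hW hE hWD
    obtain ⟨M₀, hM₀⟩ := h1 K
    set M := mapMeas M₀ (algebraMap (K0 K) (MK K)) with hM
    set Y : MK K := (((Lu K)⁻¹ : (MK K)ˣ) : MK K) with hY
    have hL : M.L * Y = 1 := L_mul hM₀
    have hML : M.L = ((Lu K : (MK K)ˣ) : MK K) := by
      have h2 : ((Lu K : (MK K)ˣ) : MK K) * Y = 1 := Units.mul_inv _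
      calc M.L = M.L * (((Lu K : (MK K)ˣ) : MK K) * Y) := by rw [h2, mul_one]
        _ = (M.L * Y) * ((Lu K : (MK K)ˣ) : MK K) := by ring
        _ = _ := by rw [hL, one_mul]
    have hsum := sum' hFree hSub hTay M 0 m c 1 hW hE Dx hNon hWD one_pos Y hL
    -- the series
    set C : Finset (Fin n) → Finset (Fin r) → PowerSeries (MK K) := fun J τ =>
      PowerSeries.map (evR (Lu K)) (cser m J τ) with hCdef
    have hCc : ∀ J τ N, PowerSeries.coeff N (C J τ) =
        Polynomial.eval₂ (Int.castRingHom (MK K)) Y (cp 0 m 1 J τ N N) := fun J τ N => by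
      simp only [hCdef, cser]
      rw [PowerSeries.coeff_map, PowerSeries.coeff_mk]
      rfl
    set D : Finset (Fin n) → Finset (Fin r) → PowerSeries (MK K) := fun J τ =>
      PowerSeries.mk fun N => ∑ l ∈ Finset.Icc 1 N,
        if 1 * l ≤ N then Y ^ l * PowerSeries.coeff (N - 1 * l) (C J τ) else 0
      with hDdef
    have hD : ∀ J τ, D J τ = PowerSeries.C Y * PowerSeries.X * C J τ * geoR (Lu K) (-1) 1 := by
      intro J τ
      have h6 := geo_sum Y (fun N => PowerSeries.coeff N (C J τ)) 1 one_pos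
      have h7 := geoR_mul (Lu K) (-1) 1 one_pos
      rw [show (1 : ℤ).toNat = 1 from rfl, zpow_neg_one] at h7
      have h9 : PowerSeries.mk (fun N => PowerSeries.coeff N (C J τ)) = C J τ := by
        ext N
        rw [PowerSeries.coeff_mk]
      rw [h9] at h6
      have h10 : D J τ * ((1 - PowerSeries.C Y * PowerSeries.X ^ 1) * geoR (Lu K) (-1) 1) =
          PowerSeries.C Y * PowerSeries.X ^ 1 * C J τ * geoR (Lu K) (-1) 1 := by
        rw [← h6, mul_assoc]
      rw [h7, mul_one, pow_one] at h10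
      exact h10
    set b0 : Finset (Fin n) → Finset (Fin r) → MK K := fun J τ => M.χ _ (GB0 0 m c 1 W E J τ)
      with hb0
    set b1 : Finset (Fin n) → Finset (Fin r) → MK K := fun J τ => M.χ _ (GB1 0 m c 1 W E J τ)
      with hb1
    -- only the points of `W`
    have hb0z : ∀ J : Finset (Fin n), ¬ Dx ⊆ J → ∀ τ, b0 J τ = 0 := by
      intro J hJ τ
      have h6 : GB0 0 m c 1 W E J τ = ∅ := by
        ext z
        simp only [GB0, Set.mem_ofPred_eq, Set.mem_empty_iff_false, iff_false]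
        rintro ⟨h7, h8, -⟩
        obtain ⟨i, hi, hi'⟩ := Finset.not_subset.1 hJ
        have h9 := hWD _ h7 i hi
        simp only [if_neg hi'] at h9
        exact h8 i h9
      simp only [hb0]
      rw [h6, χ_empty]
    have hb1z : ∀ J : Finset (Fin n), ¬ Dx ⊆ J → ∀ τ, b1 J τ = 0 := by
      intro J hJ τ
      have h6 : GB1 0 m c 1 W E J τ = ∅ := by
        ext z
        simp only [GB1, Set.mem_ofPred_eq, Set.mem_empty_iff_false, iff_false]
        rintro ⟨h7, h8, -⟩
        obtain ⟨i, hi, hi'⟩ := Finset.not_subset.1 hJ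
        have h9 := hWD _ h7 i hi
        simp only [if_neg hi'] at h9
        exact h8 i h9
      simp only [hb1]
      rw [h6, χ_empty]
    set F : PowerSeries (MK K) := ∑ J : Finset (Fin n), FR (Lu K) m J (b0 J) (b1 J) with hF
    have hFmem : F * (1 - PowerSeries.C Y * PowerSeries.X) ∈ ratRing K S := by
      rw [hF, Finset.sum_mul]
      refine (ratRing K S).sum_mem fun J _ => ?_
      by_cases hJ : Dx ⊆ J
      · refine inRat_J1 (Lu K) m J (l J)
          (fun a ha => ⟨(hl J hJ a ha).2.1, hS2 J hJ a ha⟩) (hG J hJ)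
          (M.χ _ (GB1 0 m c 1 W E J ∅)) (fun _ => True) (fun _ _ _ _ => trivial)
          (fun _ h => absurd trivial h) (b0 J) (b1 J)
          (b0_empty M m c hE J) rfl ?_ ?_
        · intro i hi j0 hj0 τ hτ _
          rw [← hML]
          exact b0_rel hFree hSub M m c hc hW hE J i hi j0 hj0 τ hτ
        · intro i hi j0 hj0 τ hτ _
          rw [← hML]
          exact b1_rel hFree hSub M m c hc hW hE J i hi j0 hj0 τ hτ
      · have h6 : FR (Lu K) m J (b0 J) (b1 J) = 0 := by
          unfold FR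
          refine Finset.sum_eq_zero fun τ _ => ?_
          rw [hb0z J hJ, hb1z J hJ]
          simp
        rw [h6, zero_mul]
        exact (ratRing K S).zero_mem
    have hz : zetaG (sp 0 m c 1) W E =
        F - PowerSeries.C (PowerSeries.coeff 0 F) + PowerSeries.C (PowerSeries.coeff 0
          (zetaG (sp 0 m c 1) W E)) := by
      ext N
      by_cases hN : N = 0
      · subst hN
        rw [map_add, map_sub, PowerSeries.coeff_C, if_pos rfl, PowerSeries.coeff_C, if_pos rfl,
          sub_self, zero_add]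
      · rw [map_add, map_sub, PowerSeries.coeff_C, if_neg hN, PowerSeries.coeff_C, if_neg hN,
          sub_zero, add_zero, zetaG, PowerSeries.coeff_mk]
        have h6 := hsum N (by omega)
        have h7 : algebraMap (K0 K) (MK K) (cls (Fin n × Fin (N + 1))
            (Pool.Agent.W375.MG.JetG (sp 0 m c 1) W E N)) *
            (((Lu K) ^ (-((n * N : ℕ) : ℤ)) : (MK K)ˣ) : MK K) =
            M.χ _ (Pool.Agent.W375.MG.JetG (sp 0 m c 1) W E N) * Y ^ (n * N) := by
          rw [zpow_neg, zpow_natCast, ← inv_pow, Units.val_pow_eq_pow_val, ← hM₀]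
          rfl
        rw [h7, h6, hF, map_sum]
        refine Finset.sum_congr rfl fun J _ => ?_
        unfold FR
        rw [map_sum]
        refine Finset.sum_congr rfl fun τ _ => ?_
        change _ = PowerSeries.coeff N (PowerSeries.C (((Lu K : (MK K)ˣ) : MK K) ^ frc m J τ) *
          (PowerSeries.C (b0 J τ) * C J τ + PowerSeries.C (b1 J τ) *
            (PowerSeries.C Y * PowerSeries.X * C J τ * geoR (Lu K) (-1) 1)))
        rw [← hD, ← hML, PowerSeries.coeff_C_mul, map_add, PowerSeries.coeff_C_mul,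
          PowerSeries.coeff_C_mul, hCc, hDdef, PowerSeries.coeff_mk, Finset.mul_sum]
        congr 2
        refine Finset.sum_congr rfl fun i _ => ?_
        split_ifs with hi
        · rw [hCc, h5 0 m 1 J τ hr0 one_pos N (N - 1 * i) (Nat.sub_le _ _), mul_assoc]
        · rw [mul_zero]
    rw [hz, add_mul, sub_mul]
    have hYX : (1 - PowerSeries.C Y * PowerSeries.X : PowerSeries (MK K)) ∈ ratRing K S :=
      (ratRing K S).sub_mem (ratRing K S).one_mem
        ((ratRing K S).mul_mem (C_mem _ _) (X_mem _))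
    exact (ratRing K S).add_mem ((ratRing K S).sub_mem hFmem
      ((ratRing K S).mul_mem (C_mem _ _) hYX)) ((ratRing K S).mul_mem (C_mem _ _) hYX)


end Pool.Agent.Y229.CF.Mot
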